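import Pool.Agent.Lib.Occ.Defs

/-!
Sparse labels (elementary). `M = per e h = (e+1)(2h+1)`. The action `zet h y` (generator `0`: shift of the position, generator `1`: multiplication by the label of the position).
(a) by induction on the word: `(zet v (x, u)).1` does not depend on `u` and `(zet v (x, u)).2 = (zet v (x, 1)).2 * u`.
(b) `zet (bw i) (0, u) = (0, y i * u)`: the position `i (2h+1)` has the label `y i` (the positions `i (2h+1)`, `i < e`, are distinct modulo `M`).
(c) for every `v` there is `j < M` with `(zet (of 0 ^ j * v) (0, 1)).1 = 0`.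
(d) for a list `l` of length at most `n h`, `(zet (mk l) (x, 1)).2 ∈ Wd y n`. Proof: split `l` in `n` pieces of length at most `h`; for a piece: for each `x` there is `u_x : U`, `u_x = 1` or `u_x = y i`, such that
`lamb (x + d) ∈ {1, u_x}` for all integers `|d| ≤ h` (two special positions differ by at least `2h+1` modulo `M`); by induction on the length of `l`, for `|d| + length l ≤ h`, `(zet (mk l) (x + d, 1)).2 ∈ {1, u_x}`,
as `u_x² = 1` (the inverse of `lamb` is `lamb`).
-/

set_option autoImplicit false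

namespace Pool.Agent.Occ

namespace Labels

variable {U : Type*} [Group U] {e : ℕ}

lemma per_pos (e h : ℕ) : 0 < per e h := Nat.mul_pos (Nat.succ_pos _) (Nat.succ_pos _)

instance (e h : ℕ) : NeZero (per e h) := ⟨(per_pos e h).ne'⟩

lemma zet_zero (h : ℕ) (y : Fin e → U) : zet h y (FreeGroup.of 0) = rotP U (per e h) := by
  simp [zet]

lemma zet_one (h : ℕ) (y : Fin e → U) : zet h y (FreeGroup.of 1) = labP h y := by
  simp [zet]

omit [Group U] in
lemma rotP_pow (M j : ℕ) (x : ZMod M) (u : U) : (rotP U M ^ j) (x, u) = (x + j, u) := by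
  induction j generalizing x with
  | zero => simp
  | succ j ih =>
    have h1 : rotP U M (x, u) = (x + 1, u) := rfl
    rw [pow_succ, Equiv.Perm.mul_apply, h1, ih]
    push_cast
    congr 1
    ring

lemma zet_comm (h : ℕ) (y : Fin e → U) (v : FreeGroup (Fin 2)) :
    ∀ (x : ZMod (per e h)) (w u : U), zet h y v (x, w * u) =
      ((zet h y v (x, w)).1, (zet h y v (x, w)).2 * u) := by
  induction v using FreeGroup.induction_on with
  | C1 =>
    intro x w u
    simp
  | of i =>
    intro x w u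
    fin_cases i
    · have h1 : zet h y (FreeGroup.of ((⟨0, by omega⟩ : Fin 2))) = rotP U (per e h) := zet_zero h y
      rw [h1]
      rfl
    · have h1 : zet h y (FreeGroup.of ((⟨1, by omega⟩ : Fin 2))) = labP h y := zet_one h y
      rw [h1]
      change (x, lamb h y x * (w * u)) = (x, lamb h y x * w * u)
      rw [mul_assoc]
  | inv_of i ih =>
    intro x w u
    rw [map_inv, Equiv.Perm.inv_eq_iff_eq]
    set p := (zet h y (FreeGroup.of i))⁻¹ (x, w) with hp
    have h1 : zet h y (FreeGroup.of i) p = (x, w) := by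
      rw [hp]
      exact Equiv.apply_symm_apply _ _
    have h2 := ih p.1 p.2 u
    rw [Prod.mk.eta, h1] at h2
    exact h2.symm
  | mul a b ha hb =>
    intro x w u
    rw [map_mul, Equiv.Perm.mul_apply, Equiv.Perm.mul_apply, hb, ha]

lemma lamb_special (h : ℕ) (y : Fin e → U) (i : Fin e) :
    lamb h y (((i : ℕ) * (2 * h + 1) : ℕ) : ZMod (per e h)) = y i := by
  unfold lamb
  have hx : ∃ j : Fin e, (((i : ℕ) * (2 * h + 1) : ℕ) : ZMod (per e h)) =
      (((j : ℕ) * (2 * h + 1) : ℕ) : ZMod (per e h)) := ⟨i, rfl⟩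
  rw [dif_pos hx]
  congr 1
  have h1 := hx.choose_spec
  set j := hx.choose with hj
  have hlt : ∀ a : Fin e, (a : ℕ) * (2 * h + 1) < per e h := by
    intro a
    unfold per
    exact Nat.mul_lt_mul_of_pos_right (by have := a.2; omega) (Nat.succ_pos _)
  have h2 := (ZMod.natCast_eq_natCast_iff' _ _ _).1 h1
  rw [Nat.mod_eq_of_lt (hlt i), Nat.mod_eq_of_lt (hlt j)] at h2
  exact Fin.ext (Nat.eq_of_mul_eq_mul_right (Nat.succ_pos _) h2.symm)

/-- two special positions at distance at most `2h` coincide -/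
lemma special_unique (h : ℕ) (x : ZMod (per e h)) {d d' : ℤ} (hd : |d| ≤ h) (hd' : |d'| ≤ h)
    {a b : ℕ} (ha : x + d = ((a * (2 * h + 1) : ℕ) : ZMod (per e h)))
    (hb : x + d' = ((b * (2 * h + 1) : ℕ) : ZMod (per e h))) : d = d' := by
  have h1 : (((d - d') : ℤ) : ZMod (per e h)) =
      (((a * (2 * h + 1) : ℕ) - (b * (2 * h + 1) : ℕ) : ℤ) : ZMod (per e h)) := by
    push_cast at ha hb ⊢
    rw [← ha, ← hb]
    ring
  rw [ZMod.intCast_eq_intCast_iff_dvd_sub] at h1
  have h2 : ((2 * h + 1 : ℕ) : ℤ) ∣ ((per e h : ℕ) : ℤ) := by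
    rw [Int.natCast_dvd_natCast]
    exact Dvd.intro_left _ rfl
  have h3 : ((2 * h + 1 : ℕ) : ℤ) ∣ d - d' := by
    have h4 := h2.trans h1
    have h5 : ((2 * h + 1 : ℕ) : ℤ) ∣ (((a * (2 * h + 1) : ℕ) : ℤ) - ((b * (2 * h + 1) : ℕ) : ℤ)) := by
      push_cast
      exact dvd_sub (Dvd.intro_left _ rfl) (Dvd.intro_left _ rfl)
    exact (dvd_sub_right h5).1 h4
  have h6 : d - d' = 0 := by
    refine Int.eq_zero_of_abs_lt_dvd h3 ?_
    have h7 := abs_sub d d'
    have h8 : |d - d'| ≤ |d| + |d'| := abs_sub _ _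
    push_cast
    linarith
  linarith

/-- the labels met by short paths from `x` -/
lemma exists_label (h : ℕ) (y : Fin e → U) (x : ZMod (per e h)) :
    ∃ ux : U, (ux = 1 ∨ ∃ i, ux = y i) ∧
      ∀ d : ℤ, |d| ≤ h → lamb h y (x + d) = 1 ∨ lamb h y (x + d) = ux := by
  by_cases hex : ∃ (d : ℤ) (i : Fin e), |d| ≤ h ∧
      x + d = (((i : ℕ) * (2 * h + 1) : ℕ) : ZMod (per e h))
  · obtain ⟨d, i, hd, hi⟩ := hex
    refine ⟨y i, Or.inr ⟨i, rfl⟩, fun d' hd' => ?_⟩
    by_cases hs : ∃ j : Fin e, x + d' = (((j : ℕ) * (2 * h + 1) : ℕ) : ZMod (per e h))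
    · obtain ⟨j, hj⟩ := hs
      have h1 := special_unique h x hd hd' hi hj
      right
      rw [← h1, hi, lamb_special]
    · left
      unfold lamb
      rw [dif_neg hs]
  · refine ⟨1, Or.inl rfl, fun d hd => Or.inl ?_⟩
    unfold lamb
    rw [dif_neg]
    rintro ⟨i, hi⟩
    exact hex ⟨d, i, hd, hi⟩

lemma zet_cons (h : ℕ) (y : Fin e → U) (z : Fin 2 × Bool) (l : List (Fin 2 × Bool))
    (p : ZMod (per e h) × U) : zet h y (FreeGroup.mk (z :: l)) p =
      zet h y (FreeGroup.mk [z]) (zet h y (FreeGroup.mk l) p) := by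
  have h1 : (FreeGroup.mk (z :: l) : FreeGroup (Fin 2)) = FreeGroup.mk [z] * FreeGroup.mk l := by
    rw [FreeGroup.mul_mk]
    rfl
  rw [h1, map_mul, Equiv.Perm.mul_apply]

lemma zet_letter (h : ℕ) (y : Fin e → U) (z : Fin 2 × Bool) (x : ZMod (per e h)) (w : U) :
    zet h y (FreeGroup.mk [z]) (x, w) = (x + 1, w) ∨
    zet h y (FreeGroup.mk [z]) (x, w) = (x - 1, w) ∨
    zet h y (FreeGroup.mk [z]) (x, w) = (x, lamb h y x * w) ∨
    zet h y (FreeGroup.mk [z]) (x, w) = (x, (lamb h y x)⁻¹ * w) := by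
  obtain ⟨i, b⟩ := z
  fin_cases i <;> cases b
  · right; left
    unfold zet
    rw [FreeGroup.lift_mk]
    simp
    rfl
  · left
    unfold zet
    rw [FreeGroup.lift_mk]
    simp
    rfl
  · right; right; right
    unfold zet
    rw [FreeGroup.lift_mk]
    simp
    rfl
  · right; right; left
    unfold zet
    rw [FreeGroup.lift_mk]
    simp
    rfl

/-- labels of short paths -/
lemma short_path (h : ℕ) (y : Fin e → U) (hy : ∀ i, y i * y i = 1) (x : ZMod (per e h)) {ux : U}
    (hux : ux = 1 ∨ ∃ i, ux = y i)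
    (hl : ∀ d : ℤ, |d| ≤ h → lamb h y (x + d) = 1 ∨ lamb h y (x + d) = ux)
    (l : List (Fin 2 × Bool)) (hlen : l.length ≤ h) :
    ∃ d : ℤ, |d| ≤ l.length ∧ (zet h y (FreeGroup.mk l) (x, 1)).1 = x + d ∧
      ((zet h y (FreeGroup.mk l) (x, 1)).2 = 1 ∨ (zet h y (FreeGroup.mk l) (x, 1)).2 = ux) := by
  have hux2 : ux * ux = 1 := by
    rcases hux with rfl | ⟨i, rfl⟩
    · exact one_mul 1
    · exact hy i
  have hinv : ux⁻¹ = ux := inv_eq_of_mul_eq_one_left hux2
  induction l with
  | nil =>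
    refine ⟨0, by simp, ?_, Or.inl ?_⟩
    · have h1 : (FreeGroup.mk [] : FreeGroup (Fin 2)) = 1 := rfl
      rw [h1, map_one, Equiv.Perm.one_apply]
      simp
    · have h1 : (FreeGroup.mk [] : FreeGroup (Fin 2)) = 1 := rfl
      rw [h1, map_one, Equiv.Perm.one_apply]
  | cons z l ih =>
    rw [List.length_cons] at hlen
    obtain ⟨d, hd, hd1, hd2⟩ := ih (by omega)
    rw [zet_cons]
    set p := zet h y (FreeGroup.mk l) (x, 1) with hp
    obtain ⟨p1, p2⟩ := p
    simp only at hd1 hd2
    subst hd1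
    have hlam := hl d (hd.trans (by exact_mod_cast (by omega : l.length ≤ h)))
    have hlen' : ((z :: l).length : ℤ) = l.length + 1 := by
      rw [List.length_cons]
      push_cast
      rfl
    rw [hlen']
    have hd0 : |d| ≤ (l.length : ℤ) + 1 := by linarith
    rcases zet_letter h y z (x + d) p2 with h1 | h1 | h1 | h1
    · rw [h1]
      refine ⟨d + 1, ?_, ?_, hd2⟩
      · exact (abs_add_le d 1).trans (by rw [abs_one]; linarith)
      · push_cast
        ring
    · rw [h1]
      refine ⟨d - 1, ?_, ?_, hd2⟩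
      · exact (abs_sub d 1).trans (by rw [abs_one]; linarith)
      · push_cast
        ring
    · rw [h1]
      refine ⟨d, hd0, rfl, ?_⟩
      simp only
      rcases hlam with h2 | h2 <;> rcases hd2 with h3 | h3 <;> rw [h2, h3]
      · left; exact one_mul 1
      · right; exact one_mul _
      · right; exact mul_one _
      · left; exact hux2
    · rw [h1]
      refine ⟨d, hd0, rfl, ?_⟩
      simp only
      rcases hlam with h2 | h2 <;> rcases hd2 with h3 | h3 <;> rw [h2, h3]
      · left; simp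
      · right; simp
      · right; rw [hinv, mul_one]
      · left; exact inv_mul_cancel _

end Labels

open Labels

theorem zet_snd {U : Type*} [Group U] {e : ℕ} (h : ℕ) (y : Fin e → U) (v : FreeGroup (Fin 2))
    (x : ZMod (per e h)) (u : U) :
    zet h y v (x, u) = ((zet h y v (x, 1)).1, (zet h y v (x, 1)).2 * u) := by
  have h1 := zet_comm h y v x 1 u
  rwa [one_mul] at h1

theorem zet_bw {U : Type*} [Group U] {e : ℕ} (h : ℕ) (y : Fin e → U) (i : Fin e) (u : U) :
    zet h y (bw h i) (0, u) = (0, y i * u) := by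
  unfold bw
  rw [map_mul, map_mul, map_inv, map_pow, zet_zero, zet_one, Equiv.Perm.mul_apply,
    Equiv.Perm.mul_apply, Equiv.Perm.inv_eq_iff_eq, rotP_pow, rotP_pow, zero_add]
  change (_, lamb h y _ * u) = _
  rw [lamb_special]

theorem zet_shift {U : Type*} [Group U] {e : ℕ} (h : ℕ) (y : Fin e → U) (v : FreeGroup (Fin 2)) :
    ∃ j < per e h, (zet h y (FreeGroup.of 0 ^ j * v) (0, 1)).1 = 0 := by
  refine ⟨(-(zet h y v (0, 1)).1).val, ZMod.val_lt _, ?_⟩
  rw [map_mul, map_pow, zet_zero, Equiv.Perm.mul_apply]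
  set p := zet h y v (0, 1) with hp
  obtain ⟨p1, p2⟩ := p
  rw [rotP_pow]
  simp only
  rw [ZMod.natCast_zmod_val]
  exact add_neg_cancel _

theorem zet_label {U : Type*} [Group U] {e : ℕ} (h : ℕ) (hh : 1 ≤ h) (y : Fin e → U)
    (hy : ∀ i, y i * y i = 1) (n : ℕ) (l : List (Fin 2 × Bool)) (hl : l.length ≤ n * h) (x : ZMod (per e h)) :
    (zet h y (FreeGroup.mk l) (x, 1)).2 ∈ Wd y n := by
  induction n generalizing l x with
  | zero =>
    have h1 : l = [] := List.length_eq_zero_iff.1 (by omega)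
    subst h1
    refine ⟨[], le_rfl, ?_⟩
    have h1 : (FreeGroup.mk [] : FreeGroup (Fin 2)) = 1 := rfl
    rw [h1, map_one, Equiv.Perm.one_apply]
    simp
  | succ n ih =>
    have h1 : (FreeGroup.mk l : FreeGroup (Fin 2)) =
        FreeGroup.mk (l.take (n * h)) * FreeGroup.mk (l.drop (n * h)) := by
      rw [FreeGroup.mul_mk, List.take_append_drop]
    rw [h1, map_mul, Equiv.Perm.mul_apply]
    obtain ⟨ux, hux, hlx⟩ := exists_label h y x
    obtain ⟨d, _, _, hd⟩ := short_path h y hy x hux hlx (l.drop (n * h)) (by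
      rw [List.length_drop]
      have : (n + 1) * h = n * h + h := by ring
      omega)
    set p := zet h y (FreeGroup.mk (l.drop (n * h))) (x, 1) with hp
    obtain ⟨p1, p2⟩ := p
    simp only at hd
    rw [zet_snd]
    obtain ⟨L, hL, hL'⟩ := ih (l.take (n * h)) (by
      rw [List.length_take]
      exact min_le_left _ _) p1
    simp only
    rw [hL']
    have hp2 : p2 = 1 ∨ ∃ i, p2 = y i := by
      rcases hd with h2 | h2
      · exact Or.inl h2
      · rw [h2]
        exact hux
    rcases hp2 with h2 | ⟨i, h2⟩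
    · exact ⟨L, by omega, by rw [h2, mul_one]⟩
    · refine ⟨L ++ [i], ?_, ?_⟩
      · rw [List.length_append, List.length_singleton]
        omega
      · rw [h2, List.map_append, List.prod_append, List.map_singleton, List.prod_singleton]

end Pool.Agent.Occ
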