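import Pool.Agent.Lib.Occ.Defs

/-!
Domination. `LL s C T` is generated by the lassos `s(v) c s(v)⁻¹`, `v ∈ T`, `c ∈ C`; `Ball r` = elements of length `≤ r`.
Facts: `s(q) (LL s C T) s(q)⁻¹ = LL s C (q • T)`. If `f` is good (`hf1`, `hf2` below) and `v = mk l`, then `f s(v) f⁻¹ s(v)⁻¹ ∈ LL s C {v_i * t | v_i = mk (l.take i), t ∈ Ball ρ}` by induction on `l`
(`s(v) = s(z_1) ... s(z_n)`, `f s(z_i) f⁻¹ = λ_i s(z_i)` with `λ_i ∈ LL s C (Ball ρ)`, so `f s(v) f⁻¹ = ∏ (s(v_(i-1)) λ_i s(v_(i-1))⁻¹) s(v)`), hence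
`f (s(v) c s(v)⁻¹) f⁻¹ ∈ LL s C {v_i * t | i ≤ l.length, t ∈ Ball ρ}`.
Main statement by induction on the length `r` of `l` (all lists of length `≤ r`): for `r ≤ R0` it is `hbase`. For `l` of length `r + 1 > R0`: `hstep` for the list `l.take m` gives `l', f` with
`g = s(mk l' * (mk (l.take m))⁻¹) * f ∈ H`. Then `g (s(mk l) c s(mk l)⁻¹) g⁻¹ ∈ LL s C {q v_i t}`, `q = mk l' * (mk (l.take m))⁻¹`; the length of `(mk (l.take m))⁻¹ * mk (l.take i)` is at most `m` if `i ≤ m`
(it is the inverse of `mk ((l.take m).drop i)`) and at most `i - m ≤ r + 1 - m` if `i ≥ m` (it is `mk ((l.take i).drop m)`); so `q v_i t ∈ Ball (D + max m (r + 1 - m) + ρ) ⊆ Ball r`, and by induction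
`LL s C (Ball r) ≤ H`; conjugate back by `g ∈ H`.
-/

set_option autoImplicit false

namespace Pool.Agent.Occ

namespace Lasso

variable {K : Type*} [Group K] (s : FreeGroup (Fin 2) →* K) (C : Set K)

lemma LL_mono {T T' : Set (FreeGroup (Fin 2))} (h : T ⊆ T') : LL s C T ≤ LL s C T' := by
  refine Subgroup.closure_mono ?_
  rintro x ⟨v, hv, c, hc, rfl⟩
  exact ⟨v, h hv, c, hc, rfl⟩

lemma LL_conj {T T' : Set (FreeGroup (Fin 2))} {q : FreeGroup (Fin 2)} (h : ∀ v ∈ T, q * v ∈ T')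
    {x : K} (hx : x ∈ LL s C T) : s q * x * (s q)⁻¹ ∈ LL s C T' := by
  unfold LL at hx
  induction hx using Subgroup.closure_induction with
  | mem x hx =>
    obtain ⟨v, hv, c, hc, rfl⟩ := hx
    refine Subgroup.subset_closure ⟨q * v, h v hv, c, hc, ?_⟩
    rw [map_mul]
    group
  | one =>
    rw [mul_one, mul_inv_cancel]
    exact one_mem _
  | mul x y _ _ hx hy =>
    have h1 : s q * (x * y) * (s q)⁻¹ = (s q * x * (s q)⁻¹) * (s q * y * (s q)⁻¹) := by group
    rw [h1]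
    exact mul_mem hx hy
  | inv x _ hx =>
    have h1 : s q * x⁻¹ * (s q)⁻¹ = (s q * x * (s q)⁻¹)⁻¹ := by group
    rw [h1]
    exact inv_mem hx

lemma Ball_mono {r r' : ℕ} (h : r ≤ r') : Ball r ⊆ Ball r' := by
  rintro v ⟨l, hl, rfl⟩
  exact ⟨l, hl.trans h, rfl⟩

lemma mul_mem_Ball {r r' : ℕ} {a b : FreeGroup (Fin 2)} (ha : a ∈ Ball r) (hb : b ∈ Ball r') :
    a * b ∈ Ball (r + r') := by
  obtain ⟨l, hl, rfl⟩ := ha
  obtain ⟨l', hl', rfl⟩ := hb
  refine ⟨l ++ l', ?_, ?_⟩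
  · rw [List.length_append]
    omega
  · rw [FreeGroup.mul_mk]

lemma inv_mem_Ball {r : ℕ} {a : FreeGroup (Fin 2)} (ha : a ∈ Ball r) : a⁻¹ ∈ Ball r := by
  obtain ⟨l, hl, rfl⟩ := ha
  refine ⟨FreeGroup.invRev l, ?_, ?_⟩
  · rw [FreeGroup.invRev_length]
    exact hl
  · rw [FreeGroup.inv_mk]

lemma one_mem_Ball (r : ℕ) : (1 : FreeGroup (Fin 2)) ∈ Ball r := ⟨[], Nat.zero_le _, rfl⟩

/-- the set of the `v_i t` -/
def PT (l : List (Fin 2 × Bool)) (ρ : ℕ) : Set (FreeGroup (Fin 2)) :=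
  {x | ∃ i ≤ l.length, ∃ t ∈ Ball ρ, x = FreeGroup.mk (l.take i) * t}

/-- conjugation of `s v` by a good element -/
lemma conj_s {ρ : ℕ} {f : K}
    (hf : ∀ z : Fin 2 × Bool, f * s (FreeGroup.mk [z]) * f⁻¹ * (s (FreeGroup.mk [z]))⁻¹ ∈
      LL s C (Ball ρ)) (l : List (Fin 2 × Bool)) :
    f * s (FreeGroup.mk l) * f⁻¹ * (s (FreeGroup.mk l))⁻¹ ∈ LL s C (PT l ρ) := by
  induction l with
  | nil =>
    have h1 : (FreeGroup.mk [] : FreeGroup (Fin 2)) = 1 := rfl
    rw [h1, map_one, mul_one, mul_inv_cancel, inv_one, mul_one]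
    exact one_mem _
  | cons z l ih =>
    have h1 : (FreeGroup.mk (z :: l) : FreeGroup (Fin 2)) = FreeGroup.mk [z] * FreeGroup.mk l := by
      rw [FreeGroup.mul_mk]
      rfl
    have h2 : f * s (FreeGroup.mk (z :: l)) * f⁻¹ * (s (FreeGroup.mk (z :: l)))⁻¹ =
        (f * s (FreeGroup.mk [z]) * f⁻¹ * (s (FreeGroup.mk [z]))⁻¹) *
        (s (FreeGroup.mk [z]) * (f * s (FreeGroup.mk l) * f⁻¹ * (s (FreeGroup.mk l))⁻¹) *
          (s (FreeGroup.mk [z]))⁻¹) := by
      rw [h1, map_mul]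
      group
    rw [h2]
    refine mul_mem (LL_mono s C ?_ (hf z)) (LL_conj s C ?_ ih)
    · intro t ht
      exact ⟨0, Nat.zero_le _, t, ht, by rw [List.take_zero]; exact (one_mul t).symm⟩
    · rintro v ⟨i, hi, t, ht, rfl⟩
      refine ⟨i + 1, by rw [List.length_cons]; omega, t, ht, ?_⟩
      rw [List.take_succ_cons, ← mul_assoc, FreeGroup.mul_mk]
      rfl

/-- conjugation of a lasso by a good element -/
lemma conj_lasso {ρ : ℕ} {f : K}
    (hf : ∀ z : Fin 2 × Bool, f * s (FreeGroup.mk [z]) * f⁻¹ * (s (FreeGroup.mk [z]))⁻¹ ∈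
      LL s C (Ball ρ)) {c : K} (hc : f * c * f⁻¹ ∈ LL s C (Ball ρ)) (l : List (Fin 2 × Bool)) :
    f * (s (FreeGroup.mk l) * c * (s (FreeGroup.mk l))⁻¹) * f⁻¹ ∈ LL s C (PT l ρ) := by
  have h1 := conj_s s C hf l
  have h2 : f * (s (FreeGroup.mk l) * c * (s (FreeGroup.mk l))⁻¹) * f⁻¹ =
      (f * s (FreeGroup.mk l) * f⁻¹ * (s (FreeGroup.mk l))⁻¹) *
      (s (FreeGroup.mk l) * (f * c * f⁻¹) * (s (FreeGroup.mk l))⁻¹) *
      (f * s (FreeGroup.mk l) * f⁻¹ * (s (FreeGroup.mk l))⁻¹)⁻¹ := by group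
  rw [h2]
  refine mul_mem (mul_mem h1 (LL_conj s C ?_ hc)) (inv_mem h1)
  intro t ht
  exact ⟨l.length, le_rfl, t, ht, by rw [List.take_length]⟩

/-- distance of two prefixes -/
lemma prefix_dist (l : List (Fin 2 × Bool)) (m i : ℕ) (hi : i ≤ l.length) :
    (FreeGroup.mk (l.take m))⁻¹ * FreeGroup.mk (l.take i) ∈ Ball (max m (l.length - m)) := by
  rcases le_total i m with h | h
  · have h1 : l.take m = l.take i ++ (l.take m).drop i := by
      have h2 := (List.take_append_drop i (l.take m)).symm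
      rw [List.take_take, min_eq_left h] at h2
      exact h2
    have h3 : (FreeGroup.mk (l.take m))⁻¹ * FreeGroup.mk (l.take i) =
        (FreeGroup.mk ((l.take m).drop i))⁻¹ := by
      conv_lhs => rw [h1]
      rw [← FreeGroup.mul_mk]
      group
    rw [h3]
    refine inv_mem_Ball ⟨_, ?_, rfl⟩
    rw [List.length_drop, List.length_take]
    have := le_max_left m (l.length - m)
    omega
  · have h1 : l.take i = l.take m ++ (l.take i).drop m := by
      have h2 := (List.take_append_drop m (l.take i)).symm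
      rw [List.take_take, min_eq_left h] at h2
      exact h2
    have h3 : (FreeGroup.mk (l.take m))⁻¹ * FreeGroup.mk (l.take i) =
        FreeGroup.mk ((l.take i).drop m) := by
      conv_lhs => rw [h1]
      rw [← FreeGroup.mul_mk]
      group
    rw [h3]
    refine ⟨_, ?_, rfl⟩
    rw [List.length_drop, List.length_take]
    have := le_max_right m (l.length - m)
    omega

end Lasso

open Lasso in
theorem lasso_mem {K : Type*} [Group K] (s : FreeGroup (Fin 2) →* K) (C : Set K) (ρ D m R0 : ℕ)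
    (H : Subgroup K) (hm : D + ρ + 1 ≤ m) (hR0 : m + D + ρ ≤ R0)
    (hbase : LL s C (Ball R0) ≤ H)
    (hstep : ∀ l : List (Fin 2 × Bool), l.length = m → ∃ (l' : List (Fin 2 × Bool)) (f : K),
      l'.length ≤ D ∧ s (FreeGroup.mk l' * (FreeGroup.mk l)⁻¹) * f ∈ H ∧
      (∀ z : Fin 2 × Bool, f * s (FreeGroup.mk [z]) * f⁻¹ * (s (FreeGroup.mk [z]))⁻¹ ∈ LL s C (Ball ρ)) ∧
      (∀ c ∈ C, f * c * f⁻¹ ∈ LL s C (Ball ρ))) :
    LL s C Set.univ ≤ H := by
  have key : ∀ r, LL s C (Ball r) ≤ H := by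
    intro r
    induction r with
    | zero => exact (LL_mono s C (Ball_mono (Nat.zero_le _))).trans hbase
    | succ r ih =>
      rcases le_or_gt (r + 1) R0 with hr | hr
      · exact (LL_mono s C (Ball_mono hr)).trans hbase
      · unfold LL
        rw [Subgroup.closure_le]
        rintro x ⟨v, ⟨l, hl, rfl⟩, c, hc, rfl⟩
        rcases Nat.lt_or_ge l.length (r + 1) with hlt | hge
        · exact ih (Subgroup.subset_closure ⟨_, ⟨l, by omega, rfl⟩, c, hc, rfl⟩)
        · have hlen : l.length = r + 1 := le_antisymm hl hge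
          obtain ⟨l', f, hl', hgH, hf1, hf2⟩ := hstep (l.take m) (by
            rw [List.length_take]
            omega)
          set q : FreeGroup (Fin 2) := FreeGroup.mk l' * (FreeGroup.mk (l.take m))⁻¹ with hq
          have h1 := conj_lasso s C hf1 (hf2 c hc) l
          have h2 : s q * (f * (s (FreeGroup.mk l) * c * (s (FreeGroup.mk l))⁻¹) * f⁻¹) * (s q)⁻¹ ∈
              LL s C (Ball r) := by
            refine LL_conj s C ?_ h1
            rintro x ⟨i, hi, t, ht, rfl⟩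
            have h3 : q * (FreeGroup.mk (l.take i) * t) = FreeGroup.mk l' *
                ((FreeGroup.mk (l.take m))⁻¹ * FreeGroup.mk (l.take i)) * t := by
              rw [hq]
              group
            rw [h3]
            have h4 := mul_mem_Ball (mul_mem_Ball (⟨l', hl', rfl⟩ : FreeGroup.mk l' ∈ Ball D)
              (prefix_dist l m i hi)) ht
            refine Ball_mono ?_ h4
            rw [hlen]
            rcases le_total m (r + 1 - m) with h5 | h5
            · rw [max_eq_right h5]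
              omega
            · rw [max_eq_left h5]
              omega
          have h6 := ih h2
          have h7 : s (FreeGroup.mk l) * c * (s (FreeGroup.mk l))⁻¹ =
              (s q * f)⁻¹ * (s q * (f * (s (FreeGroup.mk l) * c * (s (FreeGroup.mk l))⁻¹) * f⁻¹) *
                (s q)⁻¹) * (s q * f) := by group
          rw [h7]
          exact H.mul_mem (H.mul_mem (H.inv_mem hgH) h6) hgH
  unfold LL
  rw [Subgroup.closure_le]
  rintro x ⟨v, _, c, hc, rfl⟩
  refine key v.toWord.length (Subgroup.subset_closure ⟨v, ⟨v.toWord, le_rfl, ?_⟩, c, hc, rfl⟩)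
  exact FreeGroup.mk_toWord

end Pool.Agent.Occ
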