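import Pool.Agent.Lib.Occ.Defs
import Pool.Agent.Lib.Occ.Labels
import Pool.Agent.Lib.Occ.Lasso

/-!
Main theorem: for every finitely presented group `U` generated by involutions, the word problem of `U` is a membership problem for a fixed finitely generated subgroup of `N ⋊ F_∞`.

`K = N ⋊[lam] FreeGroup ℕ`, `f_j = inr (of j)`. Choose `A_0, A_1 ∈ N` with `θ A_i = of i`, `s : FreeGroup (Fin 2) →* K`, `of i ↦ inl A_i`; `N` is generated by a finite set `X`; `C = {inl (x * (s' (θ x))⁻¹) | x ∈ X}` with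
`s' : FreeGroup (Fin 2) →* N` the lift of `A`, a finite subset of `inl (ker θ)`. `L = LL s C univ`; every `inl n` is `λ * s (θ n)` with `λ ∈ L` (the set of such `n` is a subgroup containing `X`, as `s(q) L s(q)⁻¹ = L`), so
`L = inl (ker θ)`, and `f_j L f_j⁻¹ = L` because `θ ∘ lam w = θ`. Every element of `L` lies in some `LL s C (Ball ρ)` (directed union).
`U = FreeGroup (Fin e) ⧸ normalClosure R`, `y i` = class of `of i`, `y i * y i = 1` by `hR`. `n0 = 4 e + 6`; the finite set `Wd y n0` is enumerated by `u : ℕ → U` on `j < k`; `ψ : FreeGroup ℕ →* U`, `of j ↦ u j`.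
`ρ`: for all `j < k`, `z`, `c ∈ C`: `f_j s(mk [z]) f_j⁻¹ s(mk [z])⁻¹ ∈ LL s C (Ball ρ)` (it is in `L` because `θ` of it is `1`), `f_j c f_j⁻¹ ∈ LL s C (Ball ρ)`.
`h = ρ + 2 e + 4` or larger, `D = M = per e h`, `m = D + ρ + 1`, `R0 = m + D + ρ`; check `D + m ≤ n0 h` (as `M = (e+1)(2h+1)`). `H` is generated by the finite set `S`:
(1) `s(v) c s(v)⁻¹`, `v ∈ Ball R0`, `c ∈ C`;
(2) `s(q) f_j`, `q ∈ Ball (D + m)`, `j < k`, `zet h y q (0, 1) = (0, u j)`;
(3) `s (r(bw h 0, bw h 1, ...))`, `r ∈ R`.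
Domination: for `l` of length `m`, `zet_shift` gives `i < M` with `q = of 0 ^ i * (mk l)⁻¹` returning to the position `0`, its label lies in `Wd y n0` (`zet_label`), so `s(q) f_j ∈ H` for some `j`; `lasso_mem` gives `L ≤ H`.
`b i = s (bw h i)`. (←) `J = {w | lift b w ∈ H}` is a subgroup of `FreeGroup (Fin e)` containing `R`; it is normal: for each `i`, `zet (bw i) (0,1) = (0, y i)`, `y i ∈ Wd y n0`, so `g = s(bw i) f_j ∈ H`, and for `w ∈ J`,
`g (lift b w) g⁻¹ = s(bw i) (f_j s(w(bw)) f_j⁻¹) s(bw i)⁻¹ ∈ L * s(bw i * w(bw) * (bw i)⁻¹)`, similarly for `g⁻¹` (`f_j⁻¹` also moves `s(q)` only by an element of `L`). So `normalClosure R ≤ J`.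
(→) `FreeGroup (Fin 2) × FreeGroup ℕ` acts on `ZMod M × U` by `(q, f) (x, u) = (zet q (x, u)).map id (· * (ψ f)⁻¹)`; the elements `g` of `K` with `(θ g.left, g.right)` fixing `(0, 1)` form a subgroup containing `S`
(`K →* FreeGroup (Fin 2)`, `g ↦ θ g.left` is a homomorphism by `hlam`). If `lift b w ∈ H` then `zet (w(bw)) (0,1) = (0, 1)`, and `zet (w(bw)) (0, u) = (0, w(y) u)` by `zet_bw`, so `w(y) = 1` in `U`, that is `w ∈ normalClosure R`.
-/

set_option autoImplicit false

namespace Pool.Agent.Occ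

section lemmas

variable {K : Type*} [Group K]

theorem dom_conj (s : FreeGroup (Fin 2) →* K) (C : Set K) (q : FreeGroup (Fin 2)) {x : K}
    (hx : x ∈ LL s C Set.univ) : s q * x * (s q)⁻¹ ∈ LL s C Set.univ := by
  have h : LL s C Set.univ ≤ (LL s C Set.univ).comap (MulAut.conj (s q)).toMonoidHom := by
    refine (Subgroup.closure_le _).2 ?_
    rintro _ ⟨v, -, c, hc, rfl⟩
    exact Subgroup.subset_closure ⟨q * v, trivial, c, hc, by simp [mul_assoc]⟩
  simpa using h hx

theorem dom_mono (s : FreeGroup (Fin 2) →* K) (C : Set K) {T T' : Set (FreeGroup (Fin 2))}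
    (h : T ⊆ T') : LL s C T ≤ LL s C T' := by
  refine Subgroup.closure_mono ?_
  rintro _ ⟨v, hv, c, hc, rfl⟩
  exact ⟨v, h hv, c, hc, rfl⟩

theorem dom_ball_mono {r r' : ℕ} (h : r ≤ r') : Ball r ⊆ Ball r' := by
  rintro _ ⟨l, hl, rfl⟩
  exact ⟨l, hl.trans h, rfl⟩

theorem dom_union (s : FreeGroup (Fin 2) →* K) (C : Set K) {x : K}
    (hx : x ∈ LL s C Set.univ) : ∃ ρ, x ∈ LL s C (Ball ρ) := by
  induction hx using Subgroup.closure_induction with
  | mem x hx =>
    obtain ⟨v, -, c, hc, rfl⟩ := hx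
    exact ⟨v.toWord.length, Subgroup.subset_closure
      ⟨v, ⟨v.toWord, le_rfl, FreeGroup.mk_toWord⟩, c, hc, rfl⟩⟩
  | one => exact ⟨0, one_mem _⟩
  | mul x y _ _ ihx ihy =>
    obtain ⟨r, hr⟩ := ihx
    obtain ⟨r', hr'⟩ := ihy
    exact ⟨max r r', mul_mem (dom_mono s C (dom_ball_mono (le_max_left _ _)) hr)
      (dom_mono s C (dom_ball_mono (le_max_right _ _)) hr')⟩
  | inv x _ ihx =>
    obtain ⟨r, hr⟩ := ihx
    exact ⟨r, inv_mem hr⟩

theorem dom_union_finite (s : FreeGroup (Fin 2) →* K) (C : Set K) {E : Set K} (hE : E.Finite)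
    (h : ∀ x ∈ E, x ∈ LL s C Set.univ) : ∃ ρ, ∀ x ∈ E, x ∈ LL s C (Ball ρ) := by
  induction E, hE using Set.Finite.induction_on with
  | empty => exact ⟨0, fun x hx => absurd hx (Set.notMem_empty x)⟩
  | @insert a E _ _ ih =>
    obtain ⟨r, hr⟩ := ih fun x hx => h x (Set.mem_insert_of_mem _ hx)
    obtain ⟨r', hr'⟩ := dom_union s C (h a (Set.mem_insert _ _))
    refine ⟨max r r', fun x hx => ?_⟩
    rcases Set.mem_insert_iff.1 hx with rfl | hx
    · exact dom_mono s C (dom_ball_mono (le_max_right _ _)) hr'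
    · exact dom_mono s C (dom_ball_mono (le_max_left _ _)) (hr x hx)

theorem dom_ball_finite (r : ℕ) : (Ball r).Finite := by
  have h : Ball r = FreeGroup.mk '' {l : List (Fin 2 × Bool) | l.length ≤ r} := by
    ext v
    constructor
    · rintro ⟨l, hl, rfl⟩
      exact ⟨l, hl, rfl⟩
    · rintro ⟨l, hl, rfl⟩
      exact ⟨l, hl, rfl⟩
  rw [h]
  exact (List.finite_length_le _ _).image _

theorem dom_Wd_finite {U : Type*} [Group U] {e : ℕ} (y : Fin e → U) (n : ℕ) :
    (Wd y n).Finite := by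
  have h : Wd y n = (fun l : List (Fin e) => (l.map y).prod) '' {l | l.length ≤ n} := by
    ext v
    constructor
    · rintro ⟨l, hl, rfl⟩
      exact ⟨l, hl, rfl⟩
    · rintro ⟨l, hl, rfl⟩
      exact ⟨l, hl, rfl⟩
  rw [h]
  exact (List.finite_length_le _ _).image _

theorem dom_enum {U : Type*} [Group U] {W : Set U} (hW : W.Finite) :
    ∃ (k : ℕ) (u : ℕ → U), ∀ w ∈ W, ∃ j < k, u j = w := by
  refine ⟨hW.toFinset.toList.length, fun j => hW.toFinset.toList.getD j 1, fun w hw => ?_⟩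
  have h1 : w ∈ hW.toFinset.toList := by simpa using hw
  obtain ⟨j, hj, hjw⟩ := List.mem_iff_getElem.1 h1
  refine ⟨j, hj, ?_⟩
  change hW.toFinset.toList.getD j 1 = w
  rw [List.getD_eq_getElem _ _ hj, hjw]

theorem dom_ball_mul {a b : ℕ} {v w : FreeGroup (Fin 2)} (hv : v ∈ Ball a) (hw : w ∈ Ball b) :
    v * w ∈ Ball (a + b) := by
  obtain ⟨l, hl, rfl⟩ := hv
  obtain ⟨l', hl', rfl⟩ := hw
  refine ⟨l ++ l', ?_, FreeGroup.mul_mk.symm⟩
  rw [List.length_append]
  omega

theorem dom_ball_inv {a : ℕ} {v : FreeGroup (Fin 2)} (hv : v ∈ Ball a) : v⁻¹ ∈ Ball a := by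
  obtain ⟨l, hl, rfl⟩ := hv
  refine ⟨FreeGroup.invRev l, ?_, FreeGroup.inv_mk.symm⟩
  rwa [FreeGroup.invRev_length]

theorem dom_mk_replicate (i : ℕ) : FreeGroup.mk (List.replicate i ((0 : Fin 2), true)) =
    FreeGroup.of (0 : Fin 2) ^ i := by
  induction i with
  | zero => rfl
  | succ i ih =>
    rw [List.replicate_succ', ← FreeGroup.mul_mk, ih, pow_succ]
    rfl

theorem dom_ball_pow (i : ℕ) : FreeGroup.of (0 : Fin 2) ^ i ∈ Ball i :=
  ⟨List.replicate i ((0 : Fin 2), true), by rw [List.length_replicate], dom_mk_replicate i⟩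

/-- the words `w(bw)` act by left multiplication on the labels at the position `0` -/
theorem dom_zet_lift {U : Type*} [Group U] {e : ℕ} (h : ℕ) (y : Fin e → U)
    (w : FreeGroup (Fin e)) (u : U) :
    zet h y (FreeGroup.lift (bw h) w) (0, u) = (0, FreeGroup.lift y w * u) := by
  induction w using FreeGroup.induction_on generalizing u with
  | C1 => simp
  | of i => simpa using zet_bw h y i u
  | inv_of i ih =>
    have h1 := ih ((y i)⁻¹ * u)
    simp only [FreeGroup.lift_apply_of, mul_inv_cancel_left] at h1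
    rw [map_inv, map_inv, map_inv, FreeGroup.lift_apply_of, FreeGroup.lift_apply_of,
      Equiv.Perm.inv_eq_iff_eq, h1]
  | mul v w ihv ihw =>
    rw [map_mul, map_mul, Equiv.Perm.mul_apply, ihw, ihv, map_mul, mul_assoc]

end lemmas

section semi

variable {N : Type*} [Group N] (θ : N →* FreeGroup (Fin 2)) (lam : FreeGroup ℕ →* MulAut N)

/-- projection of the semidirect product to the free group of rank two -/
def domT (hlam : ∀ w n, θ (lam w n) = θ n) : (N ⋊[lam] FreeGroup ℕ) →* FreeGroup (Fin 2) where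
  toFun κ := θ κ.left
  map_one' := by simp
  map_mul' a b := by simp [hlam]

variable {θ lam}

@[simp] theorem domT_inl (hlam : ∀ w n, θ (lam w n) = θ n) (n : N) :
    domT θ lam hlam (SemidirectProduct.inl n) = θ n := rfl

@[simp] theorem domT_inr (hlam : ∀ w n, θ (lam w n) = θ n) (f : FreeGroup ℕ) :
    domT θ lam hlam (SemidirectProduct.inr f) = 1 := by
  change θ ((SemidirectProduct.inr f : N ⋊[lam] FreeGroup ℕ).left) = 1
  simp

/-- stabiliser of the position `0` and the label `1` -/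
def domStab (hlam : ∀ w n, θ (lam w n) = θ n) {U : Type*} [Group U] {e : ℕ} (h : ℕ)
    (y : Fin e → U) (ψ : FreeGroup ℕ →* U) : Subgroup (N ⋊[lam] FreeGroup ℕ) where
  carrier := {κ | zet h y (domT θ lam hlam κ) (0, 1) = (0, ψ κ.right)}
  one_mem' := by simp
  mul_mem' := by
    intro a b ha hb
    simp only [Set.mem_ofPred_eq] at ha hb ⊢
    rw [map_mul, map_mul, Equiv.Perm.mul_apply, hb, zet_snd, ha, SemidirectProduct.mul_right,
      map_mul]
  inv_mem' := by
    intro a ha
    simp only [Set.mem_ofPred_eq] at ha ⊢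
    rw [map_inv, map_inv, Equiv.Perm.inv_eq_iff_eq, SemidirectProduct.inv_right, map_inv, zet_snd,
      ha, mul_inv_cancel]

theorem mem_domStab (hlam : ∀ w n, θ (lam w n) = θ n) {U : Type*} [Group U] {e : ℕ} (h : ℕ)
    (y : Fin e → U) (ψ : FreeGroup ℕ →* U) (κ : N ⋊[lam] FreeGroup ℕ) :
    κ ∈ domStab hlam h y ψ ↔ zet h y (domT θ lam hlam κ) (0, 1) = (0, ψ κ.right) := Iff.rfl

/-- every element of `N` is an element of `L` times a lift of its image -/
theorem dom_lift (s' : FreeGroup (Fin 2) →* N) (X : Set N) (hX : Subgroup.closure X = ⊤)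
    {C : Set (N ⋊[lam] FreeGroup ℕ)}
    (hC : ∀ x ∈ X, SemidirectProduct.inl (x * (s' (θ x))⁻¹) ∈ C) (n : N) :
    SemidirectProduct.inl n * ((SemidirectProduct.inl.comp s') (θ n))⁻¹ ∈
      LL ((SemidirectProduct.inl : N →* N ⋊[lam] FreeGroup ℕ).comp s') C Set.univ := by
  have hn : n ∈ Subgroup.closure X := by rw [hX]; trivial
  set s : FreeGroup (Fin 2) →* N ⋊[lam] FreeGroup ℕ :=
    (SemidirectProduct.inl : N →* N ⋊[lam] FreeGroup ℕ).comp s' with hs
  induction hn using Subgroup.closure_induction with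
  | mem x hx =>
    refine Subgroup.subset_closure ⟨1, trivial, _, hC x hx, ?_⟩
    rw [map_one, one_mul, inv_one, mul_one, map_mul, map_inv]
    rfl
  | one => simp
  | mul x y _ _ ihx ihy =>
    have h1 := mul_mem ihx (dom_conj s C (θ x) ihy)
    convert h1 using 1
    rw [map_mul, map_mul, map_mul]
    group
  | inv x _ ihx =>
    have h1 := dom_conj s C (θ x)⁻¹ (inv_mem ihx)
    convert h1 using 1
    rw [map_inv, map_inv, map_inv]
    group

end semi

theorem dominate {N : Type*} [Group N] [Group.FG N] (θ : N →* FreeGroup (Fin 2))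
    (hθ : Function.Surjective θ) (lam : FreeGroup ℕ →* MulAut N) (hlam : ∀ w n, θ (lam w n) = θ n)
    (e : ℕ) (R : Finset (FreeGroup (Fin e))) (hR : ∀ i, FreeGroup.of i ^ 2 ∈ R) :
    ∃ (S : Set (N ⋊[lam] FreeGroup ℕ)) (b : Fin e → N ⋊[lam] FreeGroup ℕ), S.Finite ∧
      ∀ w : FreeGroup (Fin e), FreeGroup.lift b w ∈ Subgroup.closure S ↔
        w ∈ Subgroup.normalClosure (R : Set (FreeGroup (Fin e))) := by
  classical
  -- the splitting
  choose A hA using fun i : Fin 2 => hθ (FreeGroup.of i)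
  set s' : FreeGroup (Fin 2) →* N := FreeGroup.lift A with hs'
  have hθs : ∀ q, θ (s' q) = q := by
    intro q
    have h1 : θ.comp s' = MonoidHom.id _ := by
      ext i
      simp [hs', hA]
    exact DFunLike.congr_fun h1 q
  set s : FreeGroup (Fin 2) →* N ⋊[lam] FreeGroup ℕ :=
    (SemidirectProduct.inl : N →* N ⋊[lam] FreeGroup ℕ).comp s' with hs
  set Θ := domT θ lam hlam with hΘ
  have hΘs : ∀ q, Θ (s q) = q := fun q => by
    rw [hΘ, hs, MonoidHom.comp_apply, domT_inl, hθs]
  have hrs : ∀ q, (s q).right = 1 := fun q => by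
    rw [hs, MonoidHom.comp_apply, SemidirectProduct.right_inl]
  -- the finite sets
  obtain ⟨X, hX⟩ := (Group.fg_iff (G := N)).1 inferInstance
  obtain ⟨hX, hXfin⟩ := hX
  set C : Set (N ⋊[lam] FreeGroup ℕ) :=
    (fun x => SemidirectProduct.inl (x * (s' (θ x))⁻¹)) '' X with hC
  have hCfin : C.Finite := hXfin.image _
  have hCΘ : ∀ c ∈ C, Θ c = 1 := by
    rintro _ ⟨x, -, rfl⟩
    change Θ (SemidirectProduct.inl (x * (s' (θ x))⁻¹)) = 1
    rw [hΘ, domT_inl, map_mul, map_inv, hθs, mul_inv_cancel]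
  have hCr : ∀ c ∈ C, c.right = 1 := by
    rintro _ ⟨x, -, rfl⟩
    exact SemidirectProduct.right_inl _
  set L := LL s C Set.univ with hL
  have hlift : ∀ κ : N ⋊[lam] FreeGroup ℕ, κ.right = 1 → κ * (s (Θ κ))⁻¹ ∈ L := by
    intro κ hκ
    have h1 := dom_lift (θ := θ) (lam := lam) s' X hX (C := C) (fun x hx => ⟨x, hx, rfl⟩) κ.left
    have h2 : SemidirectProduct.inl κ.left = κ :=
      SemidirectProduct.ext (by simp) (by simp [hκ])
    rw [h2] at h1
    exact h1
  have hker : ∀ κ : N ⋊[lam] FreeGroup ℕ, κ.right = 1 → Θ κ = 1 → κ ∈ L := by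
    intro κ h1 h2
    have h3 := hlift κ h1
    rwa [h2, map_one, inv_one, mul_one] at h3
  -- the group `U`
  set U := FreeGroup (Fin e) ⧸ Subgroup.normalClosure (R : Set (FreeGroup (Fin e))) with hU
  set y : Fin e → U := fun i => QuotientGroup.mk' _ (FreeGroup.of i) with hy
  have hyl : ∀ w : FreeGroup (Fin e), FreeGroup.lift y w =
      QuotientGroup.mk' (Subgroup.normalClosure (R : Set (FreeGroup (Fin e)))) w := by
    intro w
    have h1 : FreeGroup.lift y =
        QuotientGroup.mk' (Subgroup.normalClosure (R : Set (FreeGroup (Fin e)))) := by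
      refine FreeGroup.ext_hom _ _ fun i => ?_
      rw [FreeGroup.lift_apply_of]
    rw [h1]
  have hylone : ∀ w : FreeGroup (Fin e), FreeGroup.lift y w = 1 ↔
      w ∈ Subgroup.normalClosure (R : Set (FreeGroup (Fin e))) := by
    intro w
    rw [hyl]
    exact QuotientGroup.eq_one_iff w
  have hyy : ∀ i, y i * y i = 1 := by
    intro i
    have h1 := (hylone (FreeGroup.of i ^ 2)).2 (Subgroup.subset_normalClosure (hR i))
    rwa [map_pow, FreeGroup.lift_apply_of, pow_two] at h1
  set n0 : ℕ := 4 * e + 6 with hn0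
  obtain ⟨k, u, hu⟩ := dom_enum (dom_Wd_finite y n0)
  set ψ : FreeGroup ℕ →* U := FreeGroup.lift u with hψ
  set f : ℕ → N ⋊[lam] FreeGroup ℕ := fun j => SemidirectProduct.inr (FreeGroup.of j) with hf
  have hΘf : ∀ j, Θ (f j) = 1 := fun j => domT_inr hlam _
  have hrf : ∀ j, (f j).right = FreeGroup.of j := fun j => SemidirectProduct.right_inr _
  -- the radius `ρ`
  obtain ⟨ρ, hρ⟩ := dom_union_finite s C
    (E := Set.image2 (fun j (z : Fin 2 × Bool) =>
      f j * s (FreeGroup.mk [z]) * (f j)⁻¹ * (s (FreeGroup.mk [z]))⁻¹) (Set.Iio k) Set.univ ∪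
      Set.image2 (fun j c => f j * c * (f j)⁻¹) (Set.Iio k) C)
    ((Set.Finite.image2 _ (Set.finite_Iio k) Set.finite_univ).union
      (Set.Finite.image2 _ (Set.finite_Iio k) hCfin)) (by
        rintro x (⟨j, -, z, -, rfl⟩ | ⟨j, -, c, hc, rfl⟩)
        · refine hker _ ?_ ?_
          · simp [hrs]
          · simp only [map_mul, map_inv, hΘs, hΘf]
            group
        · refine hker _ ?_ ?_
          · simp [hCr c hc]
          · simp [hΘf, hCΘ c hc])
  have hρ1 : ∀ j < k, ∀ z : Fin 2 × Bool,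
      f j * s (FreeGroup.mk [z]) * (f j)⁻¹ * (s (FreeGroup.mk [z]))⁻¹ ∈ LL s C (Ball ρ) :=
    fun j hj z => hρ _ (Or.inl ⟨j, hj, z, trivial, rfl⟩)
  have hρ2 : ∀ j < k, ∀ c ∈ C, f j * c * (f j)⁻¹ ∈ LL s C (Ball ρ) :=
    fun j hj c hc => hρ _ (Or.inr ⟨j, hj, c, hc, rfl⟩)
  -- the constants
  set h : ℕ := ρ + 2 * e + 4 with hh
  set D : ℕ := per e h with hD
  set m : ℕ := D + ρ + 1 with hm
  set R0 : ℕ := m + D + ρ with hR0
  have hDh : D = (e + 1) * (2 * h + 1) := rfl
  have hlen : D + m ≤ n0 * h := by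
    rw [hm, hDh, hn0]
    nlinarith
  -- the generators
  set S : Set (N ⋊[lam] FreeGroup ℕ) :=
    Set.image2 (fun v c => s v * c * (s v)⁻¹) (Ball R0) C ∪
    {x | ∃ q ∈ Ball (D + m), ∃ j < k, zet h y q (0, 1) = (0, u j) ∧ x = s q * f j} ∪
    (fun r => s (FreeGroup.lift (bw h) r)) '' (R : Set (FreeGroup (Fin e))) with hS
  have hSfin : S.Finite := by
    refine ((Set.Finite.image2 _ (dom_ball_finite R0) hCfin).union ?_).union
      (R.finite_toSet.image _)
    refine (Set.Finite.image2 (fun q j => s q * f j) (dom_ball_finite (D + m))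
      (Set.finite_Iio k)).subset ?_
    rintro x ⟨q, hq, j, hj, -, rfl⟩
    exact ⟨q, hq, j, hj, rfl⟩
  set H := Subgroup.closure S with hH
  have hLH : L ≤ H := by
    refine lasso_mem s C ρ D m R0 H (by omega) (by omega) ?_ ?_
    · refine (Subgroup.closure_le _).2 ?_
      rintro _ ⟨v, hv, c, hc, rfl⟩
      exact Subgroup.subset_closure (Or.inl (Or.inl ⟨v, hv, c, hc, rfl⟩))
    · intro l hl
      obtain ⟨i, hi, hi0⟩ := zet_shift h y (FreeGroup.mk l)⁻¹
      set q := FreeGroup.mk (List.replicate i ((0 : Fin 2), true)) * (FreeGroup.mk l)⁻¹ with hq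
      have hqmk : q = FreeGroup.mk (List.replicate i ((0 : Fin 2), true) ++ FreeGroup.invRev l) := by
        rw [hq, FreeGroup.inv_mk, FreeGroup.mul_mk]
      have hql : (List.replicate i ((0 : Fin 2), true) ++ FreeGroup.invRev l).length ≤ D + m := by
        rw [List.length_append, List.length_replicate, FreeGroup.invRev_length, hl]
        omega
      have hq0 : (zet h y q (0, 1)).1 = 0 := by
        rw [hq, dom_mk_replicate]
        exact hi0
      have hq1 : (zet h y q (0, 1)).2 ∈ Wd y n0 := by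
        rw [hqmk]
        exact zet_label h (by omega) y hyy n0 _ (hql.trans hlen) 0
      obtain ⟨j, hj, huj⟩ := hu _ hq1
      refine ⟨List.replicate i ((0 : Fin 2), true), f j, ?_, ?_, hρ1 j hj, hρ2 j hj⟩
      · rw [List.length_replicate]
        omega
      · refine Subgroup.subset_closure (Or.inl (Or.inr ⟨q, ⟨_, hql, hqmk.symm⟩, j, hj, ?_, rfl⟩))
        exact Prod.ext hq0 huj.symm
  -- lifts
  set b : Fin e → N ⋊[lam] FreeGroup ℕ := fun i => s (bw h i) with hb
  have hbl : ∀ w : FreeGroup (Fin e), FreeGroup.lift b w = s (FreeGroup.lift (bw h) w) := by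
    intro w
    have h1 : FreeGroup.lift b = s.comp (FreeGroup.lift (bw h)) := by
      ext i <;> simp [hb]
    rw [h1]
    rfl
  have hΘH : ∀ κ ∈ H, κ.right = 1 → s (Θ κ) ∈ H := by
    intro κ hκ hr
    have h1 := hLH (hlift κ hr)
    have h2 := mul_mem (inv_mem h1) hκ
    convert h2 using 1
    group
  refine ⟨S, b, hSfin, fun w => ⟨fun hw => ?_, fun hw => ?_⟩⟩
  · have hle : H ≤ domStab hlam h y ψ := by
      refine (Subgroup.closure_le _).2 ?_
      rintro x ((⟨v, -, c, hc, rfl⟩ | ⟨q, -, j, hj, hq, rfl⟩) | ⟨r, hr, rfl⟩)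
      · change s v * c * (s v)⁻¹ ∈ domStab hlam h y ψ
        have h1 : Θ (s v * c * (s v)⁻¹) = 1 := by
          simp only [map_mul, map_inv, hΘs, hCΘ c hc]
          group
        have h2 : (s v * c * (s v)⁻¹).right = 1 := by simp [hrs, hCr c hc]
        rw [mem_domStab, ← hΘ, h1, h2]
        simp
      · rw [SetLike.mem_coe, mem_domStab, ← hΘ, map_mul, hΘs, hΘf, mul_one, hq,
          SemidirectProduct.mul_right, hrs, hrf, one_mul, hψ, FreeGroup.lift_apply_of]
      · change s (FreeGroup.lift (bw h) r) ∈ domStab hlam h y ψ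
        rw [mem_domStab, ← hΘ, hΘs, hrs, map_one, dom_zet_lift,
          (hylone r).2 (Subgroup.subset_normalClosure hr), one_mul]
    have h1 := hle hw
    rw [hbl, mem_domStab, ← hΘ, hΘs, hrs, map_one, dom_zet_lift, mul_one] at h1
    exact (hylone w).1 (Prod.ext_iff.1 h1).2
  · have hJ : (H.comap (FreeGroup.lift b)).Normal := by
      constructor
      intro w hw g
      rw [Subgroup.mem_comap] at hw ⊢
      have hg : FreeGroup.lift (bw h) g ∈ H.map Θ := by
        induction g using FreeGroup.induction_on with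
        | C1 => rw [map_one]; exact one_mem _
        | of i =>
          rw [FreeGroup.lift_apply_of]
          have h1 : y i ∈ Wd y n0 := ⟨[i], by simp [hn0], by simp⟩
          obtain ⟨j, hj, huj⟩ := hu _ h1
          refine ⟨s (bw h i) * f j, Subgroup.subset_closure (Or.inl (Or.inr
            ⟨bw h i, ?_, j, hj, ?_, rfl⟩)), ?_⟩
          · have h2 : bw h i ∈ Ball ((i : ℕ) * (2 * h + 1) + 1 + (i : ℕ) * (2 * h + 1)) :=
              dom_ball_mul (dom_ball_mul (dom_ball_inv (dom_ball_pow _)) ⟨[(1, true)], le_rfl, rfl⟩)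
                (dom_ball_pow _)
            refine dom_ball_mono ?_ h2
            have h3 : (i : ℕ) * (2 * h + 1) ≤ D := by
              rw [hDh]
              exact Nat.mul_le_mul_right _ (by omega)
            omega
          · rw [zet_bw, mul_one, huj]
          · rw [map_mul, hΘs, hΘf, mul_one]
        | inv_of i ih => rw [map_inv]; exact inv_mem ih
        | mul v w ihv ihw => rw [map_mul]; exact mul_mem ihv ihw
      obtain ⟨κ, hκ, hκg⟩ := hg
      have h2 : κ * FreeGroup.lift b w * κ⁻¹ ∈ H := mul_mem (mul_mem hκ hw) (inv_mem hκ)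
      have h3 := hΘH _ h2 (by rw [hbl]; simp [hrs])
      have h4 : Θ (κ * FreeGroup.lift b w * κ⁻¹) = FreeGroup.lift (bw h) (g * w * g⁻¹) := by
        rw [hbl]
        simp only [map_mul, map_inv, hΘs, hκg]
      rw [h4] at h3
      rw [hbl]
      exact h3
    have h1 : Subgroup.normalClosure (R : Set (FreeGroup (Fin e))) ≤ H.comap (FreeGroup.lift b) := by
      refine Subgroup.normalClosure_le_normal ?_
      intro r hr
      rw [SetLike.mem_coe, Subgroup.mem_comap, hbl]
      exact Subgroup.subset_closure (Or.inr ⟨r, hr, rfl⟩)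
    exact h1 hw

end Pool.Agent.Occ
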