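import Pool.Agent.Lib.Occ.Defs

/-!
From any presentation to a presentation with generators of order two and harder word problem.
-/

set_option autoImplicit false

namespace Pool.Agent.Occ

/-- left multiplications are products of two involutions -/
theorem exists_involutions {U : Type*} [Group U] (u : U) : ∃ s s' : Equiv.Perm U,
    s * s = 1 ∧ s' * s' = 1 ∧ ∀ g, (s * s') g = u * g := by
  classical
  set Z := Subgroup.zpowers u with hZ
  set x : U → U := fun g => Quotient.out (Quotient.mk (QuotientGroup.rightRel Z) g) with hx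
  have hx1 : ∀ g h : U, h * g⁻¹ ∈ Z → x g = x h := by
    intro g h hgh
    simp only [hx]
    congr 1
    exact Quotient.sound (QuotientGroup.rightRel_apply.2 hgh)
  have hx2 : ∀ g : U, g * (x g)⁻¹ ∈ Z := by
    intro g
    have h1 : QuotientGroup.rightRel Z (x g) g :=
      Quotient.exact (Quotient.out_eq (Quotient.mk (QuotientGroup.rightRel Z) g))
    exact QuotientGroup.rightRel_apply.1 h1
  have hu : u ∈ Z := Subgroup.mem_zpowers u
  have hcomm : ∀ z ∈ Z, u * z = z * u := by
    intro z hz
    obtain ⟨k, rfl⟩ := Subgroup.mem_zpowers_iff.1 hz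
    exact ((Commute.refl u).zpow_right k).eq
  -- the two maps
  set f' : U → U := fun g => (g * (x g)⁻¹)⁻¹ * x g with hf'
  set f : U → U := fun g => u * (g * (x g)⁻¹)⁻¹ * x g with hf
  have hxf' : ∀ g, x (f' g) = x g := by
    intro g
    apply hx1
    have h1 : g * (f' g)⁻¹ = (g * (x g)⁻¹) * (g * (x g)⁻¹) := by
      simp only [hf']
      group
    rw [h1]
    exact Z.mul_mem (hx2 g) (hx2 g)
  have hxf : ∀ g, x (f g) = x g := by
    intro g
    apply hx1
    have h1 : g * (f g)⁻¹ = (g * (x g)⁻¹) * (g * (x g)⁻¹) * u⁻¹ := by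
      simp only [hf]
      group
    rw [h1]
    exact Z.mul_mem (Z.mul_mem (hx2 g) (hx2 g)) (Z.inv_mem hu)
  have hi' : Function.Involutive f' := by
    intro g
    have h1 : f' (f' g) = (f' g * (x g)⁻¹)⁻¹ * x g := by
      show (f' g * (x (f' g))⁻¹)⁻¹ * x (f' g) = _
      rw [hxf']
    rw [h1]
    simp only [hf']
    group
  have hi : Function.Involutive f := by
    intro g
    have h1 : f (f g) = u * (f g * (x g)⁻¹)⁻¹ * x g := by
      show u * (f g * (x (f g))⁻¹)⁻¹ * x (f g) = _
      rw [hxf]
    rw [h1]
    simp only [hf]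
    have h2 : u * (u * (g * (x g)⁻¹)⁻¹ * x g * (x g)⁻¹)⁻¹ * x g =
        u * (g * (x g)⁻¹) * u⁻¹ * x g := by group
    rw [h2, hcomm _ (hx2 g)]
    group
  refine ⟨hi.toPerm f, hi'.toPerm f', ?_, ?_, ?_⟩
  · ext g
    exact hi g
  · ext g
    exact hi' g
  · intro g
    show f (f' g) = u * g
    have h1 : f (f' g) = u * (f' g * (x g)⁻¹)⁻¹ * x g := by
      show u * (f' g * (x (f' g))⁻¹)⁻¹ * x (f' g) = _
      rw [hxf']
    rw [h1]
    simp only [hf']
    group

/-- the substitution -/
def dbl (e : ℕ) : FreeGroup (Fin e) →* FreeGroup (Fin (e + e)) :=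
  FreeGroup.lift fun i => FreeGroup.of (Fin.castAdd e i) * FreeGroup.of (Fin.natAdd e i)

/-- the substitution on letters -/
def dblL (e : ℕ) (p : Fin e × Bool) : List (Fin (e + e) × Bool) :=
  if p.2 then [(Fin.castAdd e p.1, true), (Fin.natAdd e p.1, true)]
  else [(Fin.natAdd e p.1, false), (Fin.castAdd e p.1, false)]

theorem dbl_mk (e : ℕ) (w : List (Fin e × Bool)) :
    dbl e (FreeGroup.mk w) = FreeGroup.mk (w.flatMap (dblL e)) := by
  induction w with
  | nil => rw [List.flatMap_nil, ← FreeGroup.one_eq_mk, ← FreeGroup.one_eq_mk, map_one]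
  | cons p w ih =>
    have h1 : FreeGroup.mk (p :: w) = FreeGroup.mk [p] * FreeGroup.mk w := by
      rw [FreeGroup.mul_mk]; rfl
    rw [h1, map_mul, ih, List.flatMap_cons, ← FreeGroup.mul_mk]
    congr 1
    obtain ⟨i, b⟩ := p
    cases b
    · have h2 : (FreeGroup.mk [(i, false)] : FreeGroup (Fin e)) = (FreeGroup.of i)⁻¹ := rfl
      rw [h2, map_inv, dbl, FreeGroup.lift_apply_of, mul_inv_rev]
      rfl
    · have h2 : (FreeGroup.mk [(i, true)] : FreeGroup (Fin e)) = FreeGroup.of i := rfl
      rw [h2, dbl, FreeGroup.lift_apply_of]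
      rfl

theorem invol (e : ℕ) (R : Finset (FreeGroup (Fin e))) (hR : ¬ ComputablePred (WP e R)) :
    ∃ (e' : ℕ) (R' : Finset (FreeGroup (Fin e'))), (∀ i, FreeGroup.of i ^ 2 ∈ R') ∧
      ¬ ComputablePred (WP e' R') := by
  classical
  set R' : Finset (FreeGroup (Fin (e + e))) :=
    (Finset.univ.image fun i : Fin (e + e) => FreeGroup.of i ^ 2) ∪ R.image (dbl e) with hR'
  refine ⟨e + e, R', ?_, ?_⟩
  · intro i
    rw [hR', Finset.mem_union]
    exact Or.inl (Finset.mem_image_of_mem _ (Finset.mem_univ i))
  intro hcomp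
  apply hR
  -- the claim
  have key : ∀ w : FreeGroup (Fin e), w ∈ Subgroup.normalClosure (R : Set (FreeGroup (Fin e))) ↔
      dbl e w ∈ Subgroup.normalClosure (R' : Set (FreeGroup (Fin (e + e)))) := by
    intro w
    constructor
    · intro hw
      have h1 : Subgroup.normalClosure (R : Set (FreeGroup (Fin e))) ≤
          (Subgroup.normalClosure (R' : Set (FreeGroup (Fin (e + e))))).comap (dbl e) := by
        apply Subgroup.normalClosure_le_normal
        intro r hr
        apply Subgroup.subset_normalClosure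
        rw [Finset.mem_coe, hR', Finset.mem_union]
        exact Or.inr (Finset.mem_image_of_mem _ hr)
      exact h1 hw
    · intro hw
      set N := Subgroup.normalClosure (R : Set (FreeGroup (Fin e))) with hN
      choose s s' hs hs' hss using fun i : Fin e =>
        exists_involutions (QuotientGroup.mk (FreeGroup.of i) : FreeGroup (Fin e) ⧸ N)
      set Φ : FreeGroup (Fin (e + e)) →* Equiv.Perm (FreeGroup (Fin e) ⧸ N) :=
        FreeGroup.lift (Fin.append s s') with hΦ
      have hcomp1 : Φ.comp (dbl e) = (MulAction.toPermHom (FreeGroup (Fin e) ⧸ N)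
          (FreeGroup (Fin e) ⧸ N)).comp (QuotientGroup.mk' N) := by
        apply FreeGroup.ext_hom
        intro i
        rw [MonoidHom.comp_apply, MonoidHom.comp_apply, dbl, FreeGroup.lift_apply_of, map_mul, hΦ,
          FreeGroup.lift_apply_of, FreeGroup.lift_apply_of, Fin.append_left, Fin.append_right]
        ext g
        rw [hss]
        rfl
      have hker : Subgroup.normalClosure (R' : Set (FreeGroup (Fin (e + e)))) ≤ Φ.ker := by
        apply Subgroup.normalClosure_le_normal
        intro r hr
        rw [Finset.mem_coe, hR', Finset.mem_union, Finset.mem_image, Finset.mem_image] at hr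
        rw [SetLike.mem_coe, MonoidHom.mem_ker]
        rcases hr with ⟨i, _, rfl⟩ | ⟨r, hr, rfl⟩
        · rw [map_pow, hΦ, FreeGroup.lift_apply_of, pow_two]
          refine Fin.addCases (fun i => ?_) (fun i => ?_) i
          · rw [Fin.append_left, hs]
          · rw [Fin.append_right, hs']
        · have h1 := DFunLike.congr_fun hcomp1 r
          rw [MonoidHom.comp_apply, MonoidHom.comp_apply] at h1
          rw [h1]
          have h2 : QuotientGroup.mk' N r = 1 :=
            (QuotientGroup.eq_one_iff r).2 (Subgroup.subset_normalClosure hr)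
          rw [h2, map_one]
      have h1 : Φ (dbl e w) = 1 := hker hw
      have h2 := DFunLike.congr_fun hcomp1 w
      rw [MonoidHom.comp_apply, MonoidHom.comp_apply, h1] at h2
      have h3 := DFunLike.congr_fun h2 (1 : FreeGroup (Fin e) ⧸ N)
      have h4 : (1 : FreeGroup (Fin e) ⧸ N) = QuotientGroup.mk' N w * 1 := h3
      rw [mul_one] at h4
      exact (QuotientGroup.eq_one_iff w).1 h4.symm
  refine ComputablePred.computable_of_manyOneReducible (p := WP e R) (q := WP (e + e) R') ?_ hcomp
  refine ⟨fun w => w.flatMap (dblL e), ?_, ?_⟩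
  · have h1 : Primrec (fun w : List (Fin e × Bool) => w.flatMap (dblL e)) :=
      Primrec.list_flatMap Primrec.id (((Primrec.dom_finite (dblL e)).comp Primrec.snd).to₂)
    exact h1.to_comp
  · intro w
    unfold WP
    rw [key, dbl_mk]

end Pool.Agent.Occ
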