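import Mathlib

/-!
The elements `t^j s^k t^(-j)` (`j ∈ ℕ`, `k ≥ 1`) of a free group freely generate a free subgroup.

Proof by an action: `V = FreeGroup ℕ`, `Y = ℤ × ZMod k × V`. Let `t` act by `(i, c, v) ↦ (i + 1, c, v)` if
`c = 0`, and trivially if `c ≠ 0`; let `s` act by `(i, c, v) ↦ (i, c + 1, v)` if `c + 1 ≠ 0`,
`(i, -1, v) ↦ (i, 0, x_i v)` where `x_i = of i'` if `-i = i' ≥ 0` is a natural number and `x_i = 1`
otherwise. The other generators of `FreeGroup (Fin n)` act trivially.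
`s^k (i, 0, v) = (i, 0, x_i v)`, so `t^j s^k t^(-j) (0, 0, v) = (0, 0, of j * v)`. So a word `w` in these
elements maps `(0, 0, 1)` to `(0, 0, w)`: injectivity.
-/

set_option autoImplicit false

namespace Pool.Agent.Occ

namespace PowFree

/-- the letter attached to the level `i` -/
def xl (i : ℤ) : FreeGroup ℕ := if i ≤ 0 then FreeGroup.of (-i).toNat else 1

/-- the letter attached to the transition from `c` to `c + 1` at the level `i` -/
def xc {k : ℕ} (i : ℤ) (c : ZMod k) : FreeGroup ℕ := if c + 1 = 0 then xl i else 1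

/-- the action of `t` -/
def tp (k : ℕ) : Equiv.Perm (ℤ × ZMod k × FreeGroup ℕ) where
  toFun p := (if p.2.1 = 0 then p.1 + 1 else p.1, p.2.1, p.2.2)
  invFun p := (if p.2.1 = 0 then p.1 - 1 else p.1, p.2.1, p.2.2)
  left_inv p := by
    obtain ⟨i, c, v⟩ := p
    by_cases hc : c = 0 <;> simp [hc]
  right_inv p := by
    obtain ⟨i, c, v⟩ := p
    by_cases hc : c = 0 <;> simp [hc]

/-- the action of `s` -/
def sp (k : ℕ) : Equiv.Perm (ℤ × ZMod k × FreeGroup ℕ) where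
  toFun p := (p.1, p.2.1 + 1, xc p.1 p.2.1 * p.2.2)
  invFun p := (p.1, p.2.1 - 1, (xc p.1 (p.2.1 - 1))⁻¹ * p.2.2)
  left_inv p := by
    obtain ⟨i, c, v⟩ := p
    simp
  right_inv p := by
    obtain ⟨i, c, v⟩ := p
    simp

lemma tp_zero (k : ℕ) (i : ℤ) (v : FreeGroup ℕ) : tp k (i, 0, v) = (i + 1, 0, v) := by
  simp [tp]

lemma tp_pow (k j : ℕ) (i : ℤ) (v : FreeGroup ℕ) : (tp k ^ j) (i, 0, v) = (i + j, 0, v) := by
  induction j generalizing i with
  | zero => simp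
  | succ j ih =>
    rw [pow_succ, Equiv.Perm.mul_apply, tp_zero, ih]
    push_cast
    congr 1
    ring

lemma sp_pow_lt {k : ℕ} (j : ℕ) (hj : j < k) (i : ℤ) (v : FreeGroup ℕ) :
    (sp k ^ j) (i, 0, v) = (i, (j : ZMod k), v) := by
  induction j with
  | zero => simp
  | succ j ih =>
    rw [pow_succ', Equiv.Perm.mul_apply, ih (by omega)]
    have h1 : ((j : ZMod k) + 1) ≠ 0 := by
      have h2 : ((j + 1 : ℕ) : ZMod k) ≠ 0 := by
        rw [Ne, ZMod.natCast_eq_zero_iff]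
        intro h3
        have := Nat.le_of_dvd (Nat.succ_pos j) h3
        omega
      simpa using h2
    simp [sp, xc, h1]

lemma sp_pow {k : ℕ} (hk : 1 ≤ k) (i : ℤ) (v : FreeGroup ℕ) :
    (sp k ^ k) (i, 0, v) = (i, 0, xl i * v) := by
  obtain ⟨j, rfl⟩ : ∃ j, k = j + 1 := ⟨k - 1, by omega⟩
  have h1 : (sp (j + 1) ^ (j + 1)) (i, 0, v) = sp (j + 1) ((sp (j + 1) ^ j) (i, 0, v)) := by
    rw [pow_succ', Equiv.Perm.mul_apply]
  rw [h1, sp_pow_lt j (Nat.lt_succ_self j)]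
  have h2 : ((j : ZMod (j + 1)) + 1) = 0 := by
    simp
  simp [sp, xc, h2]

lemma conj_apply {k : ℕ} (hk : 1 ≤ k) (j : ℕ) (v : FreeGroup ℕ) :
    (tp k ^ j * sp k ^ k * (tp k ^ j)⁻¹) (0, 0, v) = (0, 0, FreeGroup.of j * v) := by
  have h1 : (tp k ^ j)⁻¹ ((0 : ℤ), (0 : ZMod k), v) = (-(j : ℤ), 0, v) := by
    rw [Equiv.Perm.inv_eq_iff_eq, tp_pow]
    simp
  rw [Equiv.Perm.mul_apply, Equiv.Perm.mul_apply, h1, sp_pow hk, tp_pow]
  simp [xl]

end PowFree

open PowFree in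
theorem pow_free (n : ℕ) (hn : 2 ≤ n) (k : ℕ) (hk : 1 ≤ k) :
    Function.Injective (FreeGroup.lift (fun j : ℕ =>
      (FreeGroup.of (⟨1, by omega⟩ : Fin n)) ^ j * (FreeGroup.of (⟨0, by omega⟩ : Fin n)) ^ k *
        ((FreeGroup.of (⟨1, by omega⟩ : Fin n)) ^ j)⁻¹) : FreeGroup ℕ →* FreeGroup (Fin n)) := by
  set τ : FreeGroup ℕ →* FreeGroup (Fin n) := FreeGroup.lift (fun j : ℕ =>
      (FreeGroup.of (⟨1, by omega⟩ : Fin n)) ^ j * (FreeGroup.of (⟨0, by omega⟩ : Fin n)) ^ k *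
        ((FreeGroup.of (⟨1, by omega⟩ : Fin n)) ^ j)⁻¹) with hτ
  set A : FreeGroup (Fin n) →* Equiv.Perm (ℤ × ZMod k × FreeGroup ℕ) :=
    FreeGroup.lift (fun g => if (g : ℕ) = 1 then tp k else if (g : ℕ) = 0 then sp k else 1) with hA
  have hA1 : A (FreeGroup.of (⟨1, by omega⟩ : Fin n)) = tp k := by simp [hA]
  have hA0 : A (FreeGroup.of (⟨0, by omega⟩ : Fin n)) = sp k := by simp [hA]
  have key : ∀ (w v : FreeGroup ℕ), A (τ w) (0, 0, v) = (0, 0, w * v) := by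
    intro w
    induction w using FreeGroup.induction_on with
    | C1 =>
      intro v
      simp
    | of j =>
      intro v
      have h1 : A (τ (FreeGroup.of j)) = tp k ^ j * sp k ^ k * (tp k ^ j)⁻¹ := by
        rw [hτ, FreeGroup.lift_apply_of, map_mul, map_mul, map_inv, map_pow, map_pow, hA1, hA0]
      have h2 := conj_apply hk j v
      rw [← h1] at h2
      exact h2
    | inv_of j ih =>
      intro v
      rw [map_inv, map_inv, Equiv.Perm.inv_eq_iff_eq]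
      have h1 := ih ((FreeGroup.of j)⁻¹ * v)
      rw [mul_inv_cancel_left] at h1
      exact h1.symm
    | mul x y hx hy =>
      intro v
      rw [map_mul, map_mul, Equiv.Perm.mul_apply, hy, hx, mul_assoc]
  rw [injective_iff_map_eq_one]
  intro w hw
  have h1 := key w 1
  rw [hw, map_one, Equiv.Perm.one_apply, mul_one] at h1
  exact (Prod.ext_iff.1 (Prod.ext_iff.1 h1).2).2.symm

end Pool.Agent.Occ
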