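import Mathlib

/-!
Tower of HNN extensions (Britton's lemma).

Step 1 (one stable letter). `G` a group, `A B : Subgroup G`, `f : A ≃* B`, `T : Subgroup G` with `∀ a : A, (a : G) ∈ T ↔ (f a : G) ∈ T`. In `HNNExtension G A B f` let
`S = closure (of '' T ∪ {t})`. Then `of g ∈ S → g ∈ T`. Proof: by `Subgroup.closure_induction_left` every element of `S` is `w.prod f` for some `HNNExtension.NormalWord.ReducedWord` (see Mathlib
`Mathlib/GroupTheory/HNNExtension.lean`) whose head and all second components lie in `T`: multiplication by `of τ` changes the head; for multiplication by `t^ε` (`ε : ℤˣ`): if the word is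
`(h, (-ε, g) :: l)` and `h` lies in the relevant subgroup (`toSubgroup A B`), then `t^ε of h t^(-ε) = of h'` with `h' ∈ T` by the hypothesis, so the new word is `(h' g, l)`; otherwise the new word is
`(1, (ε, h) :: w.toList)`, which is reduced. If `of g = w.prod f` then `w.toList = []` by `ReducedWord.toList_eq_nil_of_mem_of_range`, and `of` is injective (`HNNExtension.of_injective`), so `g = w.head ∈ T`.
Conversely `g ∈ T → of g ∈ S` is clear.

Step 2. Induction on `n`: from `(K, ι, r)` for `n` and a further pair `Ψ, Φ`: `A = map (ι ∘ Ψ) ⊤`, `B = map (ι ∘ Φ) ⊤`, `f (ι (Ψ g)) = ι (Φ g)` (both maps injective), and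
`T' = closure (ι '' T ∪ range r)`: `ι (Ψ g) ∈ T' ↔ Ψ g ∈ T ↔ Φ g ∈ T ↔ ι (Φ g) ∈ T'`. New group `HNNExtension K A B f`, new `ι' = of ∘ ι`, new letters `of (r i)` and `t`; `t * of a = of (f a) * t` (`HNNExtension.t_mul_of`).
`closure (ι' '' T ∪ range r') ≤ closure (of '' T' ∪ {t})`, and Step 1.
-/

set_option autoImplicit false

namespace Pool.Agent.Occ

namespace TowerAux

open HNNExtension HNNExtension.NormalWord

variable {G : Type} [Group G] {A B : Subgroup G} (φ : A ≃* B) (T : Subgroup G)

/-- elements represented by reduced words with letters in `T` -/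
def Rep (x : HNNExtension G A B φ) : Prop :=
  ∃ w : ReducedWord G A B, w.head ∈ T ∧ (∀ p ∈ w.toList, p.2 ∈ T) ∧ w.prod φ = x

lemma rep_one : Rep φ T 1 :=
  ⟨ReducedWord.empty G A B, T.one_mem, by simp [ReducedWord.empty], by
    simp [ReducedWord.prod, ReducedWord.empty]⟩

lemma rep_of {τ : G} (hτ : τ ∈ T) {x : HNNExtension G A B φ} (hx : Rep φ T x) :
    Rep φ T (of τ * x) := by
  obtain ⟨w, h1, h2, rfl⟩ := hx
  refine ⟨⟨τ * w.head, w.toList, w.chain⟩, T.mul_mem hτ h1, h2, ?_⟩
  simp [ReducedWord.prod, mul_assoc]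

lemma conj_eq (u : ℤˣ) (h : toSubgroup A B u) :
    (t : HNNExtension G A B φ) ^ (u : ℤ) * of (h : G) =
      of (toSubgroupEquiv φ u h : G) * t ^ (u : ℤ) := by
  rcases Int.units_eq_one_or u with rfl | rfl
  · rw [Units.val_one, zpow_one]
    exact t_mul_of (φ := φ) (show A from h)
  · rw [Units.val_neg, Units.val_one, zpow_neg, zpow_one]
    exact inv_t_mul_of (φ := φ) (show B from h)

lemma equiv_mem (hT : ∀ a : A, (a : G) ∈ T ↔ (φ a : G) ∈ T) (u : ℤˣ) (h : toSubgroup A B u)
    (hh : (h : G) ∈ T) : (toSubgroupEquiv φ u h : G) ∈ T := by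
  rcases Int.units_eq_one_or u with rfl | rfl
  · exact (hT h).1 hh
  · have h0 : ∀ b : B, (b : G) ∈ T → (φ.symm b : G) ∈ T := by
      intro b hb
      refine (hT (φ.symm b)).2 ?_
      rw [MulEquiv.apply_symm_apply]
      exact hb
    exact h0 h hh

lemma rep_t (hT : ∀ a : A, (a : G) ∈ T ↔ (φ a : G) ∈ T) (u : ℤˣ) {x : HNNExtension G A B φ}
    (hx : Rep φ T x) : Rep φ T (t ^ (u : ℤ) * x) := by
  obtain ⟨⟨h, l, hc⟩, h1, h2, rfl⟩ := hx
  by_cases hcan : h ∈ toSubgroup A B u ∧ ∃ g l', l = (-u, g) :: l'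
  · obtain ⟨hu, g, l', rfl⟩ := hcan
    refine ⟨⟨(toSubgroupEquiv φ u ⟨h, hu⟩ : G) * g, l', (List.isChain_cons.1 hc).2⟩,
      T.mul_mem (equiv_mem φ T hT u ⟨h, hu⟩ h1) (h2 (-u, g) (by simp)),
      fun p hp => h2 p (List.mem_cons_of_mem _ hp), ?_⟩
    have h3 := conj_eq φ u ⟨h, hu⟩
    simp only at h3
    simp only [ReducedWord.prod, List.map_cons, List.prod_cons, map_mul, Units.val_neg, zpow_neg]
    calc of (toSubgroupEquiv φ u ⟨h, hu⟩ : G) * of g *
          (l'.map (fun x => (t : HNNExtension G A B φ) ^ (x.1 : ℤ) * of x.2)).prod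
        = (of (toSubgroupEquiv φ u ⟨h, hu⟩ : G) * t ^ (u : ℤ)) * (t ^ (u : ℤ))⁻¹ * of g *
          (l'.map (fun x => (t : HNNExtension G A B φ) ^ (x.1 : ℤ) * of x.2)).prod := by
          rw [mul_inv_cancel_right]
      _ = _ := by
          rw [← h3]
          simp only [mul_assoc]
  · refine ⟨⟨1, (u, h) :: l, List.isChain_cons.2 ⟨?_, hc⟩⟩, T.one_mem, ?_, ?_⟩
    · rintro ⟨u', g'⟩ hu' hh
      by_contra hne
      apply hcan
      refine ⟨hh, g', l.tail, ?_⟩
      have h3 : u' = -u := by
        have h4 : u ≠ u' := hne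
        rcases Int.units_eq_one_or u with rfl | rfl <;> rcases Int.units_eq_one_or u' with rfl | rfl
        · exact absurd rfl h4
        · rfl
        · simp
        · exact absurd rfl h4
      rw [← h3]
      exact (List.cons_head?_tail hu').symm
    · intro p hp
      rcases List.mem_cons.1 hp with rfl | hp
      · exact h1
      · exact h2 p hp
    · simp [ReducedWord.prod, mul_assoc]

/-- one stable letter -/
lemma step (hT : ∀ a : A, (a : G) ∈ T ↔ (φ a : G) ∈ T) (g : G)
    (hg : (of g : HNNExtension G A B φ) ∈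
      Subgroup.closure ((of : G →* HNNExtension G A B φ) '' (T : Set G) ∪ {t})) : g ∈ T := by
  have h1 : ∀ x ∈ Subgroup.closure ((of : G →* HNNExtension G A B φ) '' (T : Set G) ∪ {t}),
      Rep φ T x := by
    intro x hx
    induction hx using Subgroup.closure_induction_left with
    | one => exact rep_one φ T
    | mul_left x hx y hy ih =>
      rcases hx with ⟨τ, hτ, rfl⟩ | hx
      · exact rep_of φ T hτ ih
      · have hx' : x = t := hx
        have := rep_t φ T hT 1 ih
        rw [hx']
        simpa using this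
    | inv_mul_cancel x hx y hy ih =>
      rcases hx with ⟨τ, hτ, rfl⟩ | hx
      · rw [← map_inv]
        exact rep_of φ T (T.inv_mem hτ) ih
      · have hx' : x = t := hx
        have := rep_t φ T hT (-1) ih
        rw [hx']
        simpa using this
  obtain ⟨w, h2, h3, h4⟩ := h1 _ hg
  have h5 := ReducedWord.toList_eq_nil_of_mem_of_range φ w ⟨g, h4.symm⟩
  have h6 : (of w.head : HNNExtension G A B φ) = of g := by
    rw [← h4]
    simp [ReducedWord.prod, h5]
  rw [← of_injective φ h6]
  exact h2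

end TowerAux

open HNNExtension

theorem tower {G : Type} [Group G] (T : Subgroup G) (n : ℕ) (Ψ Φ : Fin n → G →* G)
    (hΨ : ∀ i, Function.Injective (Ψ i)) (hΦ : ∀ i, Function.Injective (Φ i))
    (hT : ∀ i g, Ψ i g ∈ T ↔ Φ i g ∈ T) :
    ∃ (K : Type) (_ : Group K) (ι : G →* K) (r : Fin n → K), Function.Injective ι ∧
      (∀ i g, r i * ι (Ψ i g) * (r i)⁻¹ = ι (Φ i g)) ∧
      ∀ g, ι g ∈ Subgroup.closure (ι '' (T : Set G) ∪ Set.range r) → g ∈ T := by
  induction n with
  | zero =>
    refine ⟨G, inferInstance, MonoidHom.id G, Fin.elim0, fun _ _ h => h,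
      fun i => i.elim0, fun g hg => ?_⟩
    have h1 : (MonoidHom.id G '' (T : Set G) ∪ Set.range (Fin.elim0 : Fin 0 → G)) = (T : Set G) := by
      ext x
      constructor
      · rintro (⟨y, hy, rfl⟩ | ⟨i, _⟩)
        · exact hy
        · exact i.elim0
      · intro hx
        exact Or.inl ⟨x, hx, rfl⟩
    rw [h1, Subgroup.closure_eq] at hg
    exact hg
  | succ n ih =>
    obtain ⟨K, _, ι, r, hι, hr, hcl⟩ := ih (fun i => Ψ i.castSucc) (fun i => Φ i.castSucc)
      (fun i => hΨ _) (fun i => hΦ _) (fun i => hT _)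
    have hA : Function.Injective (ι.comp (Ψ (Fin.last n))) := hι.comp (hΨ _)
    have hB : Function.Injective (ι.comp (Φ (Fin.last n))) := hι.comp (hΦ _)
    let f : (ι.comp (Ψ (Fin.last n))).range ≃* (ι.comp (Φ (Fin.last n))).range :=
      (MonoidHom.ofInjective hA).symm.trans (MonoidHom.ofInjective hB)
    have hf : ∀ g, (f (MonoidHom.ofInjective hA g) : K) = ι (Φ (Fin.last n) g) := by
      intro g
      show ((MonoidHom.ofInjective hB ((MonoidHom.ofInjective hA).symm
        (MonoidHom.ofInjective hA g)) : (ι.comp (Φ (Fin.last n))).range) : K) = _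
      rw [MulEquiv.symm_apply_apply]
      rfl
    let T' : Subgroup K := Subgroup.closure (ι '' (T : Set G) ∪ Set.range r)
    have hT'iff : ∀ g, ι g ∈ T' ↔ g ∈ T := fun g =>
      ⟨hcl g, fun hg => Subgroup.subset_closure (Or.inl ⟨g, hg, rfl⟩)⟩
    have hT' : ∀ a : (ι.comp (Ψ (Fin.last n))).range, (a : K) ∈ T' ↔ (f a : K) ∈ T' := by
      intro a
      obtain ⟨g, rfl⟩ := (MonoidHom.ofInjective hA).surjective a
      rw [hf g]
      have h1 : ((MonoidHom.ofInjective hA g : (ι.comp (Ψ (Fin.last n))).range) : K) =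
          ι (Ψ (Fin.last n) g) := rfl
      rw [h1, hT'iff, hT'iff]
      exact hT _ g
    refine ⟨HNNExtension K _ _ f, inferInstance, (of : K →* HNNExtension K _ _ f).comp ι,
      Fin.snoc (fun i => of (r i)) t, (of_injective f).comp hι, ?_, ?_⟩
    · intro i g
      refine Fin.lastCases ?_ (fun i => ?_) i
      · rw [Fin.snoc_last]
        show t * (of (ι (Ψ (Fin.last n) g)) : HNNExtension K _ _ f) * t⁻¹ =
          of (ι (Φ (Fin.last n) g))
        rw [← hf g, equiv_eq_conj (φ := f)]
        rfl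
      · rw [Fin.snoc_castSucc]
        show of (r i) * (of (ι (Ψ i.castSucc g)) : HNNExtension K _ _ f) * (of (r i))⁻¹ =
          of (ι (Φ i.castSucc g))
        rw [← hr i g]
        simp only [map_mul, map_inv]
    · intro g hg
      have h1 : (of (ι g) : HNNExtension K _ _ f) ∈
          Subgroup.closure ((of : K →* HNNExtension K _ _ f) '' (T' : Set K) ∪ {t}) := by
        refine (Subgroup.closure_le _).2 ?_ hg
        rintro x (⟨y, hy, rfl⟩ | ⟨i, rfl⟩)
        · exact Subgroup.subset_closure (Or.inl ⟨ι y, (hT'iff y).2 hy, rfl⟩)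
        · refine Fin.lastCases ?_ (fun i => ?_) i
          · rw [Fin.snoc_last]
            exact Subgroup.subset_closure (Or.inr rfl)
          · rw [Fin.snoc_castSucc]
            exact Subgroup.subset_closure (Or.inl ⟨r i, Subgroup.subset_closure
              (Or.inr ⟨i, rfl⟩), rfl⟩)
      exact hcl g (TowerAux.step f T' hT' (ι g) h1)

end Pool.Agent.Occ
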