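import Pool.Agent.Lib.Occ.Defs
import Pool.Agent.Lib.Occ.Tower

/-!
The base group is `G₀ = FreeGroup (ℤ × ℤ) ⋊ ℤ²` (`ℤ²` as `Multiplicative (ℤ × ℤ)`, acting by `FreeGroup.freeGroupCongr (Equiv.addLeft z)`), `x = (1,0)`, `y = (0,1)` in `ℤ²`, `t = of (0,0)`; then
`tt x y t ω = inl (of ω)`. `T = {inl w | w ∈ closure (of '' H0)}` (`Subgroup.map inl`).
For a rule let `ψ (u,v) = src u v`, `φ (u,v) = tgt u v` (injective, as the multipliers are positive). `Ψ : G₀ →* G₀`: `FreeGroup.map ψ` on the free part, `(z1, z2) ↦ (m1 z1, m2 z2)` on `ℤ²`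
(`SemidirectProduct.map`, compatible because `ψ (z + ω) = (m1 z1, m2 z2) + ψ ω`); injective. Same for `Φ`.
Lemma: for `ψ` injective, `FreeGroup.map ψ w ∈ closure (of '' H) ↔ w ∈ closure (of '' (ψ ⁻¹' H))`: let `e_H` kill the generators outside `H` (`FreeGroup.lift (fun i => if i ∈ H then of i else 1)`); `e_H` fixes
`closure (of '' H)` and has its values in it; `e_H (map ψ w) = map ψ (e_(ψ⁻¹H) w)`; use injectivity of `map ψ`. So `Ψ g ∈ T ↔ Φ g ∈ T` because `ψ⁻¹ H0 = φ⁻¹ H0` by `hH`.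
Also `of ω ∈ closure (of '' H0) ↔ ω ∈ H0` (apply `e_H`). Then use `tower` with this `T`: `S = closure (ι '' T ∪ range r)`, `x, y, t` := images under `ι`.
`Ψ x = x^m1`, `Ψ y = y^m2`, `Ψ t = inl (of (a1, a2)) = tt x y t (a1, a2)`, `Φ x = x^n1`, `Φ y = y^n2`, `Φ t = tt x y t (c1, c2)`.
-/

set_option autoImplicit false

namespace Pool.Agent.Occ

namespace BaseAux

abbrev ZZ := ℤ × ℤ

/-- the shift action -/
def sh : Multiplicative ZZ →* MulAut (FreeGroup ZZ) where
  toFun z := FreeGroup.freeGroupCongr (Equiv.addLeft z.toAdd)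
  map_one' := by
    apply MulEquiv.ext
    intro w
    show FreeGroup.map (Equiv.addLeft (0 : ZZ)) w = w
    have : (⇑(Equiv.addLeft (0 : ZZ)) : ZZ → ZZ) = id := by
      funext x
      simp
    rw [this]
    simp
  map_mul' z z' := by
    apply MulEquiv.ext
    intro w
    show FreeGroup.map (Equiv.addLeft (z.toAdd + z'.toAdd)) w =
      FreeGroup.map (Equiv.addLeft z.toAdd) (FreeGroup.map (Equiv.addLeft z'.toAdd) w)
    rw [FreeGroup.map.comp]
    congr 2
    funext x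
    simp

theorem sh_of (z : Multiplicative ZZ) (x : ZZ) : sh z (FreeGroup.of x) = FreeGroup.of (z.toAdd + x) := by
  show FreeGroup.map (Equiv.addLeft z.toAdd) (FreeGroup.of x) = _
  simp

abbrev G0 := FreeGroup ZZ ⋊[sh] Multiplicative ZZ

/-- kills the generators outside `H` -/
noncomputable def eH (H : Set ZZ) : FreeGroup ZZ →* FreeGroup ZZ :=
  open Classical in FreeGroup.lift fun i => if i ∈ H then FreeGroup.of i else 1

theorem eH_of (H : Set ZZ) (i : ZZ) : eH H (FreeGroup.of i) = open Classical in if i ∈ H then FreeGroup.of i else 1 := by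
  simp [eH]

theorem eH_mem (H : Set ZZ) (w : FreeGroup ZZ) : eH H w ∈ Subgroup.closure (FreeGroup.of '' H) := by
  classical
  induction w using FreeGroup.induction_on with
  | C1 => rw [map_one]; exact one_mem _
  | of i =>
    rw [eH_of]
    split_ifs with h
    · exact Subgroup.subset_closure ⟨i, h, rfl⟩
    · exact one_mem _
  | inv_of i h => rw [map_inv]; exact inv_mem h
  | mul x y hx hy => rw [map_mul]; exact mul_mem hx hy

theorem eH_fix (H : Set ZZ) (w : FreeGroup ZZ) (hw : w ∈ Subgroup.closure (FreeGroup.of '' H)) : eH H w = w := by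
  classical
  induction hw using Subgroup.closure_induction with
  | mem x hx =>
    obtain ⟨i, hi, rfl⟩ := hx
    rw [eH_of, if_pos hi]
  | one => exact map_one _
  | mul x y _ _ hx hy => rw [map_mul, hx, hy]
  | inv x _ hx => rw [map_inv, hx]

theorem eH_map (H : Set ZZ) (ψ : ZZ → ZZ) (w : FreeGroup ZZ) :
    eH H (FreeGroup.map ψ w) = FreeGroup.map ψ (eH (ψ ⁻¹' H) w) := by
  classical
  induction w using FreeGroup.induction_on with
  | C1 => simp
  | of i =>
    rw [FreeGroup.map.of, eH_of, eH_of]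
    by_cases h : ψ i ∈ H
    · rw [if_pos h, if_pos (show i ∈ ψ ⁻¹' H from h), FreeGroup.map.of]
    · rw [if_neg h, if_neg (show i ∉ ψ ⁻¹' H from h), map_one]
  | inv_of i h => rw [map_inv, map_inv, map_inv, map_inv, h]
  | mul x y hx hy => rw [map_mul, map_mul, map_mul, map_mul, hx, hy]

theorem map_mem_iff (H : Set ZZ) (ψ : ZZ → ZZ) (hψ : Function.Injective ψ) (w : FreeGroup ZZ) :
    FreeGroup.map ψ w ∈ Subgroup.closure (FreeGroup.of '' H) ↔
      w ∈ Subgroup.closure (FreeGroup.of '' (ψ ⁻¹' H)) := by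
  constructor
  · intro h
    have h1 := eH_fix H _ h
    rw [eH_map] at h1
    have h2 := FreeGroup.map_injective hψ h1
    rw [← h2]
    exact eH_mem _ _
  · intro h
    rw [← eH_fix _ _ h, ← eH_map]
    exact eH_mem _ _

theorem of_mem_iff (H : Set ZZ) (i : ZZ) :
    FreeGroup.of i ∈ Subgroup.closure (FreeGroup.of '' H) ↔ i ∈ H := by
  classical
  constructor
  · intro h
    have h1 := eH_fix H _ h
    rw [eH_of] at h1
    by_contra hi
    rw [if_neg hi] at h1
    exact FreeGroup.of_ne_one i h1.symm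
  · intro h
    exact Subgroup.subset_closure ⟨i, h, rfl⟩

/-- the multiplication map of `ℤ²` -/
def dil (m1 m2 : ℕ) : Multiplicative ZZ →* Multiplicative ZZ :=
  AddMonoidHom.toMultiplicative
    { toFun := fun z : ZZ => ((m1 : ℤ) * z.1, (m2 : ℤ) * z.2)
      map_zero' := by simp
      map_add' := fun z z' => by simp [mul_add] }

theorem dil_apply (m1 m2 : ℕ) (z : Multiplicative ZZ) :
    (dil m1 m2 z).toAdd = ((m1 : ℤ) * z.toAdd.1, (m2 : ℤ) * z.toAdd.2) := rfl

/-- affine map -/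
def aff (m1 m2 : ℕ) (a : ZZ) (z : ZZ) : ZZ := ((m1 : ℤ) * z.1 + a.1, (m2 : ℤ) * z.2 + a.2)

theorem aff_inj (m1 m2 : ℕ) (h1 : 1 ≤ m1) (h2 : 1 ≤ m2) (a : ZZ) : Function.Injective (aff m1 m2 a) := by
  intro z z' h
  have e1 := congrArg Prod.fst h
  have e2 := congrArg Prod.snd h
  simp only [aff] at e1 e2
  have k1 : (m1 : ℤ) ≠ 0 := by exact_mod_cast (by omega : m1 ≠ 0)
  have k2 : (m2 : ℤ) ≠ 0 := by exact_mod_cast (by omega : m2 ≠ 0)
  have f1 : (m1 : ℤ) * z.1 = m1 * z'.1 := by linarith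
  have f2 : (m2 : ℤ) * z.2 = m2 * z'.2 := by linarith
  exact Prod.ext (mul_left_cancel₀ k1 f1) (mul_left_cancel₀ k2 f2)

/-- the endomorphism of the base group -/
def en (m1 m2 : ℕ) (a : ZZ) : G0 →* G0 :=
  SemidirectProduct.map (FreeGroup.map (aff m1 m2 a)) (dil m1 m2) (by
    intro z
    apply FreeGroup.ext_hom
    intro x
    simp only [MonoidHom.comp_apply, MulEquiv.coe_toMonoidHom]
    rw [sh_of, FreeGroup.map.of, FreeGroup.map.of, sh_of, dil_apply]
    congr 1
    simp only [aff, Prod.mk.injEq, Prod.fst_add, Prod.snd_add, Prod.mk_add_mk]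
    constructor <;> ring)

theorem en_inj (m1 m2 : ℕ) (h1 : 1 ≤ m1) (h2 : 1 ≤ m2) (a : ZZ) : Function.Injective (en m1 m2 a) := by
  intro g g' h
  have e1 := congrArg SemidirectProduct.left h
  have e2 := congrArg SemidirectProduct.right h
  simp only [en, SemidirectProduct.map_left, SemidirectProduct.map_right] at e1 e2
  apply SemidirectProduct.ext
  · exact FreeGroup.map_injective (aff_inj m1 m2 h1 h2 a) e1
  · have k1 : (m1 : ℤ) ≠ 0 := by exact_mod_cast (by omega : m1 ≠ 0)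
    have k2 : (m2 : ℤ) ≠ 0 := by exact_mod_cast (by omega : m2 ≠ 0)
    have e3 := congrArg Multiplicative.toAdd e2
    rw [dil_apply, dil_apply, Prod.mk.injEq] at e3
    apply Multiplicative.toAdd.injective
    exact Prod.ext (mul_left_cancel₀ k1 e3.1) (mul_left_cancel₀ k2 e3.2)

/-- the subgroup `T` -/
def TT (H : Set ZZ) : Subgroup G0 := (Subgroup.closure (FreeGroup.of '' H)).map SemidirectProduct.inl

theorem mem_TT (H : Set ZZ) (g : G0) :
    g ∈ TT H ↔ g.right = 1 ∧ g.left ∈ Subgroup.closure (FreeGroup.of '' H) := by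
  unfold TT
  rw [Subgroup.mem_map]
  constructor
  · rintro ⟨w, hw, rfl⟩
    exact ⟨rfl, hw⟩
  · rintro ⟨h1, h2⟩
    exact ⟨g.left, h2, SemidirectProduct.ext rfl h1.symm⟩

theorem en_mem_iff (H : Set ZZ) (m1 m2 : ℕ) (h1 : 1 ≤ m1) (h2 : 1 ≤ m2) (a : ZZ) (g : G0) :
    en m1 m2 a g ∈ TT H ↔ g.right = 1 ∧ g.left ∈ Subgroup.closure (FreeGroup.of '' (aff m1 m2 a ⁻¹' H)) := by
  rw [mem_TT]
  simp only [en, SemidirectProduct.map_left, SemidirectProduct.map_right]
  rw [map_mem_iff H _ (aff_inj m1 m2 h1 h2 a)]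
  refine and_congr_left fun _ => ?_
  constructor
  · intro h
    have k1 : (m1 : ℤ) ≠ 0 := by exact_mod_cast (by omega : m1 ≠ 0)
    have k2 : (m2 : ℤ) ≠ 0 := by exact_mod_cast (by omega : m2 ≠ 0)
    have e3 := congrArg Multiplicative.toAdd h
    rw [dil_apply, toAdd_one] at e3
    have e4 := congrArg Prod.fst e3
    have e5 := congrArg Prod.snd e3
    simp only [Prod.fst_zero, Prod.snd_zero, mul_eq_zero, k1, k2, false_or] at e4 e5
    apply Multiplicative.toAdd.injective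
    exact Prod.ext e4 e5
  · intro h
    rw [h, map_one]

/-- generators of the base group -/
def bx : G0 := SemidirectProduct.inr (Multiplicative.ofAdd ((1, 0) : ZZ))
def bY : G0 := SemidirectProduct.inr (Multiplicative.ofAdd ((0, 1) : ZZ))
def bt : G0 := SemidirectProduct.inl (FreeGroup.of ((0, 0) : ZZ))

theorem bxy_pow (a b : ℤ) : bx ^ a * bY ^ b = SemidirectProduct.inr (Multiplicative.ofAdd ((a, b) : ZZ)) := by
  have e1 : bx ^ a = SemidirectProduct.inr (Multiplicative.ofAdd ((a, 0) : ZZ)) := by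
    have h := (map_zpow (SemidirectProduct.inr : Multiplicative ZZ →* G0) (Multiplicative.ofAdd ((1, 0) : ZZ)) a).symm
    unfold bx
    rw [h]
    congr 1
    rw [← ofAdd_zsmul]
    simp
  have e2 : bY ^ b = SemidirectProduct.inr (Multiplicative.ofAdd ((0, b) : ZZ)) := by
    have h := (map_zpow (SemidirectProduct.inr : Multiplicative ZZ →* G0) (Multiplicative.ofAdd ((0, 1) : ZZ)) b).symm
    unfold bY
    rw [h]
    congr 1
    rw [← ofAdd_zsmul]
    simp
  rw [e1, e2, ← map_mul, ← ofAdd_add]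
  simp

theorem tt_base (ω : ZZ) : tt bx bY bt ω = SemidirectProduct.inl (FreeGroup.of ω) := by
  unfold tt
  rw [bxy_pow]
  unfold bt
  rw [← map_inv, ← SemidirectProduct.inl_aut, sh_of]
  congr 2
  show ((ω.1, ω.2) : ZZ) + (0, 0) = ω
  simp

theorem bx_pow (m : ℕ) : bx ^ m = SemidirectProduct.inr (Multiplicative.ofAdd (((m : ℤ), 0) : ZZ)) := by
  have h := bxy_pow m 0
  rwa [zpow_zero, mul_one, zpow_natCast] at h

theorem bY_pow (m : ℕ) : bY ^ m = SemidirectProduct.inr (Multiplicative.ofAdd ((0, (m : ℤ)) : ZZ)) := by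
  have h := bxy_pow 0 m
  rwa [zpow_zero, one_mul, zpow_natCast] at h

theorem en_bx (m1 m2 : ℕ) (a : ZZ) : en m1 m2 a bx = bx ^ m1 := by
  rw [bx_pow]
  unfold en bx
  rw [SemidirectProduct.map_inr]
  congr 1
  apply Multiplicative.toAdd.injective
  rw [dil_apply]
  simp

theorem en_bY (m1 m2 : ℕ) (a : ZZ) : en m1 m2 a bY = bY ^ m2 := by
  rw [bY_pow]
  unfold en bY
  rw [SemidirectProduct.map_inr]
  congr 1
  apply Multiplicative.toAdd.injective
  rw [dil_apply]
  simp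

theorem en_bt (m1 m2 : ℕ) (a : ZZ) : en m1 m2 a bt = tt bx bY bt a := by
  rw [tt_base]
  unfold en bt
  rw [SemidirectProduct.map_inl, FreeGroup.map.of]
  congr 2
  simp [aff]

theorem map_tt {G H : Type*} [Group G] [Group H] (f : G →* H) (x y t : G) (ω : ℤ × ℤ) :
    f (tt x y t ω) = tt (f x) (f y) (f t) ω := by
  unfold tt
  simp only [map_mul, map_zpow, map_inv]

end BaseAux

open BaseAux in
theorem base_rep (n : ℕ) (ru : Fin n → Rule) (hpos : ∀ i, (ru i).Pos) (H0 : Set (ℤ × ℤ))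
    (hH : ∀ i u v, (ru i).src u v ∈ H0 ↔ (ru i).tgt u v ∈ H0) :
    ∃ (K : Type) (_ : Group K) (x y t : K) (r : Fin n → K) (S : Subgroup K), x * y = y * x ∧
      (∀ i, r i * x ^ (ru i).m1 * (r i)⁻¹ = x ^ (ru i).n1) ∧
      (∀ i, r i * y ^ (ru i).m2 * (r i)⁻¹ = y ^ (ru i).n2) ∧
      (∀ i, r i * tt x y t ((ru i).a1, (ru i).a2) * (r i)⁻¹ = tt x y t ((ru i).c1, (ru i).c2)) ∧
      (∀ i, r i ∈ S) ∧ ∀ ω, tt x y t ω ∈ S ↔ ω ∈ H0 := by
  have hpre : ∀ i, aff (ru i).m1 (ru i).m2 ((ru i).a1, (ru i).a2) ⁻¹' H0 =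
      aff (ru i).n1 (ru i).n2 ((ru i).c1, (ru i).c2) ⁻¹' H0 := by
    intro i
    ext z
    exact hH i z.1 z.2
  obtain ⟨K, iK, ι, r, hι, hr, hS⟩ := tower (TT H0) n
    (fun i => en (ru i).m1 (ru i).m2 ((ru i).a1, (ru i).a2))
    (fun i => en (ru i).n1 (ru i).n2 ((ru i).c1, (ru i).c2))
    (fun i => en_inj _ _ (hpos i).1 (hpos i).2.1 _) (fun i => en_inj _ _ (hpos i).2.2.1 (hpos i).2.2.2 _)
    (fun i g => by
      rw [en_mem_iff H0 _ _ (hpos i).1 (hpos i).2.1, en_mem_iff H0 _ _ (hpos i).2.2.1 (hpos i).2.2.2, hpre i])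
  refine ⟨K, iK, ι bx, ι bY, ι bt, r, Subgroup.closure (ι '' (TT H0 : Set G0) ∪ Set.range r),
    ?_, fun i => ?_, fun i => ?_, fun i => ?_, fun i => ?_, fun ω => ?_⟩
  · have h : bx * bY = bY * bx := by
      have e1 := map_mul (SemidirectProduct.inr : Multiplicative ZZ →* G0)
        (Multiplicative.ofAdd ((1, 0) : ZZ)) (Multiplicative.ofAdd ((0, 1) : ZZ))
      have e2 := map_mul (SemidirectProduct.inr : Multiplicative ZZ →* G0)
        (Multiplicative.ofAdd ((0, 1) : ZZ)) (Multiplicative.ofAdd ((1, 0) : ZZ))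
      rw [mul_comm] at e2
      exact e1.symm.trans e2
    rw [← map_mul, ← map_mul, h]
  · rw [← map_pow, ← map_pow, ← en_bx (ru i).m1 (ru i).m2 ((ru i).a1, (ru i).a2), hr i, en_bx]
  · rw [← map_pow, ← map_pow, ← en_bY (ru i).m1 (ru i).m2 ((ru i).a1, (ru i).a2), hr i, en_bY]
  · rw [← map_tt, ← map_tt, ← en_bt (ru i).m1 (ru i).m2 ((ru i).a1, (ru i).a2), hr i, en_bt]
  · exact Subgroup.subset_closure (Or.inr ⟨i, rfl⟩)
  · rw [← map_tt, tt_base]
    have h1 : (SemidirectProduct.inl (FreeGroup.of ω) : G0) ∈ TT H0 ↔ ω ∈ H0 := by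
      rw [mem_TT]
      constructor
      · rintro ⟨_, h⟩
        exact (of_mem_iff H0 ω).1 h
      · intro h
        exact ⟨rfl, (of_mem_iff H0 ω).2 h⟩
    constructor
    · intro h
      exact h1.1 (hS _ h)
    · intro h
      exact Subgroup.subset_closure (Or.inl ⟨_, h1.2 h, rfl⟩)

end Pool.Agent.Occ
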