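import Pool.Agent.Lib.Occ.Defs
import Pool.Agent.Lib.PD7c5de.TM

/-!
An affine machine with undecidable class of `(0, 0)`.

`PD7c5de.exists_tm0` gives finite `Γ, Λ`, a machine `M : TM0.Machine Γ Λ`, `s : Γ`, `F : Bool → Γ` with
`(TM0.eval M (s :: (bitsB n).reverse.map F)).Dom ↔ (univF n).Dom`, and `univF_undecidable`. A half tape is
coded by the number with the digits of its symbols (`codL`, `codB`), a configuration by
`enc ⟨q, T⟩ = (m cod T.left + st q, m cod T.right + g T.head)`. The rules are `MachAux.rl`.
-/

set_option autoImplicit false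
set_option linter.unusedSectionVars false

namespace Pool.Agent.Occ

open Turing StateTransition Pool.Agent.Lib.PD7c5de

namespace MachAux

section cod

variable {Γ : Type}

/-- the number with the given digits, least significant first -/
def codL (m : ℕ) (g : Γ → ℕ) : List Γ → ℕ
  | [] => 0
  | a :: l => g a + m * codL m g l

lemma codL_blank [Inhabited Γ] (m : ℕ) (g : Γ → ℕ) (h : g default = 0) (l : List Γ) (n : ℕ) :
    codL m g (l ++ List.replicate n default) = codL m g l := by
  induction l with
  | nil =>
    rw [List.nil_append]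
    induction n with
    | zero => rfl
    | succ n ih =>
      rw [List.replicate_succ]
      simp only [codL]
      rw [ih, h]
      simp [codL]
  | cons a l ih =>
    rw [List.cons_append]
    simp only [codL]
    rw [ih]

/-- the code of a half tape -/
def codB [Inhabited Γ] (m : ℕ) (g : Γ → ℕ) (h : g default = 0) (L : ListBlank Γ) : ℕ :=
  L.liftOn (codL m g) (by
    rintro a _ ⟨n, rfl⟩
    exact (codL_blank m g h a n).symm)

lemma codB_mk [Inhabited Γ] (m : ℕ) (g : Γ → ℕ) (h : g default = 0) (l : List Γ) :
    codB m g h (ListBlank.mk l) = codL m g l := rfl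

lemma codB_cons [Inhabited Γ] (m : ℕ) (g : Γ → ℕ) (h : g default = 0) (a : Γ) (L : ListBlank Γ) :
    codB m g h (L.cons a) = g a + m * codB m g h L := by
  induction L using ListBlank.induction_on with
  | h l => rfl

lemma codB_eq [Inhabited Γ] (m : ℕ) (g : Γ → ℕ) (h : g default = 0) (L : ListBlank Γ) :
    codB m g h L = g L.head + m * codB m g h L.tail := by
  conv_lhs => rw [← ListBlank.cons_head_tail L]
  rw [codB_cons]

end cod

lemma dig {m x y d e : ℤ} (hd0 : 0 ≤ d) (hd : d < m) (he0 : 0 ≤ e) (he : e < m)
    (h : m * x + d = m * y + e) : x = y ∧ d = e := by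
  rcases lt_trichotomy x y with h1 | h1 | h1
  · exfalso
    nlinarith
  · subst h1
    exact ⟨rfl, by linarith⟩
  · exfalso
    nlinarith

section mach

variable {Γ Λ : Type} [Inhabited Γ] [Inhabited Λ] (M : TM0.Machine Γ Λ) (m : ℕ) (g : Γ → ℕ)
  (hg : g default = 0) (st : Λ → ℕ)

/-- the code of a configuration -/
def enc (c : TM0.Cfg Γ Λ) : ℤ × ℤ :=
  ((m : ℤ) * codB m g hg c.Tape.left + st c.q, (m : ℤ) * codB m g hg c.Tape.right + g c.Tape.head)

/-- the machine halts from the configuration -/
def halts (c : TM0.Cfg Γ Λ) : Prop := (StateTransition.eval (TM0.step M) c).Dom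

lemma halts_step {c c' : TM0.Cfg Γ Λ} (h : TM0.step M c = some c') :
    halts M c ↔ halts M c' := by
  unfold halts
  rw [StateTransition.reaches_eval (Relation.ReflTransGen.single h)]

lemma halts_none {c : TM0.Cfg Γ Λ} (h : TM0.step M c = none) : halts M c := by
  unfold halts
  rw [Part.dom_iff_mem]
  exact ⟨c, StateTransition.mem_eval.2 ⟨Relation.ReflTransGen.refl, h⟩⟩

/-- the rules -/
def rl : (Λ × Γ × Γ) ⊕ (Fin m × Fin m) → Rule
  | Sum.inl (q, a, l) =>
    match M q a with
    | none => ⟨m, m, m, m, st q, g a, 0, g a⟩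
    | some (q', TM0.Stmt.write b) => ⟨m, m, m, m, st q, g a, st q', g b⟩
    | some (q', TM0.Stmt.move Dir.right) => ⟨m, m, m * m, 1, st q, g a, m * g a + st q', 0⟩
    | some (q', TM0.Stmt.move Dir.left) =>
      ⟨m * m, m, m, m * m, m * g l + st q, g a, st q', m * g a + g l⟩
  | Sum.inr (l, a) => ⟨m * m, m, m, 1, m * (l : ℕ), (a : ℕ), 0, 0⟩

/-- the class of `(0, 0)` -/
def HH : Set (ℤ × ℤ) :=
  {ω | ∀ P : ℤ × ℤ → Prop, P (0, 0) →
    (∀ x u v, P ((rl M m g st x).src u v) ↔ P ((rl M m g st x).tgt u v)) → P ω}

variable {M m g st}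

lemma rl_none {q : Λ} {a : Γ} (h : M q a = none) (l : Γ) :
    rl M m g st (Sum.inl (q, a, l)) = ⟨m, m, m, m, st q, g a, 0, g a⟩ := by
  simp only [rl, h]

lemma rl_write {q q' : Λ} {a b : Γ} (h : M q a = some (q', TM0.Stmt.write b)) (l : Γ) :
    rl M m g st (Sum.inl (q, a, l)) = ⟨m, m, m, m, st q, g a, st q', g b⟩ := by
  simp only [rl, h]

lemma rl_right {q q' : Λ} {a : Γ} (h : M q a = some (q', TM0.Stmt.move Dir.right)) (l : Γ) :
    rl M m g st (Sum.inl (q, a, l)) = ⟨m, m, m * m, 1, st q, g a, m * g a + st q', 0⟩ := by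
  simp only [rl, h]

lemma rl_left {q q' : Λ} {a : Γ} (h : M q a = some (q', TM0.Stmt.move Dir.left)) (l : Γ) :
    rl M m g st (Sum.inl (q, a, l)) =
      ⟨m * m, m, m, m * m, m * g l + st q, g a, st q', m * g a + g l⟩ := by
  simp only [rl, h]

lemma rl_erase (l a : Fin m) :
    rl M m g st (Sum.inr (l, a)) = ⟨m * m, m, m, 1, m * (l : ℕ), (a : ℕ), 0, 0⟩ := rfl

lemma HH_iff (x : (Λ × Γ × Γ) ⊕ (Fin m × Fin m)) (u v : ℤ) :
    (rl M m g st x).src u v ∈ HH M m g st ↔ (rl M m g st x).tgt u v ∈ HH M m g st :=
  ⟨fun h P h0 hP => (hP x u v).1 (h P h0 hP), fun h P h0 hP => (hP x u v).2 (h P h0 hP)⟩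

lemma HH_nat (hm : 2 ≤ m) : ∀ s u w : ℕ, u + w ≤ s → ((m : ℤ) * u, (w : ℤ)) ∈ HH M m g st := by
  intro s
  induction s with
  | zero =>
    intro u w h P h0 _
    have hu : u = 0 := by omega
    have hw : w = 0 := by omega
    subst hu hw
    simpa using h0
  | succ s ih =>
    intro u w h
    by_cases h0 : u = 0 ∧ w = 0
    · obtain ⟨rfl, rfl⟩ := h0
      exact ih 0 0 (by omega)
    · have hm0 : 0 < m := by omega
      have h1 := HH_iff (M := M) (g := g) (st := st)
        (Sum.inr (⟨u % m, Nat.mod_lt _ hm0⟩, ⟨w % m, Nat.mod_lt _ hm0⟩)) ((u / m : ℕ) : ℤ)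
        ((w / m : ℕ) : ℤ)
      rw [rl_erase] at h1
      have e1 : (m : ℤ) * ((u / m : ℕ) : ℤ) + ((u % m : ℕ) : ℤ) = u := by
        exact_mod_cast Nat.div_add_mod u m
      have e2 : (m : ℤ) * ((w / m : ℕ) : ℤ) + ((w % m : ℕ) : ℤ) = w := by
        exact_mod_cast Nat.div_add_mod w m
      have e3 : (⟨m * m, m, m, 1, m * ((u % m : ℕ) : ℤ), ((w % m : ℕ) : ℤ), 0, 0⟩ : Rule).src
          ((u / m : ℕ) : ℤ) ((w / m : ℕ) : ℤ) = ((m : ℤ) * u, (w : ℤ)) := by
        unfold Rule.src
        refine Prod.ext ?_ ?_
        · simp only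
          rw [← e1]
          push_cast
          ring
        · simp only
          exact e2
      have e4 : (⟨m * m, m, m, 1, m * ((u % m : ℕ) : ℤ), ((w % m : ℕ) : ℤ), 0, 0⟩ : Rule).tgt
          ((u / m : ℕ) : ℤ) ((w / m : ℕ) : ℤ) = ((m : ℤ) * ((u / m : ℕ) : ℤ), ((w / m : ℕ) : ℤ)) := by
        unfold Rule.tgt
        refine Prod.ext ?_ ?_
        · simp only
          ring
        · simp only
          push_cast
          ring
      have h2 : ((m : ℤ) * ((u / m : ℕ) : ℤ), ((w / m : ℕ) : ℤ)) ∈ HH M m g st := by
        refine ih _ _ ?_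
        have d1 : u / m ≤ u := Nat.div_le_self u m
        have d2 : w / m ≤ w := Nat.div_le_self w m
        rcases Nat.eq_zero_or_pos u with hu | hu
        · have hw : 0 < w := by omega
          have := Nat.div_lt_self hw hm
          omega
        · have := Nat.div_lt_self hu hm
          omega
      rw [← e4] at h2
      have h3 := h1.2 h2
      rw [← e3]
      exact h3

variable (hgi : Function.Injective g) (hgm : ∀ a, g a < m) (hsi : Function.Injective st)
  (hsm : ∀ q, st q < m) (hs1 : ∀ q, 1 ≤ st q)

lemma step_rule {c c' : TM0.Cfg Γ Λ} (h : TM0.step M c = some c') :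
    ∃ x u v, enc m g hg st c = (rl M m g st x).src u v ∧
      enc m g hg st c' = (rl M m g st x).tgt u v := by
  obtain ⟨q, a, L, R⟩ := c
  unfold TM0.step at h
  simp only at h
  rcases hM : M q a with _ | ⟨q', s⟩
  · rw [hM] at h
    simp at h
  · rw [hM] at h
    simp only [Option.map_some, Option.some.injEq] at h
    subst h
    rcases s with d | b
    · rcases d with _ | _
      · -- left
        refine ⟨Sum.inl (q, a, L.head), codB m g hg L.tail, codB m g hg R, ?_, ?_⟩
        · rw [rl_left hM]
          unfold enc Rule.src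
          simp only
          rw [codB_eq m g hg L]
          refine Prod.ext ?_ ?_
          · simp only
            push_cast
            ring
          · rfl
        · rw [rl_left hM]
          unfold enc Rule.tgt
          simp only [Tape.move]
          rw [codB_cons]
          refine Prod.ext ?_ ?_
          · rfl
          · simp only
            push_cast
            ring
      · -- right
        refine ⟨Sum.inl (q, a, default), codB m g hg L, codB m g hg R, ?_, ?_⟩
        · rw [rl_right hM]
          rfl
        · rw [rl_right hM]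
          unfold enc Rule.tgt
          simp only [Tape.move]
          rw [codB_cons, codB_eq m g hg R]
          refine Prod.ext ?_ ?_
          · simp only
            push_cast
            ring
          · simp only
            push_cast
            ring
    · -- write
      refine ⟨Sum.inl (q, a, default), codB m g hg L, codB m g hg R, ?_, ?_⟩
      · rw [rl_write hM]
        rfl
      · rw [rl_write hM]
        rfl

lemma enc_mem_of_halts (hm : 2 ≤ m) {c : TM0.Cfg Γ Λ} (h : halts M c) :
    enc m g hg st c ∈ HH M m g st := by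
  unfold halts at h
  rw [Part.dom_iff_mem] at h
  obtain ⟨b, hb⟩ := h
  rw [StateTransition.mem_eval] at hb
  obtain ⟨h1, h2⟩ := hb
  induction h1 using Relation.ReflTransGen.head_induction_on with
  | refl =>
    obtain ⟨q, a, L, R⟩ := b
    have hM : M q a = none := by
      unfold TM0.step at h2
      simpa using h2
    have h3 := HH_iff (M := M) (m := m) (g := g) (st := st) (Sum.inl (q, a, default))
      (codB m g hg L) (codB m g hg R)
    rw [rl_none hM] at h3
    have e1 : (⟨m, m, m, m, st q, g a, 0, g a⟩ : Rule).src (codB m g hg L) (codB m g hg R) =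
        enc m g hg st ⟨q, a, L, R⟩ := rfl
    have e2 : (⟨m, m, m, m, st q, g a, 0, g a⟩ : Rule).tgt (codB m g hg L) (codB m g hg R) =
        ((m : ℤ) * (codB m g hg L : ℕ), ((m * codB m g hg R + g a : ℕ) : ℤ)) := by
      unfold Rule.tgt
      refine Prod.ext ?_ ?_
      · simp only
        ring
      · simp only
        push_cast
        ring
    rw [e1, e2] at h3
    exact h3.2 (HH_nat hm _ _ _ le_rfl)
  | head h _ ih =>
    obtain ⟨x, u, v, h3, h4⟩ := step_rule hg (M := M) (m := m) (st := st) h
    rw [h3]
    rw [h4] at ih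
    exact (HH_iff x u v).2 ih

include hgi hgm hsi hsm hs1

lemma inv_fwd (x : (Λ × Γ × Γ) ⊕ (Fin m × Fin m)) (u v : ℤ)
    (h : ∃ c, enc m g hg st c = (rl M m g st x).src u v ∧ ¬ halts M c) :
    ∃ c, enc m g hg st c = (rl M m g st x).tgt u v ∧ ¬ halts M c := by
  obtain ⟨⟨q, a, L, R⟩, hc, hh⟩ := h
  unfold enc Rule.src at hc
  rw [Prod.ext_iff] at hc
  simp only at hc
  obtain ⟨hc1, hc2⟩ := hc
  have hq1 : (1 : ℤ) ≤ st q := by exact_mod_cast hs1 q
  have hqm : (st q : ℤ) < m := by exact_mod_cast hsm q
  have ham : (g a : ℤ) < m := by exact_mod_cast hgm a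
  have ha0 : (0 : ℤ) ≤ g a := Nat.cast_nonneg _
  rcases x with ⟨q₀, a₀, l⟩ | ⟨l, a₀⟩
  · have hq1' : (1 : ℤ) ≤ st q₀ := by exact_mod_cast hs1 q₀
    have hqm' : (st q₀ : ℤ) < m := by exact_mod_cast hsm q₀
    have ham' : (g a₀ : ℤ) < m := by exact_mod_cast hgm a₀
    have ha0' : (0 : ℤ) ≤ g a₀ := Nat.cast_nonneg _
    rcases hM : M q₀ a₀ with _ | ⟨q', s⟩
    · exfalso
      rw [rl_none hM] at hc1 hc2
      simp only at hc1 hc2
      obtain ⟨-, e1⟩ := dig (by linarith) hqm (by linarith) hqm' hc1
      obtain ⟨-, e2⟩ := dig ha0 ham ha0' ham' hc2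
      have e3 : q = q₀ := hsi (by exact_mod_cast e1)
      have e4 : a = a₀ := hgi (by exact_mod_cast e2)
      subst e3 e4
      refine hh (halts_none M ?_)
      unfold TM0.step
      simp [hM]
    · rcases s with d | b
      · rcases d with _ | _
        · -- left
          rw [rl_left hM] at hc1 hc2 ⊢
          simp only at hc1 hc2
          have hc1' : (m : ℤ) * codB m g hg L + st q = m * (m * u + g l) + st q₀ := by
            rw [hc1]; push_cast; ring
          obtain ⟨e0, e1⟩ := dig (by linarith) hqm (by linarith) hqm' hc1'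
          obtain ⟨e5, e2⟩ := dig ha0 ham ha0' ham' hc2
          have e3 : q = q₀ := hsi (by exact_mod_cast e1)
          have e4 : a = a₀ := hgi (by exact_mod_cast e2)
          subst e3 e4
          rw [codB_eq m g hg L] at e0
          have e0' : (m : ℤ) * codB m g hg L.tail + g L.head = m * u + g l := by
            rw [← e0]; push_cast; ring
          obtain ⟨e6, e7⟩ := dig (Nat.cast_nonneg _) (by exact_mod_cast hgm L.head)
            (Nat.cast_nonneg _) (by exact_mod_cast hgm l) e0'
          have hst : TM0.step M ⟨q, a, L, R⟩ =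
              some ⟨q', ⟨L.head, L.tail, R.cons a⟩⟩ := by
            unfold TM0.step
            simp [hM, Tape.move]
          refine ⟨⟨q', ⟨L.head, L.tail, R.cons a⟩⟩, ?_, fun h => hh ((halts_step M hst).2 h)⟩
          unfold enc Rule.tgt
          simp only
          rw [codB_cons, e6]
          refine Prod.ext rfl ?_
          simp only
          push_cast
          rw [e5, e7]
          ring
        · -- right
          rw [rl_right hM] at hc1 hc2 ⊢
          simp only at hc1 hc2
          obtain ⟨e0, e1⟩ := dig (by linarith) hqm (by linarith) hqm' hc1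
          obtain ⟨e5, e2⟩ := dig ha0 ham ha0' ham' hc2
          have e3 : q = q₀ := hsi (by exact_mod_cast e1)
          have e4 : a = a₀ := hgi (by exact_mod_cast e2)
          subst e3 e4
          have hst : TM0.step M ⟨q, a, L, R⟩ =
              some ⟨q', ⟨R.head, L.cons a, R.tail⟩⟩ := by
            unfold TM0.step
            simp [hM, Tape.move]
          refine ⟨⟨q', ⟨R.head, L.cons a, R.tail⟩⟩, ?_, fun h => hh ((halts_step M hst).2 h)⟩
          unfold enc Rule.tgt
          simp only
          rw [codB_cons]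
          rw [codB_eq m g hg R] at e5
          refine Prod.ext ?_ ?_
          · simp only
            push_cast
            rw [e0]
            ring
          · simp only
            rw [← e5]
            push_cast
            ring
      · -- write
        rw [rl_write hM] at hc1 hc2 ⊢
        simp only at hc1 hc2
        obtain ⟨e0, e1⟩ := dig (by linarith) hqm (by linarith) hqm' hc1
        obtain ⟨e5, e2⟩ := dig ha0 ham ha0' ham' hc2
        have e3 : q = q₀ := hsi (by exact_mod_cast e1)
        have e4 : a = a₀ := hgi (by exact_mod_cast e2)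
        subst e3 e4
        have hst : TM0.step M ⟨q, a, L, R⟩ = some ⟨q', ⟨b, L, R⟩⟩ := by
          unfold TM0.step
          simp [hM, Tape.write]
        refine ⟨⟨q', ⟨b, L, R⟩⟩, ?_, fun h => hh ((halts_step M hst).2 h)⟩
        unfold enc Rule.tgt
        simp only
        rw [e0, e5]
  · exfalso
    rw [rl_erase] at hc1
    simp only at hc1
    have hc1' : (m : ℤ) * codB m g hg L + st q = m * (m * u + (l : ℕ)) + 0 := by
      rw [hc1]; push_cast; ring
    obtain ⟨-, e1⟩ := dig (by linarith) hqm le_rfl (by linarith) hc1'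
    linarith

lemma inv_bwd (x : (Λ × Γ × Γ) ⊕ (Fin m × Fin m)) (u v : ℤ)
    (h : ∃ c, enc m g hg st c = (rl M m g st x).tgt u v ∧ ¬ halts M c) :
    ∃ c, enc m g hg st c = (rl M m g st x).src u v ∧ ¬ halts M c := by
  obtain ⟨⟨q, a, L, R⟩, hc, hh⟩ := h
  unfold enc Rule.tgt at hc
  rw [Prod.ext_iff] at hc
  simp only at hc
  obtain ⟨hc1, hc2⟩ := hc
  have hq1 : (1 : ℤ) ≤ st q := by exact_mod_cast hs1 q
  have hqm : (st q : ℤ) < m := by exact_mod_cast hsm q
  have ham : (g a : ℤ) < m := by exact_mod_cast hgm a
  have ha0 : (0 : ℤ) ≤ g a := Nat.cast_nonneg _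
  rcases x with ⟨q₀, a₀, l⟩ | ⟨l, a₀⟩
  · have ham' : (g a₀ : ℤ) < m := by exact_mod_cast hgm a₀
    have ha0' : (0 : ℤ) ≤ g a₀ := Nat.cast_nonneg _
    rcases hM : M q₀ a₀ with _ | ⟨q', s⟩
    · exfalso
      rw [rl_none hM] at hc1
      simp only at hc1
      obtain ⟨-, e1⟩ := dig (by linarith) hqm le_rfl (by linarith) hc1
      linarith
    · have hq1' : (1 : ℤ) ≤ st q' := by exact_mod_cast hs1 q'
      have hqm' : (st q' : ℤ) < m := by exact_mod_cast hsm q'
      rcases s with d | b
      · rcases d with _ | _
        · -- left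
          rw [rl_left hM] at hc1 hc2 ⊢
          simp only at hc1 hc2
          obtain ⟨e0, e1⟩ := dig (by linarith) hqm (by linarith) hqm' hc1
          have e3 : q = q' := hsi (by exact_mod_cast e1)
          subst e3
          have hlm : (g l : ℤ) < m := by exact_mod_cast hgm l
          have hl0 : (0 : ℤ) ≤ g l := Nat.cast_nonneg _
          have hc2' : (m : ℤ) * codB m g hg R + g a = m * (m * v + g a₀) + g l := by
            rw [hc2]; push_cast; ring
          obtain ⟨e4, e5⟩ := dig ha0 ham hl0 hlm hc2'
          have e6 : a = l := hgi (by exact_mod_cast e5)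
          subst e6
          rw [codB_eq m g hg R] at e4
          have e4' : (m : ℤ) * codB m g hg R.tail + g R.head = m * v + g a₀ := by
            rw [← e4]; push_cast; ring
          obtain ⟨e7, e8⟩ := dig (Nat.cast_nonneg _) (by exact_mod_cast hgm R.head) ha0' ham' e4'
          have e9 : R.head = a₀ := hgi (by exact_mod_cast e8)
          have hst : TM0.step M ⟨q₀, a₀, L.cons a, R.tail⟩ = some ⟨q, a, L, R⟩ := by
            unfold TM0.step
            simp only [hM, Option.map_some, Tape.move, ListBlank.head_cons, ListBlank.tail_cons]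
            rw [← e9, ListBlank.cons_head_tail]
          refine ⟨⟨q₀, a₀, L.cons a, R.tail⟩, ?_, fun h => hh ((halts_step M hst).1 h)⟩
          unfold enc Rule.src
          simp only
          rw [codB_cons, e7]
          refine Prod.ext ?_ rfl
          simp only
          push_cast
          rw [e0]
          ring
        · -- right
          rw [rl_right hM] at hc1 hc2 ⊢
          simp only at hc1 hc2
          have hc1' : (m : ℤ) * codB m g hg L + st q = m * (m * u + g a₀) + st q' := by
            rw [hc1]; push_cast; ring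
          obtain ⟨e0, e1⟩ := dig (by linarith) hqm (by linarith) hqm' hc1'
          have e3 : q = q' := hsi (by exact_mod_cast e1)
          subst e3
          rw [codB_eq m g hg L] at e0
          have e0' : (m : ℤ) * codB m g hg L.tail + g L.head = m * u + g a₀ := by
            rw [← e0]; push_cast; ring
          obtain ⟨e7, e8⟩ := dig (Nat.cast_nonneg _) (by exact_mod_cast hgm L.head) ha0' ham' e0'
          have e9 : L.head = a₀ := hgi (by exact_mod_cast e8)
          have hst : TM0.step M ⟨q₀, a₀, L.tail, R.cons a⟩ = some ⟨q, a, L, R⟩ := by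
            unfold TM0.step
            simp only [hM, Option.map_some, Tape.move, ListBlank.head_cons, ListBlank.tail_cons]
            rw [← e9, ListBlank.cons_head_tail]
          refine ⟨⟨q₀, a₀, L.tail, R.cons a⟩, ?_, fun h => hh ((halts_step M hst).1 h)⟩
          unfold enc Rule.src
          simp only
          rw [codB_cons, e7]
          refine Prod.ext rfl ?_
          simp only
          have hv : v = m * codB m g hg R + g a := by
            rw [hc2]; push_cast; ring
          rw [hv]
          push_cast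
          ring
      · -- write
        rw [rl_write hM] at hc1 hc2 ⊢
        simp only at hc1 hc2
        obtain ⟨e0, e1⟩ := dig (by linarith) hqm (by linarith) hqm' hc1
        obtain ⟨e5, e2⟩ := dig ha0 ham (Nat.cast_nonneg _) (by exact_mod_cast hgm b) hc2
        have e3 : q = q' := hsi (by exact_mod_cast e1)
        have e4 : a = b := hgi (by exact_mod_cast e2)
        subst e3 e4
        have hst : TM0.step M ⟨q₀, a₀, L, R⟩ = some ⟨q, a, L, R⟩ := by
          unfold TM0.step
          simp [hM, Tape.write]
        refine ⟨⟨q₀, a₀, L, R⟩, ?_, fun h => hh ((halts_step M hst).1 h)⟩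
        unfold enc Rule.src
        simp only
        rw [e0, e5]
  · exfalso
    rw [rl_erase] at hc1
    simp only at hc1
    obtain ⟨-, e1⟩ := dig (by linarith) hqm le_rfl (by linarith) hc1
    linarith

lemma halts_of_enc_mem {c : TM0.Cfg Γ Λ} (h : enc m g hg st c ∈ HH M m g st) : halts M c := by
  have h1 := h (fun ω => ¬ ∃ c, enc m g hg st c = ω ∧ ¬ halts M c) ?_ ?_
  · by_contra h2
    exact h1 ⟨c, rfl, h2⟩
  · rintro ⟨c, hc, -⟩
    unfold enc at hc
    rw [Prod.ext_iff] at hc
    simp only at hc
    have h2 : (1 : ℤ) ≤ st c.q := by exact_mod_cast hs1 c.q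
    have h3 : (0 : ℤ) ≤ (m : ℤ) * codB m g hg c.Tape.left := by positivity
    linarith [hc.1]
  · intro x u v
    exact not_congr ⟨inv_fwd hg hgi hgm hsi hsm hs1 x u v, inv_bwd hg hgi hgm hsi hsm hs1 x u v⟩

end mach

end MachAux

open MachAux

theorem exists_machine : ∃ (n : ℕ) (ru : Fin n → Rule) (α β : ℕ → ℕ), (∀ i, (ru i).Pos) ∧
    Computable α ∧ Computable β ∧
    ¬ ComputablePred (fun k : ℕ => (((α k : ℕ) : ℤ), ((β k : ℕ) : ℤ)) ∈ Hzero ru) := by
  classical
  obtain ⟨Γ, Λ, i1, i2, f1, f2, M, s, F, hM⟩ := exists_tm0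
  obtain ⟨nG, ⟨eG⟩⟩ := Finite.exists_equiv_fin Γ
  obtain ⟨nL, ⟨eL⟩⟩ := Finite.exists_equiv_fin Λ
  obtain ⟨g, hgdef⟩ : ∃ g : Γ → ℕ, g = fun a => if a = default then 0 else (eG a : ℕ) + 1 :=
    ⟨_, rfl⟩
  obtain ⟨st, hstdef⟩ : ∃ st : Λ → ℕ, st = fun q => (eL q : ℕ) + 1 := ⟨_, rfl⟩
  obtain ⟨m, hmdef⟩ : ∃ m : ℕ, m = nG + nL + 2 := ⟨_, rfl⟩
  have hg : g default = 0 := by rw [hgdef]; simp
  have hgm : ∀ a, g a < m := by
    intro a
    have := (eG a).2
    rw [hgdef]
    simp only
    split_ifs <;> omega
  have hsm : ∀ q, st q < m := by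
    intro q
    have := (eL q).2
    rw [hstdef]
    simp only
    omega
  have hs1 : ∀ q, 1 ≤ st q := by
    intro q
    rw [hstdef]
    simp only
    omega
  have hsi : Function.Injective st := by
    intro q q' h
    rw [hstdef] at h
    simp only at h
    exact eL.injective (Fin.ext (by omega))
  have hgi : Function.Injective g := by
    intro a a' h
    rw [hgdef] at h
    simp only at h
    by_cases h1 : a = default
    · by_cases h2 : a' = default
      · rw [h1, h2]
      · rw [if_pos h1, if_neg h2] at h
        omega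
    · by_cases h2 : a' = default
      · rw [if_neg h1, if_pos h2] at h
        omega
      · rw [if_neg h1, if_neg h2] at h
        exact eG.injective (Fin.ext (by omega))
  obtain ⟨n, ⟨e⟩⟩ := Finite.exists_equiv_fin ((Λ × Γ × Γ) ⊕ (Fin m × Fin m))
  have hH : Hzero (fun i => rl M m g st (e.symm i)) = HH M m g st := by
    ext ω
    unfold Hzero HH
    constructor
    · intro h P h0 hP
      exact h P h0 fun i u v => hP (e.symm i) u v
    · intro h P h0 hP
      refine h P h0 fun x u v => ?_
      have := hP (e x) u v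
      simp only [Equiv.symm_apply_apply] at this
      exact this
  have hPos : ∀ x, (rl M m g st x).Pos := by
    have hm0 : 1 ≤ m := by omega
    have hmm : 1 ≤ m * m := Nat.mul_pos hm0 hm0
    rintro (⟨q, a, l⟩ | ⟨l, a⟩)
    · rcases hq : M q a with _ | ⟨q', d | b⟩
      · rw [rl_none hq]
        exact ⟨hm0, hm0, hm0, hm0⟩
      · rcases d with _ | _
        · rw [rl_left hq]
          exact ⟨hmm, hm0, hm0, hmm⟩
        · rw [rl_right hq]
          exact ⟨hm0, hm0, hmm, le_rfl⟩
      · rw [rl_write hq]
        exact ⟨hm0, hm0, hm0, hm0⟩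
    · rw [rl_erase]
      exact ⟨hmm, hm0, hm0, le_rfl⟩
  refine ⟨n, fun i => rl M m g st (e.symm i), fun _ => st default,
    fun k => m * codL m g ((bitsB k).reverse.map F) + g s, fun i => hPos _, Computable.const _, ?_, ?_⟩
  · have h1 : ∀ l : List Bool, codL m g (l.map F) =
        l.foldr (fun b c => g (F b) + m * c) 0 := by
      intro l
      induction l with
      | nil => rfl
      | cons b l ih =>
        rw [List.map_cons, List.foldr_cons]
        simp only [codL]
        rw [ih]
    have h2 : Primrec fun l : List Bool => l.foldr (fun b c => g (F b) + m * c) 0 := by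
      refine Primrec.list_foldr (f := fun l : List Bool => l) (g := fun _ => 0)
        (h := fun _ p => g (F p.1) + m * p.2) Primrec.id (Primrec.const 0) ?_
      refine Primrec.nat_add.comp ?_ ?_
      · exact (Primrec.dom_finite (fun b : Bool => g (F b))).comp
          (Primrec.fst.comp Primrec.snd)
      · exact Primrec.nat_mul.comp (Primrec.const m) (Primrec.snd.comp Primrec.snd)
    have h3 : Primrec fun k : ℕ => m * codL m g ((bitsB k).reverse.map F) + g s := by
      refine Primrec.nat_add.comp (Primrec.nat_mul.comp (Primrec.const m) ?_) (Primrec.const _)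
      refine (h2.comp (Primrec.list_reverse.comp primrec_bitsB)).of_eq fun k => ?_
      exact (h1 _).symm
    exact h3.to_comp
  · intro hc
    refine univF_undecidable (hc.of_eq fun k => ?_)
    rw [hH]
    have h1 : (((st default : ℕ) : ℤ), ((m * codL m g ((bitsB k).reverse.map F) + g s : ℕ) : ℤ)) =
        enc m g hg st (TM0.init (s :: (bitsB k).reverse.map F) : TM0.Cfg Γ Λ) := by
      unfold enc TM0.init Tape.mk₁ Tape.mk₂ Tape.mk'
      simp only
      refine Prod.ext ?_ ?_
      · simp only
        rw [codB_mk]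
        simp [codL]
      · simp only
        have e1 : (ListBlank.mk (s :: (bitsB k).reverse.map F)).tail =
            ListBlank.mk ((bitsB k).reverse.map F) := rfl
        have e2 : (ListBlank.mk (s :: (bitsB k).reverse.map F)).head = s := rfl
        rw [e1, e2, codB_mk]
        push_cast
        ring
    rw [h1, ← hM k]
    constructor
    · intro h
      exact halts_of_enc_mem hg hgi hgm hsi hsm hs1 h
    · intro h
      exact enc_mem_of_halts hg (by omega) h

end Pool.Agent.Occ
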