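import Pool.Agent.Lib.Occ.Defs
import Pool.Agent.Lib.Occ.Base
import Pool.Agent.Lib.Occ.Mach

/-!
A finitely presented group with undecidable word problem (Novikov, Boone), by the method of Aanderaa and Cohen.

Take `n, ru, α, β` from `exists_machine`. `e = 4 + n`, generators `x, y, t, k, r_i`. Relators: `[x, y]`; `r_i x^m1 r_i⁻¹ x^(-n1)`; `r_i y^m2 r_i⁻¹ y^(-n2)`;
`r_i tt(a1,a2) r_i⁻¹ tt(c1,c2)⁻¹`; `[k, t]`; `[k, r_i]` (a `Finset`). In the quotient group `U = FreeGroup (Fin e) / normalClosure R`:
(1) if `ω ∈ Hzero ru` then `k` commutes with `tt x y t ω`: apply the definition of `Hzero` to `P ω := Commute k (tt x y t ω)` in `U`: `tt (0,0) = t`; and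
`r_i tt(src u v) r_i⁻¹ = tt(tgt u v)` (as `x, y` commute, `tt(m1 u + a1, m2 v + a2) = (x^m1)^u (y^m2)^v tt(a1,a2) (...)⁻¹`), `k` commutes with `r_i`.
(2) if `ω ∉ Hzero ru` then `[k, tt ω] ≠ 1` in `U`: `H0 = Hzero ru` satisfies `src ∈ H0 ↔ tgt ∈ H0` (immediate from the definition); `base_rep` gives `K, x, y, t, r, S`; let `K` act on
`Ω = (K ⧸ S) × Bool` (left multiplication on the first factor, `MulAction.toPermHom`), `k ↦ Equiv.swap (S, false) (S, true)`. All relators die: elements of `S` (`t = tt (0,0)` with `(0,0) ∈ H0`, and `r_i`) fix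
the coset `S`, so they commute with the swap. If `g ∉ S` then `g (S, false) ≠ (S, false), (S, true)`, so `g` does not commute with the swap. Apply with `g = tt ω`. So the word is not in the normal closure
(`FreeGroup.lift` to `Equiv.Perm Ω` kills the normal closure: `Subgroup.normalClosure_le_normal` for its kernel).
(3) The word `k tt(α j, β j) k⁻¹ tt(α j, β j)⁻¹` as a list is a computable function of `j` (`List.replicate (α j) _` = `(List.range (α j)).map fun _ => _`, `Computable`, `Primrec.list_range`, `list_map`, `list_append`);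
`FreeGroup.mk` of the concatenation is the product. So `ComputablePred (WP e R)` would give `ComputablePred` of the set of `exists_machine`.
-/

set_option autoImplicit false

namespace Pool.Agent.Occ

namespace PresAux

theorem tt_zero {K : Type*} [Group K] (x y t : K) : tt x y t (0, 0) = t := by
  simp [tt]

theorem tt_affine {K : Type*} [Group K] (x y t : K) (hxy : x * y = y * x) (m1 m2 : ℕ) (a1 a2 u v : ℤ) :
    tt x y t (m1 * u + a1, m2 * v + a2) =
      ((x ^ m1) ^ u * (y ^ m2) ^ v) * tt x y t (a1, a2) * ((x ^ m1) ^ u * (y ^ m2) ^ v)⁻¹ := by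
  have hc : Commute x y := hxy
  have e1 : x ^ (m1 * u + a1) * y ^ (m2 * v + a2) =
      ((x ^ m1) ^ u * (y ^ m2) ^ v) * (x ^ a1 * y ^ a2) := by
    rw [zpow_add, zpow_add, zpow_mul, zpow_mul, zpow_natCast, zpow_natCast]
    have h : Commute ((y ^ m2) ^ v) (x ^ a1) :=
      (((hc.symm.pow_left m2).zpow_left v).zpow_right a1)
    calc (x ^ m1) ^ u * x ^ a1 * ((y ^ m2) ^ v * y ^ a2)
        = (x ^ m1) ^ u * (x ^ a1 * (y ^ m2) ^ v) * y ^ a2 := by group
      _ = (x ^ m1) ^ u * ((y ^ m2) ^ v * x ^ a1) * y ^ a2 := by rw [h.eq]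
      _ = _ := by group
  unfold tt
  simp only
  rw [e1]
  group

theorem commute_tt {K : Type*} [Group K] {n : ℕ} (ru : Fin n → Rule) (x y t k : K) (r : Fin n → K)
    (hxy : x * y = y * x)
    (h1 : ∀ i, r i * x ^ (ru i).m1 * (r i)⁻¹ = x ^ (ru i).n1)
    (h2 : ∀ i, r i * y ^ (ru i).m2 * (r i)⁻¹ = y ^ (ru i).n2)
    (h3 : ∀ i, r i * tt x y t ((ru i).a1, (ru i).a2) * (r i)⁻¹ = tt x y t ((ru i).c1, (ru i).c2))
    (hkt : k * t = t * k) (hkr : ∀ i, k * r i = r i * k) :
    ∀ ω ∈ Hzero ru, k * tt x y t ω = tt x y t ω * k := by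
  intro ω hω
  refine hω (fun ω => k * tt x y t ω = tt x y t ω * k) ?_ ?_
  · rw [tt_zero]
    exact hkt
  · intro i u v
    have e : tt x y t ((ru i).tgt u v) = r i * tt x y t ((ru i).src u v) * (r i)⁻¹ := by
      unfold Rule.tgt Rule.src
      rw [tt_affine x y t hxy, tt_affine x y t hxy, ← h1 i, ← h2 i, ← h3 i, conj_zpow, conj_zpow]
      group
    rw [e]
    have hc : Commute k (r i) := hkr i
    constructor
    · intro h
      have h' : Commute k (tt x y t ((ru i).src u v)) := h
      exact ((hc.mul_right h').mul_right hc.inv_right).eq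
    · intro h
      have h' : Commute k (r i * tt x y t ((ru i).src u v) * (r i)⁻¹) := h
      have h2' := (hc.inv_right.mul_right h').mul_right hc
      have e2 : (r i)⁻¹ * (r i * tt x y t ((ru i).src u v) * (r i)⁻¹) * r i =
          tt x y t ((ru i).src u v) := by group
      rw [e2] at h2'
      exact h2'.eq

/-! ### the swap -/

/-- left multiplication on the cosets, twice -/
def act {K : Type*} [Group K] (S : Subgroup K) : K →* Equiv.Perm ((K ⧸ S) × Bool) where
  toFun g :=
    { toFun := fun p => (g • p.1, p.2)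
      invFun := fun p => (g⁻¹ • p.1, p.2)
      left_inv := fun p => by simp
      right_inv := fun p => by simp }
  map_one' := Equiv.ext fun p => Prod.ext (one_smul K p.1) rfl
  map_mul' g h := Equiv.ext fun p => Prod.ext (mul_smul g h p.1) rfl

open Classical in
/-- the transposition of the two copies of the base coset -/
noncomputable def kap {K : Type*} [Group K] (S : Subgroup K) : Equiv.Perm ((K ⧸ S) × Bool) :=
  Equiv.swap (((1 : K) : K ⧸ S), false) (((1 : K) : K ⧸ S), true)

theorem act_apply {K : Type*} [Group K] (S : Subgroup K) (g : K) (p : (K ⧸ S) × Bool) :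
    act S g p = (g • p.1, p.2) := rfl

theorem act_one {K : Type*} [Group K] (S : Subgroup K) (g : K) (b : Bool) :
    act S g (((1 : K) : K ⧸ S), b) = ((g : K ⧸ S), b) := by
  rw [act_apply]
  simp only [MulAction.Quotient.smul_coe, smul_eq_mul, mul_one]

theorem kap_comm_iff {K : Type*} [Group K] (S : Subgroup K) (g : K) :
    kap S * act S g = act S g * kap S ↔ g ∈ S := by
  classical
  have e : act S g * kap S = Equiv.swap ((g : K ⧸ S), false) ((g : K ⧸ S), true) * act S g := by
    unfold kap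
    rw [Equiv.mul_swap_eq_swap_mul, act_one, act_one]
  rw [e, mul_left_inj]
  constructor
  · intro h
    have h1 := congrArg (fun f : Equiv.Perm ((K ⧸ S) × Bool) => f ((g : K ⧸ S), false)) h
    simp only [Equiv.swap_apply_left] at h1
    by_contra hg
    have hne : (g : K ⧸ S) ≠ ((1 : K) : K ⧸ S) := by
      intro h2
      apply hg
      have h3 := QuotientGroup.eq.1 h2.symm
      simpa using h3
    unfold kap at h1
    rw [Equiv.swap_apply_of_ne_of_ne] at h1
    · have := congrArg Prod.snd h1
      simp at this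
    · intro h4
      exact hne (congrArg Prod.fst h4)
    · intro h4
      exact hne (congrArg Prod.fst h4)
  · intro hg
    have h2 : (g : K ⧸ S) = ((1 : K) : K ⧸ S) := by
      rw [QuotientGroup.eq]
      simpa using S.inv_mem hg
    rw [h2]
    rfl

/-! ### the presentation -/

section
variable (n : ℕ) (ru : Fin n → Rule)

/-- generators -/
def gx : FreeGroup (Fin (4 + n)) := FreeGroup.of (Fin.castAdd n 0)
def gy : FreeGroup (Fin (4 + n)) := FreeGroup.of (Fin.castAdd n 1)
def gt : FreeGroup (Fin (4 + n)) := FreeGroup.of (Fin.castAdd n 2)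
def gk : FreeGroup (Fin (4 + n)) := FreeGroup.of (Fin.castAdd n 3)
def gr (i : Fin n) : FreeGroup (Fin (4 + n)) := FreeGroup.of (Fin.natAdd 4 i)

/-- relators -/
def rels : Finset (FreeGroup (Fin (4 + n))) :=
  {gx n * gy n * (gy n * gx n)⁻¹, gk n * gt n * (gt n * gk n)⁻¹} ∪
  (Finset.univ.image fun i => gr n i * gx n ^ (ru i).m1 * (gr n i)⁻¹ * (gx n ^ (ru i).n1)⁻¹) ∪
  (Finset.univ.image fun i => gr n i * gy n ^ (ru i).m2 * (gr n i)⁻¹ * (gy n ^ (ru i).n2)⁻¹) ∪
  (Finset.univ.image fun i => gr n i * tt (gx n) (gy n) (gt n) ((ru i).a1, (ru i).a2) * (gr n i)⁻¹ *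
    (tt (gx n) (gy n) (gt n) ((ru i).c1, (ru i).c2))⁻¹) ∪
  (Finset.univ.image fun i => gk n * gr n i * (gr n i * gk n)⁻¹)

theorem map_tt {G H : Type*} [Group G] [Group H] (f : G →* H) (x y t : G) (ω : ℤ × ℤ) :
    f (tt x y t ω) = tt (f x) (f y) (f t) ω := by
  unfold tt
  simp only [map_mul, map_zpow, map_inv]

/-- a homomorphism kills the relators iff the relations hold -/
theorem kills_iff {H : Type*} [Group H] (f : FreeGroup (Fin (4 + n)) →* H) :
    (∀ r ∈ rels n ru, f r = 1) ↔
      (f (gx n) * f (gy n) = f (gy n) * f (gx n) ∧ f (gk n) * f (gt n) = f (gt n) * f (gk n) ∧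
      (∀ i, f (gr n i) * f (gx n) ^ (ru i).m1 * (f (gr n i))⁻¹ = f (gx n) ^ (ru i).n1) ∧
      (∀ i, f (gr n i) * f (gy n) ^ (ru i).m2 * (f (gr n i))⁻¹ = f (gy n) ^ (ru i).n2) ∧
      (∀ i, f (gr n i) * tt (f (gx n)) (f (gy n)) (f (gt n)) ((ru i).a1, (ru i).a2) * (f (gr n i))⁻¹ =
        tt (f (gx n)) (f (gy n)) (f (gt n)) ((ru i).c1, (ru i).c2)) ∧
      ∀ i, f (gk n) * f (gr n i) = f (gr n i) * f (gk n)) := by
  unfold rels
  simp only [Finset.mem_union, Finset.mem_image, Finset.mem_insert, Finset.mem_singleton,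
    Finset.mem_univ, true_and]
  constructor
  · intro h
    refine ⟨?_, ?_, fun i => ?_, fun i => ?_, fun i => ?_, fun i => ?_⟩
    · have := h _ (Or.inl (Or.inl (Or.inl (Or.inl (Or.inl rfl)))))
      simp only [map_mul, map_inv] at this
      exact mul_inv_eq_one.1 this
    · have := h _ (Or.inl (Or.inl (Or.inl (Or.inl (Or.inr rfl)))))
      simp only [map_mul, map_inv] at this
      exact mul_inv_eq_one.1 this
    · have := h _ (Or.inl (Or.inl (Or.inl (Or.inr ⟨i, rfl⟩))))
      simp only [map_mul, map_inv, map_pow] at this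
      exact mul_inv_eq_one.1 this
    · have := h _ (Or.inl (Or.inl (Or.inr ⟨i, rfl⟩)))
      simp only [map_mul, map_inv, map_pow] at this
      exact mul_inv_eq_one.1 this
    · have := h _ (Or.inl (Or.inr ⟨i, rfl⟩))
      simp only [map_mul, map_inv, map_tt] at this
      exact mul_inv_eq_one.1 this
    · have := h _ (Or.inr ⟨i, rfl⟩)
      simp only [map_mul, map_inv] at this
      exact mul_inv_eq_one.1 this
  · rintro ⟨h1, h2, h3, h4, h5, h6⟩ r hr
    rcases hr with ((((( rfl | rfl) | ⟨i, rfl⟩) | ⟨i, rfl⟩) | ⟨i, rfl⟩) | ⟨i, rfl⟩)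
    · simp only [map_mul, map_inv]
      exact mul_inv_eq_one.2 h1
    · simp only [map_mul, map_inv]
      exact mul_inv_eq_one.2 h2
    · simp only [map_mul, map_inv, map_pow]
      exact mul_inv_eq_one.2 (h3 i)
    · simp only [map_mul, map_inv, map_pow]
      exact mul_inv_eq_one.2 (h4 i)
    · simp only [map_mul, map_inv, map_tt]
      exact mul_inv_eq_one.2 (h5 i)
    · simp only [map_mul, map_inv]
      exact mul_inv_eq_one.2 (h6 i)

/-- the test word -/
def testw (ω : ℤ × ℤ) : FreeGroup (Fin (4 + n)) :=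
  gk n * tt (gx n) (gy n) (gt n) ω * (tt (gx n) (gy n) (gt n) ω * gk n)⁻¹

theorem testw_mem_iff (hpos : ∀ i, (ru i).Pos) (ω : ℤ × ℤ) :
    testw n ω ∈ Subgroup.normalClosure (rels n ru : Set (FreeGroup (Fin (4 + n)))) ↔ ω ∈ Hzero ru := by
  constructor
  · intro h
    obtain ⟨K, iK, x, y, t, r, S, hxy, hr1, hr2, hr3, hrS, hS⟩ := base_rep n ru hpos (Hzero ru)
      (fun i u v => ⟨fun h P hP0 hP => (hP i u v).1 (h P hP0 hP), fun h P hP0 hP => (hP i u v).2 (h P hP0 hP)⟩)
    set f : FreeGroup (Fin (4 + n)) →* Equiv.Perm ((K ⧸ S) × Bool) :=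
      FreeGroup.lift (Fin.append ![act S x, act S y, act S t, kap S] (fun i => act S (r i))) with hf
    have fx : f (gx n) = act S x := by
      simp only [hf, gx, FreeGroup.lift_apply_of, Fin.append_left]
      rfl
    have fy : f (gy n) = act S y := by
      simp only [hf, gy, FreeGroup.lift_apply_of, Fin.append_left]
      rfl
    have ft : f (gt n) = act S t := by
      simp only [hf, gt, FreeGroup.lift_apply_of, Fin.append_left]
      rfl
    have fk : f (gk n) = kap S := by
      simp only [hf, gk, FreeGroup.lift_apply_of, Fin.append_left]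
      rfl
    have fr : ∀ i, f (gr n i) = act S (r i) := by
      intro i
      simp only [hf, gr, FreeGroup.lift_apply_of, Fin.append_right]
    have htS : t ∈ S := by
      have := (hS (0, 0)).2 (fun P hP0 _ => hP0)
      rwa [tt_zero] at this
    have hkill : ∀ r ∈ rels n ru, f r = 1 := by
      rw [kills_iff]
      rw [fx, fy, ft, fk]
      simp only [fr]
      refine ⟨?_, ?_, fun i => ?_, fun i => ?_, fun i => ?_, fun i => ?_⟩
      · rw [← map_mul, hxy, map_mul]
      · exact (kap_comm_iff S t).2 htS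
      · rw [← map_pow, ← map_pow, ← map_inv, ← map_mul, ← map_mul, hr1 i]
      · rw [← map_pow, ← map_pow, ← map_inv, ← map_mul, ← map_mul, hr2 i]
      · rw [← map_tt, ← map_tt, ← map_inv, ← map_mul, ← map_mul, hr3 i]
      · exact (kap_comm_iff S (r i)).2 (hrS i)
    have hker : Subgroup.normalClosure (rels n ru : Set (FreeGroup (Fin (4 + n)))) ≤ f.ker :=
      Subgroup.normalClosure_le_normal fun r hr => MonoidHom.mem_ker.2 (hkill r hr)
    have h1 := MonoidHom.mem_ker.1 (hker h)
    unfold testw at h1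
    simp only [map_mul, map_inv, map_tt] at h1
    rw [fx, fy, ft, fk, ← map_tt] at h1
    have h2 := mul_inv_eq_one.1 h1
    exact (hS ω).1 ((kap_comm_iff S _).1 h2)
  · intro hω
    set NC := Subgroup.normalClosure (rels n ru : Set (FreeGroup (Fin (4 + n)))) with hNC
    set f : FreeGroup (Fin (4 + n)) →* FreeGroup (Fin (4 + n)) ⧸ NC := QuotientGroup.mk' NC with hf
    have hkill : ∀ r ∈ rels n ru, f r = 1 := by
      intro r hr
      exact (QuotientGroup.eq_one_iff r).2 (Subgroup.subset_normalClosure hr)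
    rw [kills_iff] at hkill
    obtain ⟨h1, h2, h3, h4, h5, h6⟩ := hkill
    have h7 := commute_tt ru (f (gx n)) (f (gy n)) (f (gt n)) (f (gk n)) (fun i => f (gr n i)) h1 h3 h4 h5 h2
      h6 ω hω
    rw [← map_tt, ← map_mul, ← map_mul] at h7
    have h8 : f (testw n ω) = 1 := by
      unfold testw
      rw [map_mul, map_inv, h7, mul_inv_cancel]
    exact (QuotientGroup.eq_one_iff _).1 h8

/-! ### the word -/

/-- the list of `a` copies of `z` -/
def rep (z : Fin (4 + n) × Bool) (a : ℕ) : List (Fin (4 + n) × Bool) := (List.range a).map fun _ => z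

theorem mk_rep (z : Fin (4 + n)) (a : ℕ) : FreeGroup.mk (rep n (z, true) a) = FreeGroup.of z ^ a := by
  unfold rep
  induction a with
  | zero => rfl
  | succ a ih =>
    rw [List.range_succ, List.map_append, ← FreeGroup.mul_mk, ih, pow_succ]
    rfl

theorem mk_rep' (z : Fin (4 + n)) (a : ℕ) : FreeGroup.mk (rep n (z, false) a) = (FreeGroup.of z ^ a)⁻¹ := by
  unfold rep
  induction a with
  | zero => rfl
  | succ a ih =>
    rw [List.range_succ, List.map_append, ← FreeGroup.mul_mk, ih, pow_succ', mul_inv_rev]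
    rfl

/-- the word of `tt` -/
def wt (b : Bool) (α β : ℕ) : List (Fin (4 + n) × Bool) :=
  rep n (Fin.castAdd n 0, true) α ++ (rep n (Fin.castAdd n 1, true) β ++ ([(Fin.castAdd n 2, b)] ++
    (rep n (Fin.castAdd n 1, false) β ++ rep n (Fin.castAdd n 0, false) α)))

theorem mk_wt_true (α β : ℕ) : FreeGroup.mk (wt n true α β) = tt (gx n) (gy n) (gt n) ((α : ℤ), (β : ℤ)) := by
  unfold wt tt
  simp only [← FreeGroup.mul_mk, mk_rep, mk_rep', zpow_natCast]
  show gx n ^ α * (gy n ^ β * (gt n * ((gy n ^ β)⁻¹ * (gx n ^ α)⁻¹))) = _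
  group

theorem mk_wt_false (α β : ℕ) :
    FreeGroup.mk (wt n false α β) = (tt (gx n) (gy n) (gt n) ((α : ℤ), (β : ℤ)))⁻¹ := by
  unfold wt tt
  simp only [← FreeGroup.mul_mk, mk_rep, mk_rep', zpow_natCast]
  show gx n ^ α * (gy n ^ β * ((gt n)⁻¹ * ((gy n ^ β)⁻¹ * (gx n ^ α)⁻¹))) = _
  group

/-- the test word as a list -/
def tw (α β : ℕ) : List (Fin (4 + n) × Bool) :=
  [(Fin.castAdd n 3, true)] ++ (wt n true α β ++ ([(Fin.castAdd n 3, false)] ++ wt n false α β))

theorem mk_tw (α β : ℕ) : FreeGroup.mk (tw n α β) = testw n ((α : ℤ), (β : ℤ)) := by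
  unfold tw testw
  simp only [← FreeGroup.mul_mk, mk_wt_true, mk_wt_false]
  show gk n * (tt (gx n) (gy n) (gt n) ((α : ℤ), (β : ℤ)) * ((gk n)⁻¹ *
    (tt (gx n) (gy n) (gt n) ((α : ℤ), (β : ℤ)))⁻¹)) = _
  group

theorem computable_rep (z : Fin (4 + n) × Bool) {α : ℕ → ℕ} (hα : Computable α) :
    Computable fun j => rep n z (α j) := by
  have h1 : Primrec fun a : ℕ => rep n z a := by
    unfold rep
    exact Primrec.list_map Primrec.list_range (Primrec.const z).to₂
  exact h1.to_comp.comp hα

theorem computable_wt (b : Bool) {α β : ℕ → ℕ} (hα : Computable α) (hβ : Computable β) :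
    Computable fun j => wt n b (α j) (β j) := by
  unfold wt
  exact Computable.list_append.comp (computable_rep n _ hα)
    (Computable.list_append.comp (computable_rep n _ hβ)
      (Computable.list_append.comp (Computable.const _)
        (Computable.list_append.comp (computable_rep n _ hβ) (computable_rep n _ hα))))

theorem computable_tw {α β : ℕ → ℕ} (hα : Computable α) (hβ : Computable β) :
    Computable fun j => tw n (α j) (β j) := by
  unfold tw
  exact Computable.list_append.comp (Computable.const _)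
    (Computable.list_append.comp (computable_wt n _ hα hβ)
      (Computable.list_append.comp (Computable.const _) (computable_wt n _ hα hβ)))

end

end PresAux

open PresAux in
theorem exists_undecidable : ∃ (e : ℕ) (R : Finset (FreeGroup (Fin e))), ¬ ComputablePred (WP e R) := by
  obtain ⟨n, ru, α, β, hpos, hα, hβ, hund⟩ := exists_machine
  refine ⟨4 + n, rels n ru, fun h => hund ?_⟩
  have h1 : ComputablePred fun k : ℕ => WP (4 + n) (rels n ru) (tw n (α k) (β k)) := by
    obtain ⟨f, hf, he⟩ := ComputablePred.computable_iff.1 h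
    refine ComputablePred.computable_iff.2 ⟨fun k => f (tw n (α k) (β k)),
      hf.comp (computable_tw n hα hβ), ?_⟩
    funext k
    exact congrFun he _
  have e : (fun k : ℕ => (((α k : ℕ) : ℤ), ((β k : ℕ) : ℤ)) ∈ Hzero ru) =
      fun k : ℕ => WP (4 + n) (rels n ru) (tw n (α k) (β k)) := by
    funext k
    unfold WP
    rw [mk_tw]
    exact propext (testw_mem_iff n ru hpos _).symm
  rw [e]
  exact h1

end Pool.Agent.Occ
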