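import Pool.Agent.Lib.Occ.Defs

/-!
Computability: if the word problem `WP e R` reduces to membership in a fixed finitely generated subgroup of `F_n ⋊ F_n`, and it is undecidable, then the occurrence problem is undecidable.

Every element of the semidirect product is `FreeGroup.lift (Sum.elim ...) (mk w)` for some word `w` (the images of `inl (of i)`, `inr (of i)` generate: `SemidirectProduct.inl_left_mul_inr_right`). So fix a list `Ls` of words
for the elements of the finite set `S` (`S.Finite.toFinset.toList`) and words `B i` for the `b i`. The substitution `w ↦ w.flatMap (fun (i, ε) => if ε then B i else inverse word of B i)` is computable (`Computable`/`Primrec.list_flatMap`,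
finite function), and `lift ... (mk (subst w)) = lift b (mk w)`. So `ComputablePred (Occur n φ)` composed with the computable map `w ↦ (Ls, subst w)` gives `ComputablePred (WP e R)`
(`ComputablePred.computable_of_manyOneReducible` or unfold).
-/

set_option autoImplicit false

namespace Pool.Agent.Occ

/-- the evaluation of words in the semidirect product is surjective -/
theorem transfer_surj {n : ℕ} (φ : FreeGroup (Fin n) →* MulAut (FreeGroup (Fin n)))
    (g : SemidirectProduct (FreeGroup (Fin n)) (FreeGroup (Fin n)) φ) :
    ∃ w : List ((Fin n ⊕ Fin n) × Bool), FreeGroup.lift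
      (Sum.elim
        (fun i : Fin n =>
          (SemidirectProduct.inl (FreeGroup.of i) :
            SemidirectProduct (FreeGroup (Fin n)) (FreeGroup (Fin n)) φ))
        (fun i : Fin n =>
          (SemidirectProduct.inr (FreeGroup.of i) :
            SemidirectProduct (FreeGroup (Fin n)) (FreeGroup (Fin n)) φ)))
      (FreeGroup.mk w) = g := by
  set ge : Fin n ⊕ Fin n → SemidirectProduct (FreeGroup (Fin n)) (FreeGroup (Fin n)) φ :=
    Sum.elim
        (fun i : Fin n =>
          (SemidirectProduct.inl (FreeGroup.of i) :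
            SemidirectProduct (FreeGroup (Fin n)) (FreeGroup (Fin n)) φ))
        (fun i : Fin n =>
          (SemidirectProduct.inr (FreeGroup.of i) :
            SemidirectProduct (FreeGroup (Fin n)) (FreeGroup (Fin n)) φ)) with hge
  have h1 : (FreeGroup.lift ge).comp (FreeGroup.map Sum.inl) =
      (SemidirectProduct.inl : FreeGroup (Fin n) →* SemidirectProduct _ _ φ) := by
    ext i <;> simp [hge]
  have h2 : (FreeGroup.lift ge).comp (FreeGroup.map Sum.inr) =
      (SemidirectProduct.inr : FreeGroup (Fin n) →* SemidirectProduct _ _ φ) := by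
    ext i <;> simp [hge]
  obtain ⟨w, hw⟩ := Quot.exists_rep
    (FreeGroup.map (Sum.inl : Fin n → Fin n ⊕ Fin n) g.left *
      FreeGroup.map (Sum.inr : Fin n → Fin n ⊕ Fin n) g.right)
  refine ⟨w, ?_⟩
  have hw' : FreeGroup.mk w = FreeGroup.map (Sum.inl : Fin n → Fin n ⊕ Fin n) g.left *
      FreeGroup.map (Sum.inr : Fin n → Fin n ⊕ Fin n) g.right := hw
  rw [hw', map_mul]
  have e1 := DFunLike.congr_fun h1 g.left
  have e2 := DFunLike.congr_fun h2 g.right
  simp only [MonoidHom.comp_apply] at e1 e2
  rw [e1, e2]
  exact SemidirectProduct.inl_left_mul_inr_right g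

theorem transfer {n : ℕ} (φ : FreeGroup (Fin n) →* MulAut (FreeGroup (Fin n))) (e : ℕ)
    (R : Finset (FreeGroup (Fin e))) (hU : ¬ ComputablePred (WP e R))
    (S : Set (SemidirectProduct (FreeGroup (Fin n)) (FreeGroup (Fin n)) φ)) (hS : S.Finite)
    (b : Fin e → SemidirectProduct (FreeGroup (Fin n)) (FreeGroup (Fin n)) φ)
    (h : ∀ w : FreeGroup (Fin e), FreeGroup.lift b w ∈ Subgroup.closure S ↔
      w ∈ Subgroup.normalClosure (R : Set (FreeGroup (Fin e)))) :
    ¬ ComputablePred (Occur n φ) := by
  intro hO
  apply hU
  choose W hW using transfer_surj φ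
  set ge : Fin n ⊕ Fin n → SemidirectProduct (FreeGroup (Fin n)) (FreeGroup (Fin n)) φ :=
    Sum.elim
        (fun i : Fin n =>
          (SemidirectProduct.inl (FreeGroup.of i) :
            SemidirectProduct (FreeGroup (Fin n)) (FreeGroup (Fin n)) φ))
        (fun i : Fin n =>
          (SemidirectProduct.inr (FreeGroup.of i) :
            SemidirectProduct (FreeGroup (Fin n)) (FreeGroup (Fin n)) φ)) with hge
  let Ls : List (List ((Fin n ⊕ Fin n) × Bool)) := hS.toFinset.toList.map W
  let sg : Fin e × Bool → List ((Fin n ⊕ Fin n) × Bool) :=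
    fun p => cond p.2 (W (b p.1)) (FreeGroup.invRev (W (b p.1)))
  let su : List (Fin e × Bool) → List ((Fin n ⊕ Fin n) × Bool) := fun w => w.flatMap sg
  have hsu : ∀ w, FreeGroup.lift ge (FreeGroup.mk (su w)) = FreeGroup.lift b (FreeGroup.mk w) := by
    intro w
    induction w with
    | nil =>
      change FreeGroup.lift ge (FreeGroup.mk []) = FreeGroup.lift b (FreeGroup.mk [])
      rw [← FreeGroup.one_eq_mk, ← FreeGroup.one_eq_mk, map_one, map_one]
    | cons p w ih =>
      have e1 : su (p :: w) = sg p ++ su w := by simp [su]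
      have e2 : FreeGroup.mk (p :: w) = FreeGroup.mk [p] * FreeGroup.mk w := by
        rw [FreeGroup.mul_mk]; rfl
      rw [e1, ← FreeGroup.mul_mk, map_mul, ih, e2, map_mul]
      congr 1
      obtain ⟨i, ε⟩ := p
      cases ε with
      | true =>
        change FreeGroup.lift ge (FreeGroup.mk (W (b i))) = _
        rw [hW]
        simp
      | false =>
        change FreeGroup.lift ge (FreeGroup.mk (FreeGroup.invRev (W (b i)))) = _
        rw [← FreeGroup.inv_mk, map_inv, hW]
        simp
  have hset : {g : SemidirectProduct (FreeGroup (Fin n)) (FreeGroup (Fin n)) φ |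
        ∃ w ∈ Ls, FreeGroup.lift ge (FreeGroup.mk w) = g} = S := by
    ext g
    simp only [Set.mem_ofPred_eq, Ls, List.mem_map, Finset.mem_toList, Set.Finite.mem_toFinset]
    constructor
    · rintro ⟨w, ⟨s, hs, rfl⟩, hw⟩
      rw [hW] at hw
      rwa [← hw]
    · intro hg
      exact ⟨W g, ⟨g, hg, rfl⟩, hW g⟩
  have hred : ∀ w, WP e R w ↔ Occur n φ (Ls, su w) := by
    intro w
    unfold WP Occur
    rw [← h (FreeGroup.mk w), ← hsu w]
    simp only [← hge]
    rw [hset]
  have hcomp : Computable (fun w : List (Fin e × Bool) => (Ls, su w)) := by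
    refine (Computable.const Ls).pair ?_
    apply Primrec.to_comp
    exact Primrec.list_flatMap Primrec.id ((Primrec.dom_finite sg).comp Primrec.snd).to₂
  exact ComputablePred.computable_of_manyOneReducible ⟨_, hcomp, hred⟩ hO

end Pool.Agent.Occ
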