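import Pool.Agent.Lib.Occ.Defs
import Pool.Agent.Lib.Occ.Pres
import Pool.Agent.Lib.Occ.Invol
import Pool.Agent.Lib.Occ.Dominate
import Pool.Agent.Lib.Occ.Transfer
import Pool.Agent.Lib.Occ.PowFree

/-!
Assembly. `τ j = t^j s^k t^(-j) ∈ FreeGroup (Fin n)` (`s = of 0`, `t = of 1`); `F j = inl (g j) * inr (τ j)` in `G = F_n ⋊[φ] F_n`, so `F j * inl x * (F j)⁻¹ = inl (g j * φ (τ j) x * (g j)⁻¹)`.
By `hN` conjugation by `F j` gives an automorphism of `N1` (`MulEquiv`, inverse by `hN` and surjectivity: `y ∈ N1` is the image of `(φ (τ j))⁻¹ ((g j)⁻¹ y (g j))`, which is in `N1` by `hN`); `lam : FreeGroup ℕ →* MulAut N1` the lift.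
`Λ : N1 ⋊[lam] FreeGroup ℕ →* G` by `SemidirectProduct.lift` (`inl ∘ subtype`, `FreeGroup.lift F`; compatibility on generators, then by induction on words). `Λ` is injective: the right component of `Λ (x, w)` is `lift τ w`, injective by `pow_free`;
if `w = 1` then `Λ (x, 1) = inl x`. `θ ∘ lam w = θ` by `hθg` and induction on the word.
Undecidable group: `exists_undecidable`, `invol`; `dominate` for `N1` (`Group.FG N1`) gives `S, b` in `N1 ⋊ F_∞`; push forward by `Λ` (`MonoidHom.map_closure`, injectivity); `transfer`.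
-/

set_option autoImplicit false

namespace Pool.Agent.Occ

namespace AssembleAux

/-- restriction of an automorphism to a subgroup it preserves -/
def restr {F : Type*} [Group F] (N : Subgroup F) (α : MulAut F) (h : ∀ x, α x ∈ N ↔ x ∈ N) :
    MulAut N where
  toFun x := ⟨α x, (h x).2 x.2⟩
  invFun y := ⟨α⁻¹ y, (h _).1 (by rw [MulAut.apply_inv_self]; exact y.2)⟩
  left_inv x := Subtype.ext (MulAut.inv_apply_self _ _ _)
  right_inv x := Subtype.ext (MulAut.apply_inv_self _ _ _)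
  map_mul' x y := Subtype.ext (map_mul α _ _)

theorem restr_apply {F : Type*} [Group F] (N : Subgroup F) (α : MulAut F)
    (h : ∀ x, α x ∈ N ↔ x ∈ N) (x : N) : restr N α h x = ⟨α x, (h x).2 x.2⟩ := rfl

/-- general form: `F`, `Q` groups, `f j = (g j, τ j)` in `F ⋊ Q`, `τ` free -/
theorem push {F Q : Type*} [Group F] [Group Q] (φ : Q →* MulAut F) (N : Subgroup F)
    {T : Type*} [Group T] (θ : N →* T) (g : ℕ → F) (τ : ℕ → Q)
    (hN : ∀ (j : ℕ) (x : F), g j * φ (τ j) x * (g j)⁻¹ ∈ N ↔ x ∈ N)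
    (hθg : ∀ (j : ℕ) (x : N), θ ⟨g j * φ (τ j) x * (g j)⁻¹, (hN j x).2 x.2⟩ = θ x)
    (hτ : Function.Injective (FreeGroup.lift τ)) :
    ∃ (lam : FreeGroup ℕ →* MulAut N) (Lam : N ⋊[lam] FreeGroup ℕ →* F ⋊[φ] Q),
      (∀ w n, θ (lam w n) = θ n) ∧ Function.Injective Lam := by
  have hal : ∀ j x, (MulAut.conj (g j) * φ (τ j)) x = g j * φ (τ j) x * (g j)⁻¹ := fun j x => rfl
  have hN' : ∀ j x, (MulAut.conj (g j) * φ (τ j)) x ∈ N ↔ x ∈ N := fun j x => hN j x
  set lam : FreeGroup ℕ →* MulAut N :=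
    FreeGroup.lift (fun j => restr N (MulAut.conj (g j) * φ (τ j)) (hN' j)) with hlam
  set f1 : N →* F ⋊[φ] Q := (SemidirectProduct.inl : F →* F ⋊[φ] Q).comp N.subtype with hf1
  set f2 : FreeGroup ℕ →* F ⋊[φ] Q :=
    FreeGroup.lift (fun j => (SemidirectProduct.inl (g j) * SemidirectProduct.inr (τ j) : F ⋊[φ] Q))
    with hf2
  have hθl : ∀ w n, θ (lam w n) = θ n := by
    intro w
    induction w using FreeGroup.induction_on with
    | C1 => intro n; rw [map_one]; rfl
    | of j =>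
      intro n
      rw [hlam, FreeGroup.lift_apply_of, restr_apply]
      exact hθg j n
    | inv_of j ih =>
      intro n
      have h1 := ih ((lam (FreeGroup.of j)⁻¹) n)
      rw [← h1, map_inv, MulAut.apply_inv_self]
    | mul x y hx hy =>
      intro n
      rw [map_mul, MulAut.mul_apply, hx, hy]
  have comp : ∀ w (n : N), f1 (lam w n) = f2 w * f1 n * (f2 w)⁻¹ := by
    intro w
    induction w using FreeGroup.induction_on with
    | C1 => intro n; rw [map_one, map_one]; simp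
    | of j =>
      intro n
      rw [hlam, hf2, FreeGroup.lift_apply_of, FreeGroup.lift_apply_of, restr_apply]
      show (SemidirectProduct.inl (g j * φ (τ j) n * (g j)⁻¹) : F ⋊[φ] Q) =
        SemidirectProduct.inl (g j) * SemidirectProduct.inr (τ j) * SemidirectProduct.inl (n : F) *
          (SemidirectProduct.inl (g j) * SemidirectProduct.inr (τ j))⁻¹
      rw [map_mul, map_mul, SemidirectProduct.inl_aut, mul_inv_rev, map_inv, map_inv]
      group
    | inv_of j ih =>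
      intro n
      have h1 := ih ((lam (FreeGroup.of j)⁻¹) n)
      rw [map_inv, MulAut.apply_inv_self] at h1
      rw [map_inv, h1, map_inv]
      group
    | mul x y hx hy =>
      intro n
      rw [map_mul, MulAut.mul_apply, hx, hy, map_mul]
      group
  have hcompat : ∀ w, f1.comp (lam w).toMonoidHom = (MulAut.conj (f2 w)).toMonoidHom.comp f1 := by
    intro w
    ext1 n
    exact comp w n
  set Lam : N ⋊[lam] FreeGroup ℕ →* F ⋊[φ] Q := SemidirectProduct.lift f1 f2 hcompat with hLam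
  refine ⟨lam, Lam, hθl, ?_⟩
  have hf2r : ∀ w, (f2 w).right = FreeGroup.lift τ w := by
    intro w
    have h : (SemidirectProduct.rightHom : F ⋊[φ] Q →* Q).comp f2 = FreeGroup.lift τ := by
      ext j
      simp [hf2]
    exact DFunLike.congr_fun h w
  rw [injective_iff_map_eq_one]
  intro x hx
  have h1 : Lam x = f1 x.left * f2 x.right := rfl
  rw [h1] at hx
  have h2 := congrArg SemidirectProduct.right hx
  rw [SemidirectProduct.mul_right, hf2r] at h2
  have h3 : (f1 x.left).right = 1 := rfl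
  rw [h3, one_mul, SemidirectProduct.one_right] at h2
  have h4 : x.right = 1 := hτ (by rw [h2, map_one])
  rw [h4, map_one, mul_one] at hx
  have h5 : x.left = 1 := by
    have h6 : (SemidirectProduct.inl (x.left : F) : F ⋊[φ] Q) = 1 := hx
    have h7 := congrArg SemidirectProduct.left h6
    exact Subtype.ext h7
  exact SemidirectProduct.ext h5 h4

end AssembleAux

open AssembleAux in
/-- the assembly for two arbitrary elements `s`, `t` of the acting group which freely generate a free subgroup -/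
theorem assemble_gen (n : ℕ) (φ : FreeGroup (Fin n) →* MulAut (FreeGroup (Fin n)))
    (s t : FreeGroup (Fin n))
    (hst : Function.Injective (FreeGroup.lift ![s, t] : FreeGroup (Fin 2) →* FreeGroup (Fin n)))
    (N1 : Subgroup (FreeGroup (Fin n))) (hfg : N1.FG) (θ : N1 →* FreeGroup (Fin 2))
    (hθ : Function.Surjective θ) (k : ℕ) (hk : 1 ≤ k) (g : ℕ → FreeGroup (Fin n))
    (hN : ∀ (j : ℕ) (x : FreeGroup (Fin n)),
      g j * φ (t ^ j * s ^ k * (t ^ j)⁻¹) x * (g j)⁻¹ ∈ N1 ↔ x ∈ N1)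
    (hθg : ∀ (j : ℕ) (x : N1), θ ⟨g j * φ (t ^ j * s ^ k * (t ^ j)⁻¹) x * (g j)⁻¹,
        (hN j x).2 x.2⟩ = θ x) :
    ¬ ComputablePred (Occur n φ) := by
  have hτ : Function.Injective (FreeGroup.lift (fun j : ℕ => t ^ j * s ^ k * (t ^ j)⁻¹) :
      FreeGroup ℕ →* FreeGroup (Fin n)) := by
    have h1 : (FreeGroup.lift (fun j : ℕ => t ^ j * s ^ k * (t ^ j)⁻¹) :
        FreeGroup ℕ →* FreeGroup (Fin n)) =
        (FreeGroup.lift ![s, t] : FreeGroup (Fin 2) →* FreeGroup (Fin n)).comp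
          (FreeGroup.lift (fun j : ℕ =>
            (FreeGroup.of (⟨1, by omega⟩ : Fin 2)) ^ j * (FreeGroup.of (⟨0, by omega⟩ : Fin 2)) ^ k *
              ((FreeGroup.of (⟨1, by omega⟩ : Fin 2)) ^ j)⁻¹)) := by
      ext j
      simp
    rw [h1]
    exact hst.comp (pow_free 2 le_rfl k hk)
  obtain ⟨lam, Lam, hl, hinj⟩ := push φ N1 θ g _ hN hθg hτ
  have : Group.FG N1 := (Group.fg_iff_subgroup_fg N1).2 hfg
  obtain ⟨e0, R0, h0⟩ := exists_undecidable
  obtain ⟨e, R, hR, hU⟩ := invol e0 R0 h0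
  obtain ⟨S, b, hS, hb⟩ := dominate θ hθ lam hl e R hR
  refine transfer φ e R hU (Lam '' S) (hS.image _) (fun i => Lam (b i)) ?_
  intro w
  rw [← hb w, ← MonoidHom.map_closure]
  have h1 : FreeGroup.lift (fun i => Lam (b i)) w = Lam (FreeGroup.lift b w) := by
    have h2 : FreeGroup.lift (fun i => Lam (b i)) = Lam.comp (FreeGroup.lift b) := by
      ext i <;> simp
    rw [h2]
    rfl
  rw [h1]
  exact Subgroup.mem_map_iff_mem hinj

open AssembleAux in
theorem assemble (n : ℕ) (hn : 2 ≤ n) (φ : FreeGroup (Fin n) →* MulAut (FreeGroup (Fin n)))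
    (N1 : Subgroup (FreeGroup (Fin n))) (hfg : N1.FG) (θ : N1 →* FreeGroup (Fin 2))
    (hθ : Function.Surjective θ) (k : ℕ) (hk : 1 ≤ k) (g : ℕ → FreeGroup (Fin n))
    (hN : ∀ (j : ℕ) (x : FreeGroup (Fin n)),
      g j * φ ((FreeGroup.of (⟨1, by omega⟩ : Fin n)) ^ j * (FreeGroup.of (⟨0, by omega⟩ : Fin n)) ^ k *
        ((FreeGroup.of (⟨1, by omega⟩ : Fin n)) ^ j)⁻¹) x * (g j)⁻¹ ∈ N1 ↔ x ∈ N1)
    (hθg : ∀ (j : ℕ) (x : N1), θ ⟨g j * φ ((FreeGroup.of (⟨1, by omega⟩ : Fin n)) ^ j *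
      (FreeGroup.of (⟨0, by omega⟩ : Fin n)) ^ k * ((FreeGroup.of (⟨1, by omega⟩ : Fin n)) ^ j)⁻¹) x * (g j)⁻¹,
        (hN j x).2 x.2⟩ = θ x) :
    ¬ ComputablePred (Occur n φ) := by
  obtain ⟨lam, Lam, hl, hinj⟩ := push φ N1 θ g _ hN hθg (pow_free n hn k hk)
  have : Group.FG N1 := (Group.fg_iff_subgroup_fg N1).2 hfg
  obtain ⟨e0, R0, h0⟩ := exists_undecidable
  obtain ⟨e, R, hR, hU⟩ := invol e0 R0 h0
  obtain ⟨S, b, hS, hb⟩ := dominate θ hθ lam hl e R hR
  refine transfer φ e R hU (Lam '' S) (hS.image _) (fun i => Lam (b i)) ?_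
  intro w
  rw [← hb w, ← MonoidHom.map_closure]
  have h1 : FreeGroup.lift (fun i => Lam (b i)) w = Lam (FreeGroup.lift b w) := by
    have h2 : FreeGroup.lift (fun i => Lam (b i)) = Lam.comp (FreeGroup.lift b) := by
      ext i <;> simp
    rw [h2]
    rfl
  rw [h1]
  exact Subgroup.mem_map_iff_mem hinj

end Pool.Agent.Occ
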