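import Mathlib

/-!
The occurrence problem (subgroup membership) for `F_n x F_n` semidirect: common definitions.
-/

set_option autoImplicit false

namespace Pool.Agent.Occ

/-- the word problem of the group with `e` generators and relators `R` -/
def WP (e : ℕ) (R : Finset (FreeGroup (Fin e))) (w : List (Fin e × Bool)) : Prop :=
  FreeGroup.mk w ∈ Subgroup.normalClosure (R : Set (FreeGroup (Fin e)))

/-- the occurrence problem of the semidirect product, literally as in the frozen statement -/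
def Occur (n : ℕ) (φ : FreeGroup (Fin n) →* MulAut (FreeGroup (Fin n)))
    (p : List (List ((Fin n ⊕ Fin n) × Bool)) × List ((Fin n ⊕ Fin n) × Bool)) : Prop :=
  (FreeGroup.lift
      (Sum.elim
        (fun i : Fin n =>
          (SemidirectProduct.inl (FreeGroup.of i) :
            SemidirectProduct (FreeGroup (Fin n)) (FreeGroup (Fin n)) φ))
        (fun i : Fin n =>
          (SemidirectProduct.inr (FreeGroup.of i) :
            SemidirectProduct (FreeGroup (Fin n)) (FreeGroup (Fin n)) φ)))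
      (FreeGroup.mk p.2)) ∈
    Subgroup.closure
      {g : SemidirectProduct (FreeGroup (Fin n)) (FreeGroup (Fin n)) φ |
        ∃ w ∈ p.1,
          FreeGroup.lift
              (Sum.elim
                (fun i : Fin n =>
                  (SemidirectProduct.inl (FreeGroup.of i) :
                    SemidirectProduct (FreeGroup (Fin n)) (FreeGroup (Fin n)) φ))
                (fun i : Fin n =>
                  (SemidirectProduct.inr (FreeGroup.of i) :
                    SemidirectProduct (FreeGroup (Fin n)) (FreeGroup (Fin n)) φ)))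
              (FreeGroup.mk w) = g}

/-! ### affine machines on `ℤ × ℤ` -/

/-- an affine rule: `(m1 u + a1, m2 v + a2) -> (n1 u + c1, n2 v + c2)` for all integers `u, v` -/
structure Rule where
  m1 : ℕ
  m2 : ℕ
  n1 : ℕ
  n2 : ℕ
  a1 : ℤ
  a2 : ℤ
  c1 : ℤ
  c2 : ℤ

/-- the four multipliers are positive -/
def Rule.Pos (r : Rule) : Prop := 1 ≤ r.m1 ∧ 1 ≤ r.m2 ∧ 1 ≤ r.n1 ∧ 1 ≤ r.n2

/-- source of the rule -/
def Rule.src (r : Rule) (u v : ℤ) : ℤ × ℤ := (r.m1 * u + r.a1, r.m2 * v + r.a2)

/-- target of the rule -/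
def Rule.tgt (r : Rule) (u v : ℤ) : ℤ × ℤ := (r.n1 * u + r.c1, r.n2 * v + r.c2)

/-- the class of `(0, 0)` for the equivalence relation generated by the rules -/
def Hzero {n : ℕ} (ru : Fin n → Rule) : Set (ℤ × ℤ) :=
  {ω | ∀ P : ℤ × ℤ → Prop, P (0, 0) → (∀ i u v, P ((ru i).src u v) ↔ P ((ru i).tgt u v)) → P ω}

/-- `x^α y^β t (x^α y^β)⁻¹` -/
def tt {K : Type*} [Group K] (x y t : K) (ω : ℤ × ℤ) : K := x ^ ω.1 * y ^ ω.2 * t * (x ^ ω.1 * y ^ ω.2)⁻¹

/-! ### labels -/

/-- products of at most `n` of the letters `y i` -/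
def Wd {U : Type*} [Group U] {e : ℕ} (y : Fin e → U) (n : ℕ) : Set U :=
  {u | ∃ l : List (Fin e), l.length ≤ n ∧ u = (l.map y).prod}

/-- the number of positions -/
def per (e h : ℕ) : ℕ := (e + 1) * (2 * h + 1)

open Classical in
/-- the label of a position: `y i` at the position `i (2h+1)`, `1` elsewhere -/
noncomputable def lamb {U : Type*} [Group U] {e : ℕ} (h : ℕ) (y : Fin e → U) (x : ZMod (per e h)) : U :=
  if hx : ∃ i : Fin e, x = (((i : ℕ) * (2 * h + 1) : ℕ) : ZMod (per e h)) then y hx.choose else 1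

/-- `(x, u) ↦ (x + 1, u)` -/
def rotP (U : Type*) (M : ℕ) : Equiv.Perm (ZMod M × U) where
  toFun p := (p.1 + 1, p.2)
  invFun p := (p.1 - 1, p.2)
  left_inv p := by simp
  right_inv p := by simp

/-- `(x, u) ↦ (x, λ(x) u)` -/
noncomputable def labP {U : Type*} [Group U] {e : ℕ} (h : ℕ) (y : Fin e → U) :
    Equiv.Perm (ZMod (per e h) × U) where
  toFun p := (p.1, lamb h y p.1 * p.2)
  invFun p := (p.1, (lamb h y p.1)⁻¹ * p.2)
  left_inv p := by simp
  right_inv p := by simp

/-- the action of the free group of rank two on positions and labels -/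
noncomputable def zet {U : Type*} [Group U] {e : ℕ} (h : ℕ) (y : Fin e → U) :
    FreeGroup (Fin 2) →* Equiv.Perm (ZMod (per e h) × U) :=
  FreeGroup.lift ![rotP U (per e h), labP h y]

/-- the loop `p^(-i(2h+1)) q p^(i(2h+1))` with label `y i` -/
def bw {e : ℕ} (h : ℕ) (i : Fin e) : FreeGroup (Fin 2) :=
  (FreeGroup.of 0 ^ ((i : ℕ) * (2 * h + 1)))⁻¹ * FreeGroup.of 1 * FreeGroup.of 0 ^ ((i : ℕ) * (2 * h + 1))

/-! ### lassos -/

/-- the subgroup generated by the lassos `s(v) c s(v)⁻¹`, `v` in the set `T` -/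
def LL {K : Type*} [Group K] (s : FreeGroup (Fin 2) →* K) (C : Set K) (T : Set (FreeGroup (Fin 2))) :
    Subgroup K :=
  Subgroup.closure {x | ∃ v ∈ T, ∃ c ∈ C, x = s v * c * (s v)⁻¹}

/-- elements of length at most `r` -/
def Ball (r : ℕ) : Set (FreeGroup (Fin 2)) := {v | ∃ l : List (Fin 2 × Bool), l.length ≤ r ∧ FreeGroup.mk l = v}

end Pool.Agent.Occ
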