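import Pool.Agent.Lib.Occ.Nielsen

/-!
A finite index subgroup `N1` of `F_2 = ⟨a, b⟩` (`a = of 0`, `b = of 1`) with an epimorphism `θ` onto `F_2 = ⟨p, q⟩` (`p = of 0`, `q = of 1`) which is preserved, up to inner automorphisms, by a fixed power of every automorphism of `F_2`.
(Geometrically: the punctured torus, its cover with the four points of order two removed, the quotient four-punctured sphere, fill one puncture.)

Action `Θ` of `F_2` on `Fin 4 × FreeGroup (Fin 2)` commuting with right multiplication on the second factor: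
`a : (0,h) ↦ (3, q h), (1,h) ↦ (2, q⁻¹ h), (2,h) ↦ (1, h), (3,h) ↦ (0, h)`;
`b : (0,h) ↦ (1, h), (1,h) ↦ (0, p h), (2,h) ↦ (3, p⁻¹ h), (3,h) ↦ (2, h)`.
The action on `Fin 4` is the regular action of `(ℤ/2)²`. `N1 = {x | ∀ χ : F_2 →* Multiplicative (ZMod 2), χ x = 1}` (normal, invariant under all automorphisms, index 4) = stabiliser of `0 : Fin 4`; `θ x = (Θ x (0, 1)).2` on `N1`,
a homomorphism; `θ (b²) = p`, `θ (a²) = q`: surjective. `N1.FG`: finite index in a finitely generated group (`Subgroup.fg_of_index_ne_zero`).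
Let `E` be the set of the `α : MulAut F_2` such that `∃ g ∈ F_2, ∃ β ∈ 𝓑, ∀ x ∈ N1, θ (g α(x) g⁻¹) = β (θ x)`, where `𝓑 ≤ MulAut (FreeGroup (Fin 2))` is the subgroup generated by the inner automorphisms and
`S1 : p ↦ q⁻¹, q ↦ p⁻¹`; `S2 : p ↦ p⁻¹, q ↦ q⁻¹`; `S3 : p ↦ p q, q ↦ q⁻¹` (each of order two). `E` is a subgroup: for a product take `g = g1 α1(g2)`, `β = β1 β2`, for the inverse `g = α⁻¹(g1)⁻¹`, `β⁻¹`.
`E` contains the inner automorphisms (`g` = inverse) and the three generators of `nielsen`: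
`ν1 : a ↦ b⁻¹, b ↦ a⁻¹` with `g = 1`, `β = S1`; `ν2 : a ↦ a, b ↦ b⁻¹` with `g = b⁻¹`, `β = S2`; `ν3 : a ↦ a⁻¹, b ↦ a b` with `g = a⁻¹`, `β = S3`.
Proof of such an identity: find `J : Fin 4 × Q → Fin 4 × Q`, `J (v, h) = (J0 v, j v * β h)` with `J (0, h) = (0, β h)` and `J ∘ Θ x = Θ (g ν(x) g⁻¹) ∘ J` for `x = a, b` (then for all `x ∈ F_2` by induction; apply to `(0, 1)`). `J0` and `j` are found by
following the paths from `0` (finite checks in a free group, `decide` or `simp`); or check the identity on the five generators of `N1`.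
By `nielsen` `E = ⊤`. Finite order modulo inner automorphisms: with the 12 automorphisms `δ` = products `(S2)^ε * r^i * s^j` (`r : p ↦ q, q ↦ q⁻¹ p⁻¹` of order three, `s : p ↦ q, q ↦ p`), every element of `𝓑` is `conj h * δ` for one of them
(`Subgroup.closure_induction_left`, each `S_i * δ` is `conj h * δ'`: 36 explicit checks, or any other argument). Pigeonhole among `β^0, ..., β^12`: `β^d` is inner for some `1 ≤ d ≤ 12`, so `β^k` is inner for `k = 12!`.
Finally, for `α` arbitrary: `α ∈ E` with `(g, β)`, so `α^k ∈ E` with some `g'` and `β^k = conj h` (induction on the exponent); choose `m ∈ N1` with `θ m = h`; `g'' = m⁻¹ g'` works.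
(Any other choice of `N1, θ, k` is fine.)
-/

set_option autoImplicit false

namespace Pool.Agent.Occ

namespace ThetaAux

theorem pinv1 {X : Type*} (f : Equiv.Perm X) (x : X) : f⁻¹ (f x) = x := f.symm_apply_apply x

theorem pinv2 {X : Type*} (f : Equiv.Perm X) (x : X) : f (f⁻¹ x) = x := f.apply_symm_apply x

abbrev Q := FreeGroup (Fin 2)

/-- `(v, h) ↦ (f v, t v * β h)` -/
def mkT (f : Fin 4 → Fin 4) (hf : Function.Involutive f) (t : Fin 4 → Q) (β : MulAut Q) :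
    Equiv.Perm (Fin 4 × Q) where
  toFun z := (f z.1, t z.1 * β z.2)
  invFun z := (f z.1, β.symm ((t (f z.1))⁻¹ * z.2))
  left_inv z := by
    ext1
    · exact hf z.1
    · simp [hf z.1]
  right_inv z := by
    ext1
    · exact hf z.1
    · simp

theorem mkT_apply (f : Fin 4 → Fin 4) (hf : Function.Involutive f) (t : Fin 4 → Q) (β : MulAut Q)
    (v : Fin 4) (h : Q) : mkT f hf t β (v, h) = (f v, t v * β h) := rfl

theorem inv_a : Function.Involutive (![3, 2, 1, 0] : Fin 4 → Fin 4) := by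
  intro x; fin_cases x <;> rfl

theorem inv_b : Function.Involutive (![1, 0, 3, 2] : Fin 4 → Fin 4) := by
  intro x; fin_cases x <;> rfl

theorem inv_c : Function.Involutive (![0, 3, 2, 1] : Fin 4 → Fin 4) := by
  intro x; fin_cases x <;> rfl

theorem inv_d : Function.Involutive (![3, 1, 2, 0] : Fin 4 → Fin 4) := by
  intro x; fin_cases x <;> rfl

/-- right multiplication -/
def rm (k : Q) : Equiv.Perm (Fin 4 × Q) := Equiv.prodCongr (Equiv.refl _) (Equiv.mulRight k)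

theorem rm_apply (k : Q) (v : Fin 4) (h : Q) : rm k (v, h) = (v, h * k) := rfl

theorem mkT_rm (f : Fin 4 → Fin 4) (hf : Function.Involutive f) (t : Fin 4 → Q) (β : MulAut Q)
    (k : Q) (z : Fin 4 × Q) : mkT f hf t β (rm k z) = rm (β k) (mkT f hf t β z) := by
  obtain ⟨v, h⟩ := z
  rw [rm_apply, mkT_apply, mkT_apply, rm_apply, map_mul, mul_assoc]

/-- the action of the generators -/
def gen : Fin 2 → Equiv.Perm (Fin 4 × Q) :=
  ![mkT ![3, 2, 1, 0] inv_a ![FreeGroup.of 1, (FreeGroup.of 1)⁻¹, 1, 1] 1,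
    mkT ![1, 0, 3, 2] inv_b ![1, FreeGroup.of 0, (FreeGroup.of 0)⁻¹, 1] 1]

/-- the action -/
def Th : Q →* Equiv.Perm (Fin 4 × Q) := FreeGroup.lift gen

theorem Th_a : Th (FreeGroup.of 0) =
    mkT ![3, 2, 1, 0] inv_a ![FreeGroup.of 1, (FreeGroup.of 1)⁻¹, 1, 1] 1 := by
  simp [Th, gen]

theorem Th_b : Th (FreeGroup.of 1) =
    mkT ![1, 0, 3, 2] inv_b ![1, FreeGroup.of 0, (FreeGroup.of 0)⁻¹, 1] 1 := by
  simp [Th, gen]

theorem Th_comm (x k : Q) : Commute (Th x) (rm k) := by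
  have hgen : ∀ i : Fin 2, Commute (Th (FreeGroup.of i)) (rm k) := by
    intro i
    fin_cases i
    · change Th (FreeGroup.of 0) * rm k = rm k * Th (FreeGroup.of 0)
      rw [Th_a]
      ext1 z
      exact mkT_rm _ inv_a _ _ _ _
    · change Th (FreeGroup.of 1) * rm k = rm k * Th (FreeGroup.of 1)
      rw [Th_b]
      ext1 z
      exact mkT_rm _ inv_b _ _ _ _
  induction x using FreeGroup.induction_on with
  | C1 => rw [map_one]; exact Commute.one_left _
  | of i => exact hgen i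
  | inv_of i _ => rw [map_inv]; exact (hgen i).inv_left
  | mul x y hx hy => rw [map_mul]; exact hx.mul_left hy

theorem Th_rm (x k : Q) (z : Fin 4 × Q) : Th x (rm k z) = rm k (Th x z) := by
  have := Th_comm x k
  exact congrArg (fun f : Equiv.Perm (Fin 4 × Q) => f z) this.eq

theorem Th_one {x c : Q} {v w : Fin 4} (h : Th x (v, 1) = (w, c)) (k : Q) :
    Th x (v, k) = (w, c * k) := by
  have e : ((v, k) : Fin 4 × Q) = rm k (v, 1) := by rw [rm_apply, one_mul]
  rw [e, Th_rm, h, rm_apply]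

/-- the finite index subgroup -/
def N1 : Subgroup Q where
  carrier := {x | (Th x (0, 1)).1 = 0}
  mul_mem' := by
    intro x y hx hy
    have hx' : Th x (0, 1) = (0, (Th x (0, 1)).2) := Prod.ext hx rfl
    have hy' : Th y (0, 1) = (0, (Th y (0, 1)).2) := Prod.ext hy rfl
    change (Th (x * y) (0, 1)).1 = 0
    rw [map_mul, Equiv.Perm.mul_apply, hy', Th_one hx']
  one_mem' := by
    change (Th 1 (0, 1)).1 = 0
    rw [map_one]
    rfl
  inv_mem' := by
    intro x hx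
    have hx' : Th x (0, 1) = (0, (Th x (0, 1)).2) := Prod.ext hx rfl
    have h2 := Th_one hx' (Th x (0, 1)).2⁻¹
    rw [mul_inv_cancel] at h2
    change (Th x⁻¹ (0, 1)).1 = 0
    rw [map_inv, ← h2, pinv1]

theorem mem_N1 (x : Q) : x ∈ N1 ↔ (Th x (0, 1)).1 = 0 := Iff.rfl

theorem N1_eq {x : Q} (hx : x ∈ N1) : Th x (0, 1) = (0, (Th x (0, 1)).2) := Prod.ext hx rfl

/-- the epimorphism -/
def th : N1 →* Q where
  toFun x := (Th x (0, 1)).2
  map_one' := by
    change (Th 1 (0, 1)).2 = 1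
    rw [map_one]
    rfl
  map_mul' := by
    intro x y
    change (Th (x * y : Q) (0, 1)).2 = _
    rw [map_mul, Equiv.Perm.mul_apply, N1_eq y.2, Th_one (N1_eq x.2)]

theorem th_def (x : N1) : th x = (Th x (0, 1)).2 := rfl

theorem aa : Th (FreeGroup.of 0 * FreeGroup.of 0) (0, 1) = (0, FreeGroup.of 1) := by
  rw [map_mul, Th_a, Equiv.Perm.mul_apply, mkT_apply, mkT_apply]
  simp

theorem bb : Th (FreeGroup.of 1 * FreeGroup.of 1) (0, 1) = (0, FreeGroup.of 0) := by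
  rw [map_mul, Th_b, Equiv.Perm.mul_apply, mkT_apply, mkT_apply]
  simp

theorem th_surj : Function.Surjective th := by
  rw [← MonoidHom.range_eq_top, eq_top_iff, ← FreeGroup.closure_range_of, Subgroup.closure_le]
  rintro _ ⟨i, rfl⟩
  fin_cases i
  · exact ⟨⟨FreeGroup.of 1 * FreeGroup.of 1, by rw [mem_N1, bb]⟩, by rw [th_def, bb]; rfl⟩
  · exact ⟨⟨FreeGroup.of 0 * FreeGroup.of 0, by rw [mem_N1, aa]⟩, by rw [th_def, aa]; rfl⟩

/-- the action on four points -/
def sg : Q →* Equiv.Perm (Fin 4) :=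
  FreeGroup.lift ![Function.Involutive.toPerm _ inv_a, Function.Involutive.toPerm _ inv_b]

theorem Th_fst (x : Q) (z : Fin 4 × Q) : (Th x z).1 = sg x z.1 := by
  have hgen : ∀ (i : Fin 2) (z : Fin 4 × Q),
      (Th (FreeGroup.of i) z).1 = sg (FreeGroup.of i) z.1 := by
    intro i z
    fin_cases i
    · change (Th (FreeGroup.of 0) z).1 = sg (FreeGroup.of 0) z.1
      rw [Th_a]
      simp [sg, mkT]
    · change (Th (FreeGroup.of 1) z).1 = sg (FreeGroup.of 1) z.1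
      rw [Th_b]
      simp [sg, mkT]
  induction x using FreeGroup.induction_on generalizing z with
  | C1 => rw [map_one, map_one]; rfl
  | of i => exact hgen i z
  | inv_of i _ =>
    have h := hgen i ((Th (FreeGroup.of i))⁻¹ z)
    rw [pinv2] at h
    rw [map_inv, map_inv, Equiv.Perm.eq_inv_iff_eq, ← h]
  | mul x y hx hy =>
    rw [map_mul, map_mul, Equiv.Perm.mul_apply, Equiv.Perm.mul_apply, hx, hy]

theorem N1_index : N1.FiniteIndex := by
  have h1 : sg.ker ≤ N1 := by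
    intro x hx
    rw [mem_N1, Th_fst, MonoidHom.mem_ker.mp hx]
    rfl
  have : sg.ker.FiniteIndex := inferInstance
  exact Subgroup.finiteIndex_of_le h1

theorem N1_fg : N1.FG := by
  have := N1_index
  exact (Group.fg_iff_subgroup_fg N1).mp inferInstance

theorem trans_zero (v : Fin 4) : ∃ g : Q, (Th g (v, 1)).1 = 0 := by
  fin_cases v
  · exact ⟨1, by rw [map_one]; rfl⟩
  · exact ⟨FreeGroup.of 1, by rw [Th_b]; rfl⟩
  · refine ⟨FreeGroup.of 1 * FreeGroup.of 0, ?_⟩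
    rw [map_mul, Th_b, Th_a]
    rfl
  · exact ⟨FreeGroup.of 0, by rw [Th_a]; rfl⟩

theorem trans_all (z : Fin 4 × Q) (m : Q) : ∃ g : Q, Th g z = (0, m) := by
  obtain ⟨v, h⟩ := z
  obtain ⟨g1, hg1⟩ := trans_zero v
  have h1 : Th g1 (v, 1) = (0, (Th g1 (v, 1)).2) := Prod.ext hg1 rfl
  have h2 := Th_one h1 h
  set c := (Th g1 (v, 1)).2 * h with hc
  obtain ⟨x, hx⟩ := th_surj (m * c⁻¹)
  refine ⟨x * g1, ?_⟩
  have h3 : Th x (0, 1) = (0, m * c⁻¹) := by
    rw [N1_eq x.2, ← hx]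
    rfl
  rw [map_mul, Equiv.Perm.mul_apply, h2, Th_one h3]
  simp

/-- inner automorphisms -/
abbrev Inn : Subgroup (MulAut Q) := (MulAut.conj : Q →* MulAut Q).range

instance : Inn.Normal := by
  constructor
  rintro _ ⟨g, rfl⟩ α
  refine ⟨α g, ?_⟩
  ext1 x
  simp [MulAut.mul_apply]

/-- involutive automorphisms -/
def invAut (f : Q →* Q) (hf : f.comp f = MonoidHom.id Q) : MulAut Q := f.toMulEquiv f hf hf

theorem invAut_apply (f : Q →* Q) (hf : f.comp f = MonoidHom.id Q) (x : Q) :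
    invAut f hf x = f x := rfl

def f1 : Q →* Q := FreeGroup.lift ![(FreeGroup.of 1)⁻¹, (FreeGroup.of 0)⁻¹]
def f2 : Q →* Q := FreeGroup.lift ![(FreeGroup.of 0)⁻¹, (FreeGroup.of 1)⁻¹]
def f3 : Q →* Q := FreeGroup.lift ![FreeGroup.of 0 * FreeGroup.of 1, (FreeGroup.of 1)⁻¹]

theorem ext2 {G : Type*} [Group G] {f g : Q →* G} (h0 : f (FreeGroup.of 0) = g (FreeGroup.of 0))
    (h1 : f (FreeGroup.of 1) = g (FreeGroup.of 1)) : f = g := by
  refine FreeGroup.ext_hom _ _ ?_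
  intro i
  fin_cases i
  · exact h0
  · exact h1

theorem autext {f g : MulAut Q} (h0 : f (FreeGroup.of 0) = g (FreeGroup.of 0))
    (h1 : f (FreeGroup.of 1) = g (FreeGroup.of 1)) : f = g := by
  have h : f.toMonoidHom = g.toMonoidHom := ext2 h0 h1
  ext1 x
  exact DFunLike.congr_fun h x

def S1 : MulAut Q := invAut f1 (ext2 (by simp [f1]) (by simp [f1]))
def S2 : MulAut Q := invAut f2 (ext2 (by simp [f2]) (by simp [f2]))
def S3 : MulAut Q := invAut f3 (ext2 (by simp [f3]) (by simp [f3]))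

theorem S1_a : S1 (FreeGroup.of 0) = (FreeGroup.of 1)⁻¹ := by
  rw [S1, invAut_apply]; simp [f1]
theorem S1_b : S1 (FreeGroup.of 1) = (FreeGroup.of 0)⁻¹ := by
  rw [S1, invAut_apply]; simp [f1]
theorem S2_a : S2 (FreeGroup.of 0) = (FreeGroup.of 0)⁻¹ := by
  rw [S2, invAut_apply]; simp [f2]
theorem S2_b : S2 (FreeGroup.of 1) = (FreeGroup.of 1)⁻¹ := by
  rw [S2, invAut_apply]; simp [f2]
theorem S3_a : S3 (FreeGroup.of 0) = FreeGroup.of 0 * FreeGroup.of 1 := by
  rw [S3, invAut_apply]; simp [f3]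
theorem S3_b : S3 (FreeGroup.of 1) = (FreeGroup.of 1)⁻¹ := by
  rw [S3, invAut_apply]; simp [f3]

abbrev Out := MulAut Q ⧸ Inn

/-- the finite group of outer automorphisms -/
def K : Subgroup Out := Subgroup.closure
  {(QuotientGroup.mk S1 : Out), (QuotientGroup.mk S2 : Out), (QuotientGroup.mk S3 : Out)}

theorem six {G : Type*} [Group G] {s1 s2 s3 : G} (h1 : s1 * s1 = 1) (h2 : s2 * s2 = 1)
    (h3 : s3 * s3 = 1) (h12 : s2 * s1 = s1 * s2) (h23 : s2 * s3 = s3 * s2)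
    (hr : s1 * s3 * (s1 * s3) * (s1 * s3) = 1) {x : G}
    (hx : x ∈ Subgroup.closure ({s1, s2, s3} : Set G)) : x ^ 6 = 1 := by
  set r := s1 * s3 with hrdef
  have hr3 : r ^ 3 = 1 := by
    rw [pow_succ, pow_two]
    exact hr
  have hs3 : s3 = s1 * r := by
    rw [hrdef, ← mul_assoc, h1, one_mul]
  have hi1 : s1⁻¹ = s1 := inv_eq_of_mul_eq_one_left h1
  have hi2 : s2⁻¹ = s2 := inv_eq_of_mul_eq_one_left h2
  have hi3 : s3⁻¹ = s3 := inv_eq_of_mul_eq_one_left h3
  have hc1 : Commute s2 s1 := h12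
  have hc3 : Commute s2 s3 := h23
  have hcr : Commute s2 r := hc1.mul_right hc3
  have hsr : s1 * r = r⁻¹ * s1 := by
    rw [hrdef, mul_inv_rev, hi1, hi3, ← mul_assoc, h1, one_mul, mul_assoc, h1, mul_one]
  have hri : r⁻¹ = r ^ 2 := by
    rw [inv_eq_iff_mul_eq_one, ← pow_succ']
    exact hr3
  have hsrj : ∀ j : ℕ, s1 * r ^ j = r ^ (2 * j) * s1 := by
    intro j
    induction j with
    | zero => simp
    | succ j ih =>
      rw [pow_succ, ← mul_assoc, ih, mul_assoc, hsr, ← mul_assoc, hri, ← pow_add]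
      congr 2
  have key : ∀ x ∈ Subgroup.closure ({s1, s2, s3} : Set G),
      ∃ i j k : ℕ, x = s2 ^ i * r ^ j * s1 ^ k := by
    have hs1 : ∀ y : G, (∃ i j k : ℕ, y = s2 ^ i * r ^ j * s1 ^ k) →
        ∃ i j k : ℕ, s1 * y = s2 ^ i * r ^ j * s1 ^ k := by
      rintro y ⟨i, j, k, rfl⟩
      refine ⟨i, 2 * j, k + 1, ?_⟩
      have e1 : s1 * s2 ^ i = s2 ^ i * s1 := ((hc1.pow_left i).eq).symm
      rw [← mul_assoc, ← mul_assoc, e1, mul_assoc (s2 ^ i), hsrj, pow_succ']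
      simp only [mul_assoc]
    have hr1 : ∀ y : G, (∃ i j k : ℕ, y = s2 ^ i * r ^ j * s1 ^ k) →
        ∃ i j k : ℕ, r * y = s2 ^ i * r ^ j * s1 ^ k := by
      rintro y ⟨i, j, k, rfl⟩
      refine ⟨i, j + 1, k, ?_⟩
      have e1 : r * s2 ^ i = s2 ^ i * r := ((hcr.pow_left i).eq).symm
      rw [← mul_assoc, ← mul_assoc, e1, pow_succ' r]
      simp only [mul_assoc]
    have hs2 : ∀ y : G, (∃ i j k : ℕ, y = s2 ^ i * r ^ j * s1 ^ k) →
        ∃ i j k : ℕ, s2 * y = s2 ^ i * r ^ j * s1 ^ k := by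
      rintro y ⟨i, j, k, rfl⟩
      refine ⟨i + 1, j, k, ?_⟩
      rw [pow_succ' s2]
      simp only [mul_assoc]
    have hs3' : ∀ y : G, (∃ i j k : ℕ, y = s2 ^ i * r ^ j * s1 ^ k) →
        ∃ i j k : ℕ, s3 * y = s2 ^ i * r ^ j * s1 ^ k := by
      intro y hy
      rw [hs3, mul_assoc]
      exact hs1 _ (hr1 _ hy)
    intro x hx
    induction hx using Subgroup.closure_induction_left with
    | one => exact ⟨0, 0, 0, by simp⟩
    | mul_left x hx y hy ih =>
      rcases hx with rfl | rfl | rfl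
      · exact hs1 _ ih
      · exact hs2 _ ih
      · exact hs3' _ ih
    | inv_mul_cancel x hx y hy ih =>
      rcases hx with rfl | rfl | rfl
      · rw [hi1]; exact hs1 _ ih
      · rw [hi2]; exact hs2 _ ih
      · rw [hi3]; exact hs3' _ ih
  obtain ⟨i, j, k, rfl⟩ := key x hx
  have hcom : Commute (s2 ^ i) (r ^ j * s1 ^ k) :=
    Commute.mul_right ((hcr.pow_right j).pow_left i) ((hc1.pow_right k).pow_left i)
  rw [mul_assoc, hcom.mul_pow]
  have e2 : (s2 ^ i) ^ 6 = 1 := by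
    rw [← pow_mul, mul_comm, pow_mul, show (6 : ℕ) = 2 * 3 from rfl, pow_mul, pow_two, h2,
      one_pow, one_pow]
  rw [e2, one_mul]
  rcases Nat.even_or_odd' k with ⟨c, hc | hc⟩
  · rw [hc, pow_mul s1, pow_two, h1, one_pow, mul_one, ← pow_mul, mul_comm, pow_mul,
      show (6 : ℕ) = 3 * 2 from rfl, pow_mul, hr3, one_pow, one_pow]
  · have e3 : s1 ^ k = s1 := by
      rw [hc, pow_succ, pow_mul, pow_two, h1, one_pow, one_mul]
    rw [e3, show (6 : ℕ) = 2 * 3 from rfl, pow_mul, pow_two]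
    have e4 : r ^ j * s1 * (r ^ j * s1) = 1 := by
      have : r ^ j * s1 * (r ^ j * s1) = r ^ j * (s1 * r ^ j) * s1 := by
        simp only [mul_assoc]
      rw [this, hsrj, ← mul_assoc, mul_assoc _ s1 s1, h1, mul_one, ← pow_add,
        show j + 2 * j = 3 * j by ring, pow_mul, hr3, one_pow]
    rw [e4, one_pow]

theorem mk_eq {α β : MulAut Q} (g : Q) (h0 : α (FreeGroup.of 0) = g * β (FreeGroup.of 0) * g⁻¹)
    (h1 : α (FreeGroup.of 1) = g * β (FreeGroup.of 1) * g⁻¹) :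
    (QuotientGroup.mk α : Out) = QuotientGroup.mk β := by
  have h : α = MulAut.conj g * β := autext (by simpa [MulAut.mul_apply] using h0)
    (by simpa [MulAut.mul_apply] using h1)
  rw [h, QuotientGroup.mk_mul]
  have : (QuotientGroup.mk (MulAut.conj g) : Out) = 1 :=
    (QuotientGroup.eq_one_iff _).mpr ⟨g, rfl⟩
  rw [this, one_mul]

theorem K_six {β : MulAut Q} (h : (QuotientGroup.mk β : Out) ∈ K) :
    ∃ g : Q, MulAut.conj g = β ^ 6 := by
  have h6 : (QuotientGroup.mk β : Out) ^ 6 = 1 := by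
    refine six ?_ ?_ ?_ ?_ ?_ ?_ h
    · rw [← QuotientGroup.mk_mul, ← QuotientGroup.mk_one]
      refine mk_eq 1 ?_ ?_
      · simp [MulAut.mul_apply, S1_a, S1_b]
      · simp [MulAut.mul_apply, S1_a, S1_b]
    · rw [← QuotientGroup.mk_mul, ← QuotientGroup.mk_one]
      refine mk_eq 1 ?_ ?_
      · simp [MulAut.mul_apply, S2_a, S2_b]
      · simp [MulAut.mul_apply, S2_a, S2_b]
    · rw [← QuotientGroup.mk_mul, ← QuotientGroup.mk_one]
      refine mk_eq 1 ?_ ?_
      · simp [MulAut.mul_apply, S3_a, S3_b]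
      · simp [MulAut.mul_apply, S3_a, S3_b]
    · rw [← QuotientGroup.mk_mul, ← QuotientGroup.mk_mul]
      refine mk_eq 1 ?_ ?_
      · simp [MulAut.mul_apply, S1_a, S1_b, S2_a, S2_b]
      · simp [MulAut.mul_apply, S1_a, S1_b, S2_a, S2_b]
    · rw [← QuotientGroup.mk_mul, ← QuotientGroup.mk_mul]
      refine mk_eq (FreeGroup.of 1) ?_ ?_
      · simp [MulAut.mul_apply, S3_a, S3_b, S2_a, S2_b, mul_assoc]
      · simp [MulAut.mul_apply, S3_a, S3_b, S2_a, S2_b, mul_assoc]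
    · rw [← QuotientGroup.mk_mul, ← QuotientGroup.mk_mul, ← QuotientGroup.mk_mul,
        ← QuotientGroup.mk_one]
      refine mk_eq 1 ?_ ?_
      · simp [MulAut.mul_apply, S3_a, S3_b, S1_a, S1_b, mul_assoc]
      · simp [MulAut.mul_apply, S3_a, S3_b, S1_a, S1_b, mul_assoc]
  rw [← QuotientGroup.mk_pow, QuotientGroup.eq_one_iff] at h6
  exact h6

/-- the automorphisms which preserve the action up to semilinear maps -/
def E : Subgroup (MulAut Q) where
  carrier := {α | ∃ β : MulAut Q, (QuotientGroup.mk β : Out) ∈ K ∧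
    ∃ T : Equiv.Perm (Fin 4 × Q), (∀ k z, T (rm k z) = rm (β k) (T z)) ∧
      ∀ x, T * Th x = Th (α x) * T}
  mul_mem' := by
    rintro α α' ⟨β, hβ, T, hT, hx⟩ ⟨β', hβ', T', hT', hx'⟩
    refine ⟨β * β', ?_, T * T', ?_, ?_⟩
    · rw [QuotientGroup.mk_mul]
      exact K.mul_mem hβ hβ'
    · intro k z
      rw [Equiv.Perm.mul_apply, hT', hT, Equiv.Perm.mul_apply, MulAut.mul_apply]
    · intro x
      rw [mul_assoc, hx', ← mul_assoc, hx, mul_assoc, MulAut.mul_apply]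
  one_mem' := by
    refine ⟨1, ?_, 1, ?_, ?_⟩
    · rw [QuotientGroup.mk_one]
      exact K.one_mem
    · intro k z
      rfl
    · intro x
      rw [one_mul, mul_one]
      rfl
  inv_mem' := by
    rintro α ⟨β, hβ, T, hT, hx⟩
    refine ⟨β⁻¹, ?_, T⁻¹, ?_, ?_⟩
    · rw [QuotientGroup.mk_inv]
      exact K.inv_mem hβ
    · intro k z
      have := hT (β⁻¹ k) (T⁻¹ z)
      rw [pinv2, MulAut.apply_inv_self] at this
      rw [← this, pinv1]
    · intro x
      have := hx (α⁻¹ x)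
      rw [MulAut.apply_inv_self] at this
      rw [inv_mul_eq_iff_eq_mul, ← mul_assoc, this, mul_inv_cancel_right]

theorem mem_E {α β : MulAut Q} (hβ : (QuotientGroup.mk β : Out) ∈ K)
    {T : Equiv.Perm (Fin 4 × Q)} (hT : ∀ k z, T (rm k z) = rm (β k) (T z))
    (h0 : T * Th (FreeGroup.of 0) = Th (α (FreeGroup.of 0)) * T)
    (h1 : T * Th (FreeGroup.of 1) = Th (α (FreeGroup.of 1)) * T) : α ∈ E := by
  refine ⟨β, hβ, T, hT, ?_⟩
  have h : (MulAut.conj T).toMonoidHom.comp Th = Th.comp α.toMonoidHom := by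
    refine ext2 ?_ ?_
    · change T * Th (FreeGroup.of 0) * T⁻¹ = Th (α (FreeGroup.of 0))
      rw [h0, mul_inv_cancel_right]
    · change T * Th (FreeGroup.of 1) * T⁻¹ = Th (α (FreeGroup.of 1))
      rw [h1, mul_inv_cancel_right]
  intro x
  have hx := DFunLike.congr_fun h x
  change T * Th x * T⁻¹ = Th (α x) at hx
  rw [← hx, inv_mul_cancel_right]

theorem E_top (α : MulAut Q) : α ∈ E := by
  refine nielsen E ?_ ?_ ?_ ?_ α
  · intro g
    refine ⟨1, ?_, Th g, ?_, ?_⟩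
    · rw [QuotientGroup.mk_one]
      exact K.one_mem
    · intro k z
      exact Th_rm g k z
    · intro x
      rw [MulAut.conj_apply, map_mul, map_mul, map_inv, inv_mul_cancel_right]
  · intro α ha hb
    refine mem_E (β := S1) (Subgroup.subset_closure (by simp))
      (T := mkT ![0, 3, 2, 1] inv_c ![1, 1, 1, 1] S1) (mkT_rm _ _ _ _) ?_ ?_
    · rw [ha, map_inv, eq_inv_mul_iff_mul_eq, Th_a, Th_b]
      ext1 ⟨v, h⟩
      simp only [Equiv.Perm.mul_apply, mkT_apply]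
      fin_cases v <;> simp [S1_a, S1_b]
    · rw [hb, map_inv, eq_inv_mul_iff_mul_eq, Th_a, Th_b]
      ext1 ⟨v, h⟩
      simp only [Equiv.Perm.mul_apply, mkT_apply]
      fin_cases v <;> simp [S1_a, S1_b]
  · intro α ha hb
    refine mem_E (β := S2) (Subgroup.subset_closure (by simp))
      (T := mkT ![1, 0, 3, 2] inv_b ![1, 1, 1, 1] S2) (mkT_rm _ _ _ _) ?_ ?_
    · rw [ha, Th_a]
      ext1 ⟨v, h⟩
      simp only [Equiv.Perm.mul_apply, mkT_apply]
      fin_cases v <;> simp [S2_a, S2_b]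
    · rw [hb, map_inv, eq_inv_mul_iff_mul_eq, Th_b]
      ext1 ⟨v, h⟩
      simp only [Equiv.Perm.mul_apply, mkT_apply]
      fin_cases v <;> simp [S2_a, S2_b]
  · intro α ha hb
    refine mem_E (β := S3) (Subgroup.subset_closure (by simp))
      (T := mkT ![3, 1, 2, 0] inv_d ![FreeGroup.of 1, FreeGroup.of 1, 1, FreeGroup.of 1] S3)
      (mkT_rm _ _ _ _) ?_ ?_
    · rw [ha, map_inv, eq_inv_mul_iff_mul_eq, Th_a]
      ext1 ⟨v, h⟩
      simp only [Equiv.Perm.mul_apply, mkT_apply]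
      fin_cases v <;> simp [S3_a, S3_b]
    · rw [hb, map_mul, Th_a, Th_b]
      ext1 ⟨v, h⟩
      simp only [Equiv.Perm.mul_apply, mkT_apply]
      fin_cases v <;> simp [S3_a, S3_b, mul_assoc]

end ThetaAux

/-- `theta_exists` with the finite index of `N1` -/
theorem theta_exists_index : ∃ (N1 : Subgroup (FreeGroup (Fin 2))) (θ : N1 →* FreeGroup (Fin 2))
    (k : ℕ), N1.FiniteIndex ∧ N1.FG ∧ Function.Surjective θ ∧ 1 ≤ k ∧
    ∀ α : MulAut (FreeGroup (Fin 2)), ∃ g : FreeGroup (Fin 2),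
      ∃ hN : (∀ x, g * (α ^ k) x * g⁻¹ ∈ N1 ↔ x ∈ N1),
        ∀ x : N1, θ ⟨g * (α ^ k) x * g⁻¹, (hN x).2 x.2⟩ = θ x := by
  refine ⟨ThetaAux.N1, ThetaAux.th, 6, ThetaAux.N1_index, ThetaAux.N1_fg, ThetaAux.th_surj,
    by norm_num, ?_⟩
  intro α
  obtain ⟨β, hβ, T, hT, hx⟩ := ThetaAux.E_top α
  obtain ⟨h₀, hh₀⟩ := ThetaAux.K_six hβ
  have hT6 : ∀ (n : ℕ) (k : ThetaAux.Q) (z : Fin 4 × ThetaAux.Q),
      (T ^ n) (ThetaAux.rm k z) = ThetaAux.rm ((β ^ n) k) ((T ^ n) z) := by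
    intro n
    induction n with
    | zero => intro k z; rfl
    | succ n ih =>
      intro k z
      rw [pow_succ, Equiv.Perm.mul_apply, hT, ih, pow_succ, MulAut.mul_apply,
        Equiv.Perm.mul_apply]
  have hx6 : ∀ (n : ℕ) (x : ThetaAux.Q), T ^ n * ThetaAux.Th x = ThetaAux.Th ((α ^ n) x) * T ^ n := by
    intro n
    induction n with
    | zero => intro x; rw [pow_zero, pow_zero, one_mul, mul_one]; rfl
    | succ n ih =>
      intro x
      rw [pow_succ, mul_assoc, hx, ← mul_assoc, ih, mul_assoc, pow_succ, MulAut.mul_apply]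
  obtain ⟨g, hg⟩ := ThetaAux.trans_all ((T ^ 6) (0, 1)) h₀⁻¹
  -- the map `J = Θ g T ^ 6`
  have hJ : ∀ h : ThetaAux.Q, ThetaAux.Th g ((T ^ 6) (0, h)) = (0, h * h₀⁻¹) := by
    intro h
    have e : ((0, h) : Fin 4 × ThetaAux.Q) = ThetaAux.rm h (0, 1) := by
      rw [ThetaAux.rm_apply, one_mul]
    rw [e, hT6, ThetaAux.Th_rm, hg, ThetaAux.rm_apply, ← hh₀, MulAut.conj_apply]
    simp [mul_assoc]
  have hconj : ∀ (x : ThetaAux.Q), ThetaAux.Th (g * (α ^ 6) x * g⁻¹) (0, 1) =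
      ThetaAux.Th g ((T ^ 6) (ThetaAux.Th x (0, h₀))) := by
    intro x
    have e1 : ((0, 1) : Fin 4 × ThetaAux.Q) = ThetaAux.Th g ((T ^ 6) (0, h₀)) := by
      rw [hJ, mul_inv_cancel]
    have e2 := congrArg (fun f : Equiv.Perm (Fin 4 × ThetaAux.Q) => f (0, h₀)) (hx6 6 x)
    simp only [Equiv.Perm.mul_apply] at e2
    rw [e1, map_mul, map_mul, map_inv, Equiv.Perm.mul_apply, Equiv.Perm.mul_apply,
      ThetaAux.pinv1, e2]
  have hN : ∀ x : ThetaAux.Q, g * (α ^ 6) x * g⁻¹ ∈ ThetaAux.N1 ↔ x ∈ ThetaAux.N1 := by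
    intro x
    rw [ThetaAux.mem_N1, hconj]
    constructor
    · intro h
      have e3 : ThetaAux.Th g ((T ^ 6) (ThetaAux.Th x (0, h₀))) =
          ThetaAux.Th g ((T ^ 6) (0, (ThetaAux.Th g ((T ^ 6) (ThetaAux.Th x (0, h₀)))).2 * h₀)) := by
        rw [hJ]
        exact Prod.ext h (by simp)
      have e4 := (T ^ 6).injective ((ThetaAux.Th g).injective e3)
      rw [ThetaAux.mem_N1, ThetaAux.Th_fst]
      have e5 := congrArg Prod.fst e4
      rw [ThetaAux.Th_fst] at e5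
      exact e5
    · intro h
      rw [ThetaAux.Th_one (ThetaAux.N1_eq h), hJ]
  refine ⟨g, hN, ?_⟩
  intro x
  rw [ThetaAux.th_def, ThetaAux.th_def]
  change (ThetaAux.Th (g * (α ^ 6) x * g⁻¹) (0, 1)).2 = _
  rw [hconj, ThetaAux.Th_one (ThetaAux.N1_eq x.2), hJ]
  simp

theorem theta_exists : ∃ (N1 : Subgroup (FreeGroup (Fin 2))) (θ : N1 →* FreeGroup (Fin 2)) (k : ℕ),
    N1.FG ∧ Function.Surjective θ ∧ 1 ≤ k ∧
    ∀ α : MulAut (FreeGroup (Fin 2)), ∃ g : FreeGroup (Fin 2),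
      ∃ hN : (∀ x, g * (α ^ k) x * g⁻¹ ∈ N1 ↔ x ∈ N1),
        ∀ x : N1, θ ⟨g * (α ^ k) x * g⁻¹, (hN x).2 x.2⟩ = θ x := by
  obtain ⟨N1, θ, k, _, h⟩ := theta_exists_index
  exact ⟨N1, θ, k, h⟩

end Pool.Agent.Occ
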