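import Pool.Agent.Lib.Occ.Assemble
import Pool.Agent.Lib.Occ.Theta
import Mathlib

/-!
A general criterion: it is enough that a nonabelian subgroup of the acting free group virtually preserves the kernel of a map onto a free group of rank two.
-/

set_option autoImplicit false

namespace Pool.Agent.Occ

namespace GeneralAux

/-! ### powers of free generators -/

/-- the word obtained by repeating every letter -/
def rep (k : ℕ → ℕ) (L : List (ℕ × Bool)) : List (ℕ × Bool) :=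
  L.flatMap fun p => List.replicate (k p.1) p

theorem rep_cons (k : ℕ → ℕ) (p : ℕ × Bool) (L : List (ℕ × Bool)) :
    rep k (p :: L) = List.replicate (k p.1) p ++ rep k L := rfl

theorem mk_replicate (p : ℕ × Bool) (m : ℕ) :
    FreeGroup.mk (List.replicate m p) = (FreeGroup.mk [p]) ^ m := by
  induction m with
  | zero => rw [pow_zero]; rfl
  | succ m ih =>
    rw [pow_succ', ← ih, FreeGroup.mul_mk]
    rfl

theorem lift_pow_mk (k : ℕ → ℕ) (L : List (ℕ × Bool)) :
    FreeGroup.lift (fun j => (FreeGroup.of j) ^ (k j)) (FreeGroup.mk L) = FreeGroup.mk (rep k L) := by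
  induction L with
  | nil => exact map_one _
  | cons p L ih =>
    rw [rep_cons, ← FreeGroup.mul_mk, ← ih, ← List.singleton_append, ← FreeGroup.mul_mk, map_mul]
    congr 1
    rw [mk_replicate]
    obtain ⟨j, b⟩ := p
    cases b
    · have h : (FreeGroup.mk [(j, false)] : FreeGroup ℕ) = (FreeGroup.of j)⁻¹ := by
        rw [FreeGroup.of, FreeGroup.inv_mk]; rfl
      rw [h, map_inv, FreeGroup.lift_apply_of, inv_pow]
    · change FreeGroup.lift (fun j => (FreeGroup.of j) ^ (k j)) (FreeGroup.of j) = (FreeGroup.of j) ^ k j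
      rw [FreeGroup.lift_apply_of]

theorem rep_head (k : ℕ → ℕ) (hk : ∀ j, 1 ≤ k j) (L : List (ℕ × Bool)) :
    (rep k L).head? = L.head? := by
  cases L with
  | nil => rfl
  | cons p L =>
    rw [rep_cons]
    obtain ⟨m, hm⟩ : ∃ m, k p.1 = m + 1 := ⟨k p.1 - 1, by have := hk p.1; omega⟩
    rw [hm, List.replicate_succ]
    rfl

theorem chain_replicate_append {p : ℕ × Bool} {L : List (ℕ × Bool)}
    (hL : FreeGroup.IsReduced L) (hp : ∀ q ∈ L.head?, p.1 = q.1 → p.2 = q.2) (m : ℕ) :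
    FreeGroup.IsReduced (List.replicate m p ++ L) := by
  induction m with
  | zero => exact hL
  | succ m ih =>
    rw [List.replicate_succ, List.cons_append]
    unfold FreeGroup.IsReduced at *
    rw [List.isChain_cons]
    refine ⟨?_, ih⟩
    cases m with
    | zero =>
      intro q hq
      exact hp q hq
    | succ m =>
      rw [List.replicate_succ, List.cons_append]
      intro q hq
      simp only [List.head?_cons, Option.mem_def, Option.some.injEq] at hq
      subst hq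
      exact fun _ => rfl

theorem rep_reduced (k : ℕ → ℕ) (hk : ∀ j, 1 ≤ k j) (L : List (ℕ × Bool))
    (hL : FreeGroup.IsReduced L) : FreeGroup.IsReduced (rep k L) := by
  induction L with
  | nil => exact hL
  | cons p L ih =>
    have h1 : FreeGroup.IsReduced L := by
      unfold FreeGroup.IsReduced at *
      exact (List.isChain_cons.1 hL).2
    rw [rep_cons]
    refine chain_replicate_append (ih h1) ?_ _
    rw [rep_head k hk]
    unfold FreeGroup.IsReduced at hL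
    exact (List.isChain_cons.1 hL).1

theorem lift_pow_injective (k : ℕ → ℕ) (hk : ∀ j, 1 ≤ k j) :
    Function.Injective (FreeGroup.lift (fun j => (FreeGroup.of j : FreeGroup ℕ) ^ (k j))) := by
  rw [injective_iff_map_eq_one]
  intro x hx
  rw [← FreeGroup.mk_toWord (x := x), lift_pow_mk] at hx
  have h1 : FreeGroup.IsReduced (rep k x.toWord) := rep_reduced k hk _ FreeGroup.isReduced_toWord
  have h2 : (FreeGroup.mk (rep k x.toWord)).toWord = rep k x.toWord := by
    rw [FreeGroup.toWord_mk]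
    exact h1.reduce_eq
  rw [hx, FreeGroup.toWord_one] at h2
  have h3 : x.toWord.head? = none := by
    rw [← rep_head k hk, ← h2]
    rfl
  rw [← FreeGroup.toWord_eq_nil_iff]
  exact List.head?_eq_none_iff.1 h3

/-! ### free pairs -/

theorem comm_of_subsingleton {X : Type*} [Subsingleton X] (u v : FreeGroup X) : Commute u v := by
  have key : ∀ (i : X) (v : FreeGroup X), Commute (FreeGroup.of i) v := by
    intro i v
    induction v using FreeGroup.induction_on with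
    | C1 => exact Commute.one_right _
    | of j => rw [Subsingleton.elim i j]
    | inv_of j ih => exact ih.inv_right
    | mul x y hx hy => exact hx.mul_right hy
  induction u using FreeGroup.induction_on with
  | C1 => exact Commute.one_left _
  | of i => exact key i v
  | inv_of i ih => exact ih.inv_left
  | mul x y hx hy => exact hx.mul_left hy

theorem free_pair {F : Type*} [Group F] [IsFreeGroup F] (P : Subgroup F)
    (hP : ∃ a ∈ P, ∃ b ∈ P, a * b ≠ b * a) :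
    ∃ s ∈ P, ∃ t ∈ P, Function.Injective (FreeGroup.lift ![s, t] : FreeGroup (Fin 2) →* F) := by
  obtain ⟨a, ha, b, hb, hab⟩ := hP
  set e : P ≃* FreeGroup (IsFreeGroup.Generators P) := IsFreeGroup.toFreeGroup P with he
  have hns : ¬ Subsingleton (IsFreeGroup.Generators P) := by
    intro hs
    apply hab
    have h1 := (comm_of_subsingleton (e ⟨a, ha⟩) (e ⟨b, hb⟩)).eq
    rw [← map_mul, ← map_mul] at h1
    exact congrArg Subtype.val (e.injective h1)
  rw [not_subsingleton_iff_nontrivial] at hns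
  obtain ⟨x, y, hxy⟩ := hns.exists_pair_ne
  refine ⟨(e.symm (FreeGroup.of x) : P), (e.symm (FreeGroup.of x)).2,
    (e.symm (FreeGroup.of y) : P), (e.symm (FreeGroup.of y)).2, ?_⟩
  have hinj : Function.Injective (![x, y] : Fin 2 → IsFreeGroup.Generators P) := by
    intro i j h
    fin_cases i <;> fin_cases j
    · rfl
    · exact absurd h hxy
    · exact absurd h.symm hxy
    · rfl
  have h2 : (FreeGroup.lift ![((e.symm (FreeGroup.of x) : P) : F), ((e.symm (FreeGroup.of y) : P) : F)] :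
      FreeGroup (Fin 2) →* F) = (P.subtype.comp e.symm.toMonoidHom).comp (FreeGroup.map ![x, y]) := by
    ext i
    fin_cases i <;> simp
  rw [h2]
  exact (P.subtype_injective.comp e.symm.injective).comp (FreeGroup.map_injective hinj)

/-- the sequence `(t^j s t^(-j))^(k j)` is free -/
theorem seq_free {F : Type*} [Group F] (s t : F)
    (hst : Function.Injective (FreeGroup.lift ![s, t] : FreeGroup (Fin 2) →* F))
    (k : ℕ → ℕ) (hk : ∀ j, 1 ≤ k j) :
    Function.Injective (FreeGroup.lift (fun j : ℕ => (t ^ j * s * (t ^ j)⁻¹) ^ (k j)) :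
      FreeGroup ℕ →* F) := by
  have h1 := pow_free 2 le_rfl 1 le_rfl
  have h2 := lift_pow_injective k hk
  have h3 : (FreeGroup.lift (fun j : ℕ => (t ^ j * s * (t ^ j)⁻¹) ^ (k j)) : FreeGroup ℕ →* F) =
      ((FreeGroup.lift ![s, t] : FreeGroup (Fin 2) →* F).comp
        (FreeGroup.lift (fun j : ℕ =>
          (FreeGroup.of (⟨1, by omega⟩ : Fin 2)) ^ j * (FreeGroup.of (⟨0, by omega⟩ : Fin 2)) ^ 1 *
            ((FreeGroup.of (⟨1, by omega⟩ : Fin 2)) ^ j)⁻¹) : FreeGroup ℕ →* FreeGroup (Fin 2))).comp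
        (FreeGroup.lift (fun j => (FreeGroup.of j : FreeGroup ℕ) ^ (k j))) := by
    ext j
    simp
  rw [h3]
  exact (hst.comp h1).comp h2

/-! ### a finite index version of the rank two theorem -/

theorem n1_index : ThetaAux.N1.FiniteIndex := by
  have h1 : ThetaAux.sg.ker ≤ ThetaAux.N1 := by
    intro x hx
    rw [ThetaAux.mem_N1, ThetaAux.Th_fst, MonoidHom.mem_ker.mp hx]
    rfl
  have : ThetaAux.sg.ker.FiniteIndex := inferInstance
  exact Subgroup.finiteIndex_of_le h1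

theorem theta_exists_index : ∃ (N1 : Subgroup (FreeGroup (Fin 2))) (θ : N1 →* FreeGroup (Fin 2)) (k : ℕ),
    N1.FiniteIndex ∧ Function.Surjective θ ∧ 1 ≤ k ∧
    ∀ α : MulAut (FreeGroup (Fin 2)), ∃ g : FreeGroup (Fin 2),
      ∃ hN : (∀ x, g * (α ^ k) x * g⁻¹ ∈ N1 ↔ x ∈ N1),
        ∀ x : N1, θ ⟨g * (α ^ k) x * g⁻¹, (hN x).2 x.2⟩ = θ x := by
  refine ⟨ThetaAux.N1, ThetaAux.th, 6, n1_index, ThetaAux.th_surj, by norm_num, ?_⟩
  intro α
  obtain ⟨β, hβ, T, hT, hx⟩ := ThetaAux.E_top α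
  obtain ⟨h₀, hh₀⟩ := ThetaAux.K_six hβ
  have hT6 : ∀ (n : ℕ) (k : ThetaAux.Q) (z : Fin 4 × ThetaAux.Q),
      (T ^ n) (ThetaAux.rm k z) = ThetaAux.rm ((β ^ n) k) ((T ^ n) z) := by
    intro n
    induction n with
    | zero => intro k z; rfl
    | succ n ih =>
      intro k z
      rw [pow_succ, Equiv.Perm.mul_apply, hT, ih, pow_succ, MulAut.mul_apply,
        Equiv.Perm.mul_apply]
  have hx6 : ∀ (n : ℕ) (x : ThetaAux.Q), T ^ n * ThetaAux.Th x = ThetaAux.Th ((α ^ n) x) * T ^ n := by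
    intro n
    induction n with
    | zero => intro x; rw [pow_zero, pow_zero, one_mul, mul_one]; rfl
    | succ n ih =>
      intro x
      rw [pow_succ, mul_assoc, hx, ← mul_assoc, ih, mul_assoc, pow_succ, MulAut.mul_apply]
  obtain ⟨g, hg⟩ := ThetaAux.trans_all ((T ^ 6) (0, 1)) h₀⁻¹
  -- the map `J = Θ g T ^ 6`
  have hJ : ∀ h : ThetaAux.Q, ThetaAux.Th g ((T ^ 6) (0, h)) = (0, h * h₀⁻¹) := by
    intro h
    have e : ((0, h) : Fin 4 × ThetaAux.Q) = ThetaAux.rm h (0, 1) := by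
      rw [ThetaAux.rm_apply, one_mul]
    rw [e, hT6, ThetaAux.Th_rm, hg, ThetaAux.rm_apply, ← hh₀, MulAut.conj_apply]
    simp [mul_assoc]
  have hconj : ∀ (x : ThetaAux.Q), ThetaAux.Th (g * (α ^ 6) x * g⁻¹) (0, 1) =
      ThetaAux.Th g ((T ^ 6) (ThetaAux.Th x (0, h₀))) := by
    intro x
    have e1 : ((0, 1) : Fin 4 × ThetaAux.Q) = ThetaAux.Th g ((T ^ 6) (0, h₀)) := by
      rw [hJ, mul_inv_cancel]
    have e2 := congrArg (fun f : Equiv.Perm (Fin 4 × ThetaAux.Q) => f (0, h₀)) (hx6 6 x)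
    simp only [Equiv.Perm.mul_apply] at e2
    rw [e1, map_mul, map_mul, map_inv, Equiv.Perm.mul_apply, Equiv.Perm.mul_apply,
      ThetaAux.pinv1, e2]
  have hN : ∀ x : ThetaAux.Q, g * (α ^ 6) x * g⁻¹ ∈ ThetaAux.N1 ↔ x ∈ ThetaAux.N1 := by
    intro x
    rw [ThetaAux.mem_N1, hconj]
    constructor
    · intro h
      have e3 : ThetaAux.Th g ((T ^ 6) (ThetaAux.Th x (0, h₀))) =
          ThetaAux.Th g ((T ^ 6) (0, (ThetaAux.Th g ((T ^ 6) (ThetaAux.Th x (0, h₀)))).2 * h₀)) := by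
        rw [hJ]
        exact Prod.ext h (by simp)
      have e4 := (T ^ 6).injective ((ThetaAux.Th g).injective e3)
      rw [ThetaAux.mem_N1, ThetaAux.Th_fst]
      have e5 := congrArg Prod.fst e4
      rw [ThetaAux.Th_fst] at e5
      exact e5
    · intro h
      rw [ThetaAux.Th_one (ThetaAux.N1_eq h), hJ]
  refine ⟨g, hN, ?_⟩
  intro x
  rw [ThetaAux.th_def, ThetaAux.th_def]
  change (ThetaAux.Th (g * (α ^ 6) x * g⁻¹) (0, 1)).2 = _
  rw [hconj, ThetaAux.Th_one (ThetaAux.N1_eq x.2), hJ]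
  simp


/-! ### composition of two virtual quotients -/

/-- `(γ · α)^m` is an inner automorphism times `α^m` -/
theorem conj_mul_pow {F : Type*} [Group F] (γ : F) (α : MulAut F) (m : ℕ) :
    ∃ δ : F, (MulAut.conj γ * α) ^ m = MulAut.conj δ * α ^ m := by
  induction m with
  | zero => exact ⟨1, by simp⟩
  | succ m ih =>
    obtain ⟨δ, hδ⟩ := ih
    refine ⟨δ * (α ^ m) γ, ?_⟩
    rw [pow_succ, hδ, map_mul]
    ext1 x
    simp [MulAut.mul_apply, pow_succ, mul_assoc]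

open AssembleAux in
/-- the automorphism induced on the quotient -/
theorem induced {F Q : Type*} [Group F] [Group Q] (N : Subgroup F) (θ : N →* Q)
    (hθ : Function.Surjective θ) (α : MulAut F) (h : ∀ x, α x ∈ N ↔ x ∈ N)
    (hk : ∀ x : N, θ (restr N α h x) = 1 ↔ θ x = 1) :
    ∃ β : MulAut Q, ∀ x : N, β (θ x) = θ (restr N α h x) := by
  have h1 : θ.ker ≤ (θ.comp (restr N α h).toMonoidHom).ker := by
    intro x hx
    rw [MonoidHom.mem_ker] at hx ⊢
    exact (hk x).2 hx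
  have h2 : θ.ker ≤ (θ.comp (restr N α h).symm.toMonoidHom).ker := by
    intro x hx
    rw [MonoidHom.mem_ker] at hx ⊢
    have h3 := (hk ((restr N α h).symm x)).1
    rw [MulEquiv.apply_symm_apply] at h3
    exact h3 hx
  set b1 : Q →* Q := MonoidHom.liftOfRightInverse θ (Function.surjInv hθ)
    (Function.rightInverse_surjInv hθ) ⟨_, h1⟩ with hb1
  set b2 : Q →* Q := MonoidHom.liftOfRightInverse θ (Function.surjInv hθ)
    (Function.rightInverse_surjInv hθ) ⟨_, h2⟩ with hb2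
  have e1 : ∀ x, b1 (θ x) = θ (restr N α h x) := fun x =>
    MonoidHom.liftOfRightInverse_comp_apply θ _ _ _ x
  have e2 : ∀ x, b2 (θ x) = θ ((restr N α h).symm x) := fun x =>
    MonoidHom.liftOfRightInverse_comp_apply θ _ _ _ x
  refine ⟨MonoidHom.toMulEquiv b1 b2 ?_ ?_, e1⟩
  · ext y
    obtain ⟨x, rfl⟩ := hθ y
    simp [e1, e2]
  · ext y
    obtain ⟨x, rfl⟩ := hθ y
    simp [e1, e2]

open AssembleAux in
theorem compose {F : Type*} [Group F] (N : Subgroup F) (hfg : N.FG) (θ : N →* FreeGroup (Fin 2))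
    (hθ : Function.Surjective θ) :
    ∃ (N2 : Subgroup F) (θ2 : N2 →* FreeGroup (Fin 2)) (k' : ℕ),
      N2.FG ∧ Function.Surjective θ2 ∧ 1 ≤ k' ∧
      ∀ (α : MulAut F) (h : ∀ x, α x ∈ N ↔ x ∈ N)
        (_ : ∀ x : N, θ (restr N α h x) = 1 ↔ θ x = 1),
        ∃ g : F, ∃ hN : (∀ x, g * (α ^ k') x * g⁻¹ ∈ N2 ↔ x ∈ N2),
          ∀ x : N2, θ2 ⟨g * (α ^ k') x * g⁻¹, (hN x).2 x.2⟩ = θ2 x := by
  obtain ⟨N1, θ1, k', hN1, hθ1, hk', H⟩ := theta_exists_index
  set N2 : Subgroup F := (N1.comap θ).map N.subtype with hN2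
  have m1 : ∀ x : F, x ∈ N2 ↔ ∃ hx : x ∈ N, θ ⟨x, hx⟩ ∈ N1 := by
    intro x
    rw [hN2, Subgroup.mem_map]
    constructor
    · rintro ⟨y, hy, rfl⟩
      exact ⟨y.2, hy⟩
    · rintro ⟨hx, hy⟩
      exact ⟨⟨x, hx⟩, hy, rfl⟩
  have a1 : ∀ x : N2, (x : F) ∈ N := fun x => ((m1 x).1 x.2).choose
  have a2 : ∀ x : N2, θ ⟨x, a1 x⟩ ∈ N1 := fun x => ((m1 x).1 x.2).choose_spec
  set θ2 : N2 →* FreeGroup (Fin 2) :=
    { toFun := fun x => θ1 ⟨θ ⟨x, a1 x⟩, a2 x⟩
      map_one' := by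
        have : (⟨θ ⟨(1 : N2), a1 1⟩, a2 1⟩ : N1) = 1 := Subtype.ext (map_one θ)
        rw [this, map_one]
      map_mul' := by
        intro x y
        rw [← map_mul]
        congr 1
        exact Subtype.ext (map_mul θ ⟨x, a1 x⟩ ⟨y, a1 y⟩) } with hθ2
  have hθ2' : ∀ x : N2, θ2 x = θ1 ⟨θ ⟨x, a1 x⟩, a2 x⟩ := fun x => rfl
  refine ⟨N2, θ2, k', ?_, ?_, hk', ?_⟩
  · have : Group.FG N := (Group.fg_iff_subgroup_fg N).2 hfg
    have h1 : (N1.comap θ).FiniteIndex :=
      ⟨by rw [Subgroup.index_comap_of_surjective _ hθ]; exact hN1.index_ne_zero⟩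
    have h2 : (N1.comap θ).FG := (Group.fg_iff_subgroup_fg _).1 inferInstance
    obtain ⟨S, hS⟩ := h2
    classical
    refine ⟨S.image N.subtype, ?_⟩
    rw [Finset.coe_image, ← MonoidHom.map_closure, hS]
  · intro y
    obtain ⟨u, hu⟩ := hθ1 y
    obtain ⟨x, hx⟩ := hθ u
    have hxm : (x : F) ∈ N2 := (m1 x).2 ⟨x.2, by rw [hx]; exact u.2⟩
    refine ⟨⟨x, hxm⟩, ?_⟩
    rw [hθ2', ← hu]
    congr 1
    exact Subtype.ext hx
  · intro α h hk
    obtain ⟨β, hβ⟩ := induced N θ hθ α h hk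
    obtain ⟨g, hg, hgθ⟩ := H β
    obtain ⟨γ, hγ⟩ := hθ g
    have hpow : ∀ (m : ℕ) (x : F), (α ^ m) x ∈ N ↔ x ∈ N := by
      intro m
      induction m with
      | zero => intro x; rfl
      | succ m ih => intro x; rw [pow_succ, MulAut.mul_apply, ih, h]
    have hpowβ : ∀ (m : ℕ) (x : N), (β ^ m) (θ x) = θ ⟨(α ^ m) x, (hpow m x).2 x.2⟩ := by
      intro m
      induction m with
      | zero => intro x; rfl
      | succ m ih =>
        intro x
        rw [pow_succ, MulAut.mul_apply, hβ, ih]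
        rfl
    have hc : ∀ x : F, (γ : F) * (α ^ k') x * (γ : F)⁻¹ ∈ N ↔ x ∈ N := by
      intro x
      rw [Subgroup.mul_mem_cancel_right _ (N.inv_mem γ.2), Subgroup.mul_mem_cancel_left _ γ.2, hpow]
    have hcθ : ∀ (x : F) (hx : x ∈ N), θ ⟨(γ : F) * (α ^ k') x * (γ : F)⁻¹, (hc x).2 hx⟩ =
        g * (β ^ k') (θ ⟨x, hx⟩) * g⁻¹ := by
      intro x hx
      rw [hpowβ k' ⟨x, hx⟩, ← hγ, ← map_inv, ← map_mul, ← map_mul]
      rfl
    have hN : ∀ x : F, (γ : F) * (α ^ k') x * (γ : F)⁻¹ ∈ N2 ↔ x ∈ N2 := by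
      intro x
      rw [m1, m1]
      constructor
      · rintro ⟨h1, h2⟩
        have hx : x ∈ N := (hc x).1 h1
        refine ⟨hx, ?_⟩
        rw [hcθ x hx] at h2
        exact (hg _).1 h2
      · rintro ⟨hx, h2⟩
        refine ⟨(hc x).2 hx, ?_⟩
        rw [hcθ x hx]
        exact (hg _).2 h2
    refine ⟨γ, hN, ?_⟩
    intro x
    rw [hθ2', hθ2', ← hgθ ⟨θ ⟨x, a1 x⟩, a2 x⟩]
    congr 1
    exact Subtype.ext (hcθ x (a1 x))

open AssembleAux in
/-- the end of the proof of the assembly, for an arbitrary free sequence -/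
theorem finish (n : ℕ) (φ : FreeGroup (Fin n) →* MulAut (FreeGroup (Fin n)))
    (N1 : Subgroup (FreeGroup (Fin n))) (hfg : N1.FG) (θ : N1 →* FreeGroup (Fin 2))
    (hθ : Function.Surjective θ) (g τ : ℕ → FreeGroup (Fin n))
    (hτ : Function.Injective (FreeGroup.lift τ))
    (hN : ∀ (j : ℕ) (x : FreeGroup (Fin n)), g j * φ (τ j) x * (g j)⁻¹ ∈ N1 ↔ x ∈ N1)
    (hθg : ∀ (j : ℕ) (x : N1), θ ⟨g j * φ (τ j) x * (g j)⁻¹, (hN j x).2 x.2⟩ = θ x) :
    ¬ ComputablePred (Occur n φ) := by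
  obtain ⟨lam, Lam, hl, hinj⟩ := push φ N1 θ g τ hN hθg hτ
  have : Group.FG N1 := (Group.fg_iff_subgroup_fg N1).2 hfg
  obtain ⟨e0, R0, h0⟩ := exists_undecidable
  obtain ⟨e, R, hR, hU⟩ := invol e0 R0 h0
  obtain ⟨S, b, hS, hb⟩ := dominate θ hθ lam hl e R hR
  refine transfer φ e R hU (Lam '' S) (hS.image _) (fun i => Lam (b i)) ?_
  intro w
  rw [← hb w, ← MonoidHom.map_closure]
  have h1 : FreeGroup.lift (fun i => Lam (b i)) w = Lam (FreeGroup.lift b w) := by
    have h2 : FreeGroup.lift (fun i => Lam (b i)) = Lam.comp (FreeGroup.lift b) := by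
      ext i <;> simp
    rw [h2]
    rfl
  rw [h1]
  exact Subgroup.mem_map_iff_mem hinj

end GeneralAux

open GeneralAux in
/-- General criterion: a nonabelian subgroup `P` of the acting free group virtually preserves, up to inner automorphisms, a finitely generated subgroup and the kernel of a map of it onto a free group of rank two. -/
theorem criterion_general (n : ℕ) (φ : FreeGroup (Fin n) →* MulAut (FreeGroup (Fin n)))
    (P : Subgroup (FreeGroup (Fin n))) (hP : ∃ a ∈ P, ∃ b ∈ P, a * b ≠ b * a)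
    (N1 : Subgroup (FreeGroup (Fin n))) (hfg : N1.FG) (θ : N1 →* FreeGroup (Fin 2))
    (hθ : Function.Surjective θ)
    (h : ∀ f ∈ P, ∃ k : ℕ, 1 ≤ k ∧ ∃ g : FreeGroup (Fin n),
      ∃ hN : (∀ x, g * φ (f ^ k) x * g⁻¹ ∈ N1 ↔ x ∈ N1),
        ∀ x : N1, θ ⟨g * φ (f ^ k) x * g⁻¹, (hN x).2 x.2⟩ = 1 ↔ θ x = 1) :
    ¬ ComputablePred (Occur n φ) := by
  obtain ⟨s, hs, t, ht, hst⟩ := free_pair P hP
  obtain ⟨N2, θ2, k', h1, h2, h3, H⟩ := compose N1 hfg θ hθ
  have hf : ∀ j : ℕ, t ^ j * s * (t ^ j)⁻¹ ∈ P := fun j =>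
    P.mul_mem (P.mul_mem (P.pow_mem ht j) hs) (P.inv_mem (P.pow_mem ht j))
  choose k hk g hN hg using fun j => h _ (hf j)
  have key : ∀ j : ℕ, ∃ γ : FreeGroup (Fin n),
      ∃ hM : (∀ x, γ * φ ((t ^ j * s * (t ^ j)⁻¹) ^ (k j * k')) x * γ⁻¹ ∈ N2 ↔ x ∈ N2),
        ∀ x : N2, θ2 ⟨γ * φ ((t ^ j * s * (t ^ j)⁻¹) ^ (k j * k')) x * γ⁻¹, (hM x).2 x.2⟩ = θ2 x := by
    intro j
    obtain ⟨γ, hM, hγ⟩ := H (MulAut.conj (g j) * φ ((t ^ j * s * (t ^ j)⁻¹) ^ (k j)))
      (fun x => hN j x) (fun x => hg j x)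
    obtain ⟨δ, hδ⟩ := conj_mul_pow (g j) (φ ((t ^ j * s * (t ^ j)⁻¹) ^ (k j))) k'
    have e : ∀ x, γ * ((MulAut.conj (g j) * φ ((t ^ j * s * (t ^ j)⁻¹) ^ (k j))) ^ k') x * γ⁻¹ =
        (γ * δ) * φ ((t ^ j * s * (t ^ j)⁻¹) ^ (k j * k')) x * (γ * δ)⁻¹ := by
      intro x
      rw [hδ, ← map_pow, ← pow_mul, MulAut.mul_apply, MulAut.conj_apply]
      group
    refine ⟨γ * δ, fun x => ?_, fun x => ?_⟩
    · rw [← e]
      exact hM x
    · rw [← hγ x]
      congr 1
      exact Subtype.ext (e x).symm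
  choose γ hM hγ using key
  exact finish n φ N2 h1 θ2 h2 γ (fun j => (t ^ j * s * (t ^ j)⁻¹) ^ (k j * k'))
    (seq_free s t hst _ fun j => Nat.mul_pos (hk j) h3) hM hγ

end Pool.Agent.Occ
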