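import Mathlib

/-!
Nielsen: `Aut(F_2)` is generated by the inner automorphisms and the three automorphisms `a ↦ b⁻¹, b ↦ a⁻¹`; `a ↦ a, b ↦ b⁻¹`; `a ↦ a⁻¹, b ↦ a b` (`a = of 0`, `b = of 1`). Stated for a subgroup `E` of `MulAut (FreeGroup (Fin 2))`.

Proof. `E` contains the signed permutations of `{a, b}` and all the moves `(x, y) ↦ (x^±1, y)`, `(y, x)`, `(x, xy)`, ... For `α ∈ MulAut` let `(x, y) = (α a, α b)`. Multiplying `α` on the right by elements of `E` changes `(x, y)` by Nielsen moves,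
on the left by inner automorphisms conjugates both. Choose `α'` in the double coset `E α E` with `|x| + |y|` minimal (`|.|` = `FreeGroup.norm`). Claim: then `{x, y}` are `a^±1, b^±1` in some order, so `α' ∈ E`, so `α ∈ E`.
Let `c(z, w)` be the cancellation in the product `z w` (`|z w| = |z| + |w| - 2 c(z, w)`). Minimality gives `c(z, w) ≤ min(|z|, |w|) / 2` for `z ∈ {x, x⁻¹}`, `w ∈ {y, y⁻¹}` and vice versa; and `c(z, z) < |z| / 2` always (`z ≠ 1`).
Claim: in a product `z1 z2 z3` (`z_i ∈ {x, y}^±1`, no adjacent inverse pair) `z2` is not completely cancelled: `c(z1, z2) + c(z2, z3) < |z2|`. Otherwise both are `|z2| / 2 = h`, so `z1, z3 ≠ z2` and (up to names) `z2 = x = u v⁻¹`, `|u| = |v| = h`, `z1, z3 ∈ {y, y⁻¹}`.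
`z1` ends with `u⁻¹` and `z3` starts with `v`. If `z1 = y⁻¹`, `z3 = y`: `y` starts with `u` and with `v`, so `u = v`, `x = 1`, impossible. Same for `z1 = y`, `z3 = y⁻¹`. If `z1 = z3 = y`: `y` starts with `v` and ends with `u⁻¹`; conjugating by `u`: `x' = v⁻¹ u`,
`y' = u⁻¹ y u`, and `x' y' = v⁻¹ y u` has length at most `|y| - 2 h` if `|y| ≥ 2h` (reduced decomposition `y = v w u⁻¹`), `|x'| ≤ 2h = |x|`: the pair `(x', x' y')` has smaller total length, contradiction to minimality. `z1 = z3 = y⁻¹` is the same with `y⁻¹` for `y`.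
Consequently a reduced product of `k` letters `x^±1, y^±1` has length at least `k` (induction: after multiplying, at least one letter of each factor survives; more precisely the last factor keeps its part after cancellation with its predecessor). Since `a`, `b` are in
`⟨x, y⟩` (surjectivity) and have length `1`, they are among `x^±1, y^±1`.
(Any other proof of Nielsen's theorem in rank two is welcome.)
-/

set_option autoImplicit false

namespace Pool.Agent.Occ

namespace NielsenAux

open FreeGroup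

section lists

variable {β : Type*} [DecidableEq β]

/-- length of the longest common prefix -/
def cpl : List β → List β → ℕ
  | [], _ => 0
  | _ :: _, [] => 0
  | a :: l, b :: m => if a = b then cpl l m + 1 else 0

theorem cpl_nil_left (m : List β) : cpl ([] : List β) m = 0 := by
  cases m <;> rfl

theorem cpl_nil_right (l : List β) : cpl l ([] : List β) = 0 := by
  cases l <;> rfl

theorem cpl_cons (a b : β) (l m : List β) :
    cpl (a :: l) (b :: m) = if a = b then cpl l m + 1 else 0 := rfl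

theorem cpl_comm : ∀ l m : List β, cpl l m = cpl m l
  | [], m => by rw [cpl_nil_left, cpl_nil_right]
  | a :: l, [] => by rw [cpl_nil_left, cpl_nil_right]
  | a :: l, b :: m => by
    rw [cpl_cons, cpl_cons, cpl_comm l m]
    by_cases h : a = b
    · rw [if_pos h, if_pos h.symm]
    · rw [if_neg h, if_neg (Ne.symm h)]

theorem cpl_self : ∀ l : List β, cpl l l = l.length
  | [] => rfl
  | a :: l => by rw [cpl_cons, if_pos rfl, cpl_self l, List.length_cons]

theorem cpl_le : ∀ l m : List β, cpl l m ≤ l.length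
  | [], m => by rw [cpl_nil_left]; exact Nat.zero_le _
  | a :: l, [] => by rw [cpl_nil_right]; exact Nat.zero_le _
  | a :: l, b :: m => by
    rw [cpl_cons, List.length_cons]
    split_ifs
    · have := cpl_le l m
      omega
    · omega

theorem min_cpl : ∀ l m n : List β, min (cpl l m) (cpl m n) ≤ cpl l n
  | [], m, n => by rw [cpl_nil_left, cpl_nil_left]; simp
  | a :: l, [], n => by rw [cpl_nil_left, cpl_nil_right]; simp
  | a :: l, b :: m, [] => by rw [cpl_nil_right]; simp
  | a :: l, b :: m, c :: n => by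
    rw [cpl_cons, cpl_cons, cpl_cons]
    have ih := min_cpl l m n
    by_cases h1 : a = b
    · by_cases h2 : b = c
      · rw [if_pos h1, if_pos h2, if_pos (h1.trans h2)]
        omega
      · rw [if_neg h2]
        simp
    · rw [if_neg h1]
      simp

theorem cpl_take : ∀ (h : ℕ) (l : List β), h ≤ l.length → cpl (l.take h) l = h
  | 0, l, _ => by rw [List.take_zero, cpl_nil_left]
  | h + 1, [], hl => by simp at hl
  | h + 1, a :: l, hl => by
    rw [List.take_succ_cons, cpl_cons, if_pos rfl, cpl_take h l (by simpa using hl)]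

theorem getElem?_of_lt_cpl : ∀ (l m : List β) (i : ℕ), i < cpl l m → l[i]? = m[i]?
  | [], m, i, h => by rw [cpl_nil_left] at h; omega
  | a :: l, [], i, h => by rw [cpl_nil_right] at h; omega
  | a :: l, b :: m, i, h => by
    rw [cpl_cons] at h
    split_ifs at h with hab
    · cases i with
      | zero => simp [hab]
      | succ i =>
        rw [List.getElem?_cons_succ, List.getElem?_cons_succ]
        exact getElem?_of_lt_cpl l m i (by omega)
    · omega

end lists

section words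

variable {α : Type*} [DecidableEq α]

theorem isReduced_invRev {l : List (α × Bool)} (h : IsReduced l) : IsReduced (invRev l) := by
  rw [isReduced_iff_reduce_eq, reduce_invRev, h.reduce_eq]

omit [DecidableEq α] in
theorem invRev_cons (a : α × Bool) (l : List (α × Bool)) :
    invRev (a :: l) = invRev l ++ [(a.1, !a.2)] := by
  simp [invRev]

theorem length_reduce : ∀ l m : List (α × Bool), IsReduced l → IsReduced m →
    (reduce (invRev l ++ m)).length + 2 * cpl l m = l.length + m.length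
  | [], m, _, hm => by
    rw [cpl_nil_left, invRev_empty, List.nil_append, hm.reduce_eq]
    simp
  | a :: l, [], hl, _ => by
    rw [cpl_nil_right, List.append_nil, (isReduced_invRev hl).reduce_eq, invRev_length]
    simp
  | a :: l, b :: m, hl, hm => by
    rw [cpl_cons]
    by_cases hab : a = b
    · subst hab
      rw [if_pos rfl]
      have h1 : IsReduced l := List.IsChain.tail hl
      have h2 : IsReduced m := List.IsChain.tail hm
      have ih := length_reduce l m h1 h2
      have h3 : reduce (invRev (a :: l) ++ a :: m) = reduce (invRev l ++ m) := by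
        rw [invRev_cons, List.append_assoc]
        obtain ⟨x, b⟩ := a
        exact reduce.Step.eq Red.Step.not_rev
      rw [h3, List.length_cons, List.length_cons]
      omega
    · rw [if_neg hab]
      have h3 : IsReduced (invRev (a :: l) ++ b :: m) := by
        rw [invRev_cons]
        refine IsReduced.append_overlap (by rw [← invRev_cons]; exact isReduced_invRev hl) ?_ (by simp)
        rw [List.singleton_append, isReduced_cons_cons]
        refine ⟨fun h => ?_, hm⟩
        obtain ⟨x, c⟩ := a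
        obtain ⟨y, d⟩ := b
        simp only at h
        subst h
        simp only
        have : c ≠ d := fun h => hab (by rw [h])
        revert this
        cases c <;> cases d <;> simp
      rw [h3.reduce_eq, List.length_append, invRev_length]
      simp

theorem two_mul_cpl_lt {w : List (α × Bool)} (hw : IsReduced w) (h0 : w ≠ []) :
    2 * cpl (invRev w) w < w.length := by
  by_contra hcon
  push Not at hcon
  have hn : 0 < w.length := List.length_pos_iff.2 h0
  obtain ⟨i, hi⟩ : ∃ i, i = (w.length - 1) / 2 := ⟨_, rfl⟩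
  have hic : i < cpl (invRev w) w := by omega
  have h1 := getElem?_of_lt_cpl _ _ i hic
  have hil : i < w.length := by omega
  unfold invRev at h1
  rw [List.getElem?_reverse (by simpa using hil), List.length_map, List.getElem?_map] at h1
  rw [List.getElem?_eq_getElem (show w.length - 1 - i < w.length by omega),
    List.getElem?_eq_getElem hil] at h1
  simp only [Option.map_some, Option.some.injEq] at h1
  rcases Nat.even_or_odd' w.length with ⟨k, hk | hk⟩
  · -- even
    have h2 : w.length - 1 - i = i + 1 := by omega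
    have h3 : i + 1 < w.length := by omega
    have h4 := (List.isChain_iff_getElem.1 hw) i h3
    have h5 : w[w.length - 1 - i]'(by omega) = w[i + 1] := by
      congr 1
    rw [h5] at h1
    rw [← h1] at h4
    have h6 := h4 rfl
    revert h6
    cases (w[i + 1]).2 <;> simp
  · have h2 : w.length - 1 - i = i := by omega
    have h5 : w[w.length - 1 - i]'(by omega) = w[i] := by
      congr 1
    rw [h5] at h1
    have h6 := congrArg Prod.snd h1
    revert h6
    simp only
    cases (w[i]).2 <;> simp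

/-- length of the common prefix -/
def cp (x y : FreeGroup α) : ℕ := cpl (toWord x) (toWord y)

theorem cp_comm (x y : FreeGroup α) : cp x y = cp y x := cpl_comm _ _

theorem min_cp (x y z : FreeGroup α) : min (cp x y) (cp y z) ≤ cp x z := min_cpl _ _ _

theorem norm_inv_mul (x y : FreeGroup α) : norm (x⁻¹ * y) + 2 * cp x y = norm x + norm y := by
  unfold FreeGroup.norm cp
  rw [toWord_mul, toWord_inv]
  exact length_reduce _ _ isReduced_toWord isReduced_toWord

theorem norm_mul (x y : FreeGroup α) : norm (x * y) + 2 * cp x⁻¹ y = norm x + norm y := by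
  have h := norm_inv_mul x⁻¹ y
  rw [inv_inv, norm_inv_eq] at h
  exact h

theorem cp_inv_self {x : FreeGroup α} (hx : x ≠ 1) : 2 * cp x⁻¹ x < norm x := by
  unfold cp FreeGroup.norm
  rw [toWord_inv]
  exact two_mul_cpl_lt isReduced_toWord (by rwa [Ne, toWord_eq_nil_iff])

theorem exists_prefix (x : FreeGroup α) {h : ℕ} (hh : h ≤ norm x) :
    ∃ u : FreeGroup α, norm u = h ∧ cp u x = h := by
  have h1 : IsReduced ((toWord x).take h) :=
    List.IsChain.take isReduced_toWord h
  have h2 : toWord (FreeGroup.mk ((toWord x).take h)) = (toWord x).take h := by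
    rw [toWord_mk, h1.reduce_eq]
  refine ⟨FreeGroup.mk ((toWord x).take h), ?_, ?_⟩
  · unfold FreeGroup.norm
    rw [h2, List.length_take]
    exact min_eq_left hh
  · unfold cp
    rw [h2]
    exact cpl_take h _ hh

end words

section pairs

/-- the free group of rank two -/
abbrev F2 : Type := FreeGroup (Fin 2)

/-- the letters of the pair -/
def Z (x y : F2) (p : Fin 2 × Bool) : F2 :=
  if p.1 = 0 then (if p.2 then x else x⁻¹) else (if p.2 then y else y⁻¹)

/-- closed under Nielsen moves and conjugation -/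
structure Cl (P : F2 → F2 → Prop) : Prop where
  swap : ∀ x y, P x y → P y x
  inv : ∀ x y, P x y → P x⁻¹ y
  mul : ∀ x y, P x y → P x (x * y)
  conj : ∀ x y g, P x y → P (g⁻¹ * x * g) (g⁻¹ * y * g)

theorem Cl.inv2 {P : F2 → F2 → Prop} (h : Cl P) {x y : F2} (hP : P x y) : P x y⁻¹ :=
  h.swap _ _ (h.inv _ _ (h.swap _ _ hP))

theorem Cl.mul1 {P : F2 → F2 → Prop} (h : Cl P) {x y : F2} (hP : P x y) : P (x * y) y := by
  have h1 : P y⁻¹ x⁻¹ := h.inv2 (h.inv _ _ (h.swap _ _ hP))
  have h2 := h.inv2 (h.mul _ _ h1)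
  rw [mul_inv_rev, inv_inv, inv_inv] at h2
  have h3 := h.inv _ _ h2
  rw [inv_inv] at h3
  exact h.swap _ _ h3

/-- a pair of least total length -/
structure Mn (P : F2 → F2 → Prop) (x y : F2) : Prop where
  cl : Cl P
  mem : P x y
  min : ∀ x' y', P x' y' → FreeGroup.norm x + FreeGroup.norm y ≤
    FreeGroup.norm x' + FreeGroup.norm y'
  ne : x ≠ 1
  ne' : y ≠ 1

theorem fin2_cases {i j : Fin 2} (h : i ≠ j) : (i = 0 ∧ j = 1) ∨ (i = 1 ∧ j = 0) := by
  revert h
  fin_cases i <;> fin_cases j <;> simp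

theorem Z_inv (x y : F2) (p : Fin 2 × Bool) : Z x y (p.1, !p.2) = (Z x y p)⁻¹ := by
  obtain ⟨i, b⟩ := p
  unfold Z
  by_cases hi : i = 0 <;> cases b <;> simp [hi]

variable {P : F2 → F2 → Prop} {x y : F2}

theorem P_Z (h : Cl P) (hP : P x y) {p q : Fin 2 × Bool} (hpq : p.1 ≠ q.1) :
    P (Z x y p) (Z x y q) := by
  obtain ⟨i, b⟩ := p
  obtain ⟨j, c⟩ := q
  have h1 : P x⁻¹ y := h.inv _ _ hP
  have h2 : P x y⁻¹ := h.inv2 hP
  have h3 : P x⁻¹ y⁻¹ := h.inv2 h1
  rcases fin2_cases hpq with ⟨h4, h5⟩ | ⟨h4, h5⟩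
  · simp only at h4 h5
    subst h4 h5
    cases b <;> cases c <;> simp [Z, hP, h1, h2, h3]
  · simp only at h4 h5
    subst h4 h5
    have h1' := h.swap _ _ h1
    have h2' := h.swap _ _ h2
    have h3' := h.swap _ _ h3
    have h0' := h.swap _ _ hP
    cases b <;> cases c <;> simp [Z, h0', h1', h2', h3']

theorem norm_Z (p q : Fin 2 × Bool) (hpq : p.1 ≠ q.1) :
    FreeGroup.norm (Z x y p) + FreeGroup.norm (Z x y q) =
      FreeGroup.norm x + FreeGroup.norm y := by
  obtain ⟨i, b⟩ := p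
  obtain ⟨j, c⟩ := q
  rcases fin2_cases hpq with ⟨h4, h5⟩ | ⟨h4, h5⟩
  · simp only at h4 h5
    subst h4 h5
    cases b <;> cases c <;> simp [Z, FreeGroup.norm_inv_eq]
  · simp only at h4 h5
    subst h4 h5
    cases b <;> cases c <;> simp [Z, FreeGroup.norm_inv_eq, add_comm]

theorem Z_ne (h : Mn P x y) (p : Fin 2 × Bool) : Z x y p ≠ 1 := by
  obtain ⟨i, b⟩ := p
  unfold Z
  have h1 := h.ne
  have h2 := h.ne'
  by_cases hi : i = 0 <;> cases b <;> simp [hi, h1, h2]

theorem one_le_Z (h : Mn P x y) (p : Fin 2 × Bool) : 1 ≤ FreeGroup.norm (Z x y p) := by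
  rw [Nat.one_le_iff_ne_zero, Ne, FreeGroup.norm_eq_zero]
  exact Z_ne h p

theorem min_Z (h : Mn P x y) {p q : Fin 2 × Bool} (hpq : p.1 ≠ q.1) {x' y' : F2}
    (hP : P x' y') : FreeGroup.norm (Z x y p) + FreeGroup.norm (Z x y q) ≤
      FreeGroup.norm x' + FreeGroup.norm y' := by
  rw [norm_Z p q hpq]
  exact h.min _ _ hP

/-- the letters can be adjacent in a reduced word -/
def Al (p q : Fin 2 × Bool) : Prop := p.1 = q.1 → p.2 = q.2

theorem c1 (h : Mn P x y) {p q : Fin 2 × Bool} (hpq : p.1 ≠ q.1) :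
    2 * cp (Z x y p)⁻¹ (Z x y q) ≤ FreeGroup.norm (Z x y p) ∧
      2 * cp (Z x y p)⁻¹ (Z x y q) ≤ FreeGroup.norm (Z x y q) := by
  have h0 := P_Z h.cl h.mem hpq
  have h1 := min_Z h hpq (h.cl.mul _ _ h0)
  have h2 := min_Z h hpq (h.cl.mul1 h0)
  have h3 := norm_mul (Z x y p) (Z x y q)
  omega

theorem c1' (h : Mn P x y) {p q : Fin 2 × Bool} (hpq : Al p q) :
    2 * cp (Z x y p)⁻¹ (Z x y q) ≤ FreeGroup.norm (Z x y p) ∧
      2 * cp (Z x y p)⁻¹ (Z x y q) ≤ FreeGroup.norm (Z x y q) := by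
  by_cases h0 : p.1 = q.1
  · have h1 : p = q := Prod.ext h0 (hpq h0)
    subst h1
    have h2 := cp_inv_self (Z_ne h p)
    omega
  · exact c1 h h0

theorem c2 (h : Mn P x y) {p q r : Fin 2 × Bool} (hpq : Al p q) (hqr : Al q r) :
    cp (Z x y p)⁻¹ (Z x y q) + cp (Z x y q)⁻¹ (Z x y r) < FreeGroup.norm (Z x y q) := by
  by_contra hcon
  push Not at hcon
  have hp1 := c1' h hpq
  have hr1 := c1' h hqr
  have hq2 := cp_inv_self (Z_ne h q)
  have hpq1 : p.1 ≠ q.1 := by
    intro h0
    have h1 : p = q := Prod.ext h0 (hpq h0)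
    subst h1
    omega
  have hqr1 : q.1 ≠ r.1 := by
    intro h0
    have h1 : q = r := Prod.ext h0 (hqr h0)
    subst h1
    omega
  have hpr1 : r.1 = p.1 := by
    rcases fin2_cases hpq1 with ⟨h4, h5⟩ | ⟨h4, h5⟩ <;>
      rcases fin2_cases hqr1 with ⟨h6, h7⟩ | ⟨h6, h7⟩
    · rw [h5] at h6; simp at h6
    · rw [h7, h4]
    · rw [h7, h4]
    · rw [h5] at h6; simp at h6
  by_cases hpr2 : r.2 = p.2
  · have hrp : r = p := Prod.ext hpr1 hpr2
    subst hrp
    have hP0 : P (Z x y q) (Z x y r) := P_Z h.cl h.mem hqr1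
    have hmin : ∀ x' y', P x' y' → FreeGroup.norm (Z x y q) + FreeGroup.norm (Z x y r) ≤
        FreeGroup.norm x' + FreeGroup.norm y' := fun x' y' hP => min_Z h hqr1 hP
    have hq1 := one_le_Z h q
    generalize Z x y q = X at *
    generalize Z x y r = Y at *
    obtain ⟨k, hk⟩ : ∃ k, k = cp Y⁻¹ X := ⟨_, rfl⟩
    have hk2 : cp X⁻¹ Y = k := by omega
    have hX : FreeGroup.norm X = 2 * k := by omega
    have hY : 2 * k ≤ FreeGroup.norm Y := by omega
    obtain ⟨u, hu, hux⟩ := exists_prefix X (h := k) (by omega)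
    have e1 := norm_inv_mul u X
    have hv : FreeGroup.norm (X⁻¹ * u) = k := by
      have : X⁻¹ * u = (u⁻¹ * X)⁻¹ := by group
      rw [this, FreeGroup.norm_inv_eq]
      omega
    have e2 := norm_inv_mul X⁻¹ (X⁻¹ * u)
    rw [inv_inv, mul_inv_cancel_left, FreeGroup.norm_inv_eq, hv, hu, hX] at e2
    have e3 := min_cp (X⁻¹ * u) X⁻¹ Y
    rw [cp_comm (X⁻¹ * u) X⁻¹, hk2] at e3
    have e4 := norm_inv_mul (X⁻¹ * u) Y
    rw [hv] at e4
    obtain ⟨w, hw⟩ : ∃ w, w = (X⁻¹ * u)⁻¹ * Y := ⟨_, rfl⟩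
    rw [← hw] at e4
    have e5 : FreeGroup.norm Y ≤ k + FreeGroup.norm w := by
      have h1 := FreeGroup.norm_mul_le (X⁻¹ * u) w
      rw [hv, hw, mul_inv_cancel_left] at h1
      rw [hw]
      exact h1
    have e6 := norm_inv_mul w⁻¹ Y⁻¹
    have e7 : w⁻¹⁻¹ * Y⁻¹ = (X⁻¹ * u)⁻¹ := by rw [hw]; group
    rw [e7, FreeGroup.norm_inv_eq, FreeGroup.norm_inv_eq, FreeGroup.norm_inv_eq, hv] at e6
    have e8 := min_cp u X Y⁻¹
    rw [hux, cp_comm X Y⁻¹, ← hk] at e8
    have e9 := min_cp w⁻¹ Y⁻¹ u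
    rw [cp_comm Y⁻¹ u] at e9
    have e10 := norm_mul w u
    have e11 := hmin _ _ (h.cl.conj _ _ u (h.cl.mul _ _ hP0))
    have e12 : u⁻¹ * (X * Y) * u = w * u := by rw [hw]; group
    have e13 : FreeGroup.norm (u⁻¹ * X * u) ≤ 2 * k := by
      have h1 := FreeGroup.norm_mul_le (u⁻¹ * X) u
      omega
    rw [e12] at e11
    omega
  · have hrp : r = (p.1, !p.2) := by
      refine Prod.ext hpr1 ?_
      revert hpr2
      cases r.2 <;> cases p.2 <;> simp
    rw [hrp, Z_inv] at hr1 hcon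
    have e1 := min_cp (Z x y q)⁻¹ (Z x y p)⁻¹ (Z x y q)
    omega

/-- the product of a word in the pair -/
def Wd (x y : F2) : List (Fin 2 × Bool) → F2
  | [] => 1
  | p :: L => Z x y p * Wd x y L

theorem key (h : Mn P x y) : ∀ (L : List (Fin 2 × Bool)) (q : Fin 2 × Bool),
    FreeGroup.IsReduced (q :: L) →
    (∀ p, Al p q → cp (Z x y p)⁻¹ (Wd x y (q :: L)) ≤ cp (Z x y p)⁻¹ (Z x y q)) ∧
    (∀ p, Al p q → L.length + 1 + cp (Z x y p)⁻¹ (Z x y q) ≤
      FreeGroup.norm (Wd x y (q :: L))) ∧ L.length + 1 ≤ FreeGroup.norm (Wd x y (q :: L))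
  | [], q, _ => by
    have h1 := one_le_Z h q
    have h2 : Wd x y [q] = Z x y q := by simp [Wd]
    rw [h2]
    refine ⟨fun p _ => le_rfl, fun p hp => ?_, by simpa using h1⟩
    have h3 := c1' h hp
    simp only [List.length_nil]
    omega
  | r :: L, q, hL => by
    rw [FreeGroup.isReduced_cons_cons] at hL
    obtain ⟨hqr, hL⟩ := hL
    have hqr' : Al q r := hqr
    obtain ⟨ih1, ih2, ih3⟩ := key h L r hL
    have h2 : Wd x y (q :: r :: L) = Z x y q * Wd x y (r :: L) := rfl
    rw [h2]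
    obtain ⟨V, hV⟩ : ∃ V, V = Wd x y (r :: L) := ⟨_, rfl⟩
    rw [← hV] at ih1 ih2 ih3 ⊢
    have a1 := ih1 q hqr'
    have a2 := ih2 q hqr'
    have a3 := norm_mul (Z x y q) V
    have a4 := c1' h hqr'
    have a5 := one_le_Z h q
    rw [List.length_cons]
    refine ⟨fun p hp => ?_, fun p hp => ?_, by omega⟩
    · have b1 := c2 h hp hqr'
      have b2 := norm_inv_mul (Z x y q * V) (Z x y q)
      have b3 : (Z x y q * V)⁻¹ * Z x y q = V⁻¹ := by group
      rw [b3, FreeGroup.norm_inv_eq] at b2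
      have b4 := min_cp (Z x y p)⁻¹ (Z x y q * V) (Z x y q)
      omega
    · have b1 := c2 h hp hqr'
      omega

theorem map_mk (γ : F2 →* F2) : ∀ L : List (Fin 2 × Bool),
    γ (FreeGroup.mk L) = Wd (γ (FreeGroup.of 0)) (γ (FreeGroup.of 1)) L
  | [] => _root_.map_one γ
  | p :: L => by
    have h1 : FreeGroup.mk (p :: L) = FreeGroup.mk [p] * FreeGroup.mk L := by
      rw [FreeGroup.mul_mk]
      rfl
    rw [h1, _root_.map_mul, map_mk γ L]
    have h2 : γ (FreeGroup.mk [p]) = Z (γ (FreeGroup.of 0)) (γ (FreeGroup.of 1)) p := by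
      obtain ⟨i, b⟩ := p
      have h3 : FreeGroup.mk [(i, false)] = (FreeGroup.of i)⁻¹ := by
        rw [FreeGroup.of, FreeGroup.inv_mk]
        rfl
      have h4 : FreeGroup.mk [(i, true)] = FreeGroup.of i := rfl
      fin_cases i <;> cases b
      · simp only [Z]
        rw [h3, _root_.map_inv]
        simp
      · simp only [Z]
        rw [h4]
        simp
      · simp only [Z]
        rw [h3, _root_.map_inv]
        simp
      · simp only [Z]
        rw [h4]
        simp
    rw [h2]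
    rfl

theorem norm_le_map (γ : F2 →* F2) (h : Mn P (γ (FreeGroup.of 0)) (γ (FreeGroup.of 1))) (g : F2) :
    FreeGroup.norm g ≤ FreeGroup.norm (γ g) := by
  have h1 : γ g = Wd (γ (FreeGroup.of 0)) (γ (FreeGroup.of 1)) g.toWord := by
    rw [← map_mk, FreeGroup.mk_toWord]
  rw [h1]
  unfold FreeGroup.norm
  have h2 : FreeGroup.IsReduced g.toWord := FreeGroup.isReduced_toWord
  cases hL : g.toWord with
  | nil => simp
  | cons q L =>
    rw [hL] at h2
    have h3 := (key h L q h2).2.2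
    rw [List.length_cons]
    exact h3

end pairs

section autos

theorem exists_auto (x y : F2)
    (hx : FreeGroup.lift ![x, y] x = FreeGroup.of 0) (hy : FreeGroup.lift ![x, y] y = FreeGroup.of 1) :
    ∃ σ : MulAut F2, σ (FreeGroup.of 0) = x ∧ σ (FreeGroup.of 1) = y := by
  have h : (FreeGroup.lift ![x, y]).comp (FreeGroup.lift ![x, y]) = MonoidHom.id F2 := by
    refine FreeGroup.ext_hom _ _ fun i => ?_
    fin_cases i
    · simpa using hx
    · simpa using hy
  refine ⟨MonoidHom.toMulEquiv (FreeGroup.lift ![x, y]) (FreeGroup.lift ![x, y]) h h, ?_, ?_⟩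
  · change FreeGroup.lift ![x, y] (FreeGroup.of 0) = x
    simp
  · change FreeGroup.lift ![x, y] (FreeGroup.of 1) = y
    simp

/-- the pairs of images under the automorphisms in the coset -/
def PP (E : Subgroup (MulAut F2)) (α : MulAut F2) (x y : F2) : Prop :=
  ∃ γ : MulAut F2, α⁻¹ * γ ∈ E ∧ γ (FreeGroup.of 0) = x ∧ γ (FreeGroup.of 1) = y

theorem cl_PP (E : Subgroup (MulAut F2)) (hinn : ∀ g, MulAut.conj g ∈ E)
    (h1 : ∀ α : MulAut F2, α (FreeGroup.of 0) = (FreeGroup.of 1)⁻¹ →
      α (FreeGroup.of 1) = (FreeGroup.of 0)⁻¹ → α ∈ E)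
    (h2 : ∀ α : MulAut F2, α (FreeGroup.of 0) = FreeGroup.of 0 →
      α (FreeGroup.of 1) = (FreeGroup.of 1)⁻¹ → α ∈ E)
    (h3 : ∀ α : MulAut F2, α (FreeGroup.of 0) = (FreeGroup.of 0)⁻¹ →
      α (FreeGroup.of 1) = FreeGroup.of 0 * FreeGroup.of 1 → α ∈ E) (α : MulAut F2) :
    Cl (PP E α) := by
  obtain ⟨σ, hσ0, hσ1⟩ := exists_auto (FreeGroup.of 1)⁻¹ (FreeGroup.of 0)⁻¹ (by simp) (by simp)
  obtain ⟨τ, hτ0, hτ1⟩ := exists_auto (FreeGroup.of 0) (FreeGroup.of 1)⁻¹ (by simp) (by simp)
  obtain ⟨ρ, hρ0, hρ1⟩ := exists_auto (FreeGroup.of 0)⁻¹ (FreeGroup.of 0 * FreeGroup.of 1)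
    (by simp) (by simp)
  have hσ := h1 σ hσ0 hσ1
  have hτ := h2 τ hτ0 hτ1
  have hρ := h3 ρ hρ0 hρ1
  have hswap : ∀ x y, PP E α x y → PP E α y x := by
    rintro x y ⟨γ, hγ, hx, hy⟩
    refine ⟨γ * (τ * σ * τ), ?_, ?_, ?_⟩
    · rw [← mul_assoc]
      exact E.mul_mem hγ (E.mul_mem (E.mul_mem hτ hσ) hτ)
    · simp only [MulAut.mul_apply, hτ0, hσ0, hτ1, _root_.map_inv, inv_inv, hy]
    · simp only [MulAut.mul_apply, hτ0, hσ1, hτ1, _root_.map_inv, inv_inv, hx]
  have hinv2 : ∀ x y, PP E α x y → PP E α x y⁻¹ := by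
    rintro x y ⟨γ, hγ, hx, hy⟩
    refine ⟨γ * τ, ?_, ?_, ?_⟩
    · rw [← mul_assoc]
      exact E.mul_mem hγ hτ
    · simp only [MulAut.mul_apply, hτ0, hx]
    · simp only [MulAut.mul_apply, hτ1, _root_.map_inv, hy]
  have hinv : ∀ x y, PP E α x y → PP E α x⁻¹ y := fun x y h =>
    hswap _ _ (hinv2 _ _ (hswap _ _ h))
  refine ⟨hswap, hinv, ?_, ?_⟩
  · rintro x y ⟨γ, hγ, hx, hy⟩
    have h4 : PP E α x⁻¹ (x * y) := by
      refine ⟨γ * ρ, ?_, ?_, ?_⟩
      · rw [← mul_assoc]
        exact E.mul_mem hγ hρ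
      · simp only [MulAut.mul_apply, hρ0, _root_.map_inv, hx]
      · simp only [MulAut.mul_apply, hρ1, _root_.map_mul, hx, hy]
    have h5 := hinv _ _ h4
    rwa [inv_inv] at h5
  · rintro x y g ⟨γ, hγ, hx, hy⟩
    refine ⟨MulAut.conj g⁻¹ * γ, ?_, ?_, ?_⟩
    · have h4 : α⁻¹ * (MulAut.conj g⁻¹ * γ) = (α⁻¹ * γ) * MulAut.conj (γ⁻¹ g⁻¹) := by
        generalize g⁻¹ = k
        ext z
        simp only [MulAut.mul_apply, MulAut.conj_apply]
        rw [_root_.map_mul γ, _root_.map_mul γ, _root_.map_inv γ, MulAut.apply_inv_self]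
      rw [h4]
      exact E.mul_mem hγ (hinn _)
    · simp only [MulAut.mul_apply, MulAut.conj_apply, hx, inv_inv]
    · simp only [MulAut.mul_apply, MulAut.conj_apply, hy, inv_inv]

end autos

end NielsenAux

open NielsenAux

theorem nielsen (E : Subgroup (MulAut (FreeGroup (Fin 2)))) (hinn : ∀ g, MulAut.conj g ∈ E)
    (h1 : ∀ α : MulAut (FreeGroup (Fin 2)), α (FreeGroup.of 0) = (FreeGroup.of 1)⁻¹ →
      α (FreeGroup.of 1) = (FreeGroup.of 0)⁻¹ → α ∈ E)
    (h2 : ∀ α : MulAut (FreeGroup (Fin 2)), α (FreeGroup.of 0) = FreeGroup.of 0 →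
      α (FreeGroup.of 1) = (FreeGroup.of 1)⁻¹ → α ∈ E)
    (h3 : ∀ α : MulAut (FreeGroup (Fin 2)), α (FreeGroup.of 0) = (FreeGroup.of 0)⁻¹ →
      α (FreeGroup.of 1) = FreeGroup.of 0 * FreeGroup.of 1 → α ∈ E) :
    ∀ α, α ∈ E := by
  classical
  intro α
  have hcl := cl_PP E hinn h1 h2 h3 α
  -- a pair of least total length
  have hex : ∃ n, ∃ x y, PP E α x y ∧ FreeGroup.norm x + FreeGroup.norm y = n :=
    ⟨_, _, _, ⟨α, by simp, rfl, rfl⟩, rfl⟩
  obtain ⟨x, y, hP, hn⟩ := Nat.find_spec hex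
  have hmin : ∀ x' y', PP E α x' y' → FreeGroup.norm x + FreeGroup.norm y ≤
      FreeGroup.norm x' + FreeGroup.norm y' := by
    intro x' y' hP'
    rw [hn]
    exact Nat.find_min' hex ⟨x', y', hP', rfl⟩
  obtain ⟨γ, hγ, hx, hy⟩ := id hP
  have hx1 : x ≠ 1 := by
    rw [← hx]
    intro h
    exact FreeGroup.of_ne_one (0 : Fin 2) (γ.injective (by rw [h, _root_.map_one]))
  have hy1 : y ≠ 1 := by
    rw [← hy]
    intro h
    exact FreeGroup.of_ne_one (1 : Fin 2) (γ.injective (by rw [h, _root_.map_one]))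
  have hMn : Mn (PP E α) x y := ⟨hcl, hP, hmin, hx1, hy1⟩
  -- generators are letters
  have hlet : ∀ i : Fin 2, ∃ p : Fin 2 × Bool, Z x y p = FreeGroup.of i := by
    intro i
    obtain ⟨g, hg⟩ : ∃ g, g = γ.symm (FreeGroup.of i) := ⟨_, rfl⟩
    have hγg : γ g = FreeGroup.of i := by rw [hg]; exact γ.apply_symm_apply _
    have h4 : FreeGroup.norm g ≤ 1 := by
      have h5 := norm_le_map γ.toMonoidHom (P := PP E α) (by
        change Mn (PP E α) (γ (FreeGroup.of 0)) (γ (FreeGroup.of 1))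
        rw [hx, hy]
        exact hMn) g
      have h6 : γ.toMonoidHom g = FreeGroup.of i := hγg
      rw [h6, FreeGroup.norm_of] at h5
      exact h5
    have h5 : g ≠ 1 := by
      intro h
      rw [h, _root_.map_one] at hγg
      exact FreeGroup.of_ne_one i hγg.symm
    have h6 : FreeGroup.norm g ≠ 0 := by rwa [Ne, FreeGroup.norm_eq_zero]
    have h7 : g.toWord.length = 1 := by
      unfold FreeGroup.norm at h4 h6
      omega
    obtain ⟨p, hp⟩ := List.length_eq_one_iff.1 h7
    refine ⟨p, ?_⟩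
    have h8 := map_mk γ.toMonoidHom g.toWord
    rw [FreeGroup.mk_toWord, hp] at h8
    have h9 : γ.toMonoidHom g = FreeGroup.of i := hγg
    rw [h9] at h8
    have h10 : Wd x y [p] = Z x y p := by simp [Wd]
    rw [← h10, h8]
    change Wd x y [p] = Wd (γ (FreeGroup.of 0)) (γ (FreeGroup.of 1)) [p]
    rw [hx, hy]
  obtain ⟨p, hp⟩ := hlet 0
  obtain ⟨q, hq⟩ := hlet 1
  have h01 : (FreeGroup.of (0 : Fin 2)) ≠ FreeGroup.of 1 := by
    intro h
    have := FreeGroup.of_injective h
    simp at this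
  have h01' : (FreeGroup.of (0 : Fin 2)) ≠ (FreeGroup.of 1)⁻¹ := by
    intro h
    have h5 := congrArg FreeGroup.toWord h
    rw [FreeGroup.toWord_inv, FreeGroup.toWord_of, FreeGroup.toWord_of] at h5
    simp [FreeGroup.invRev] at h5
  have hpq : p.1 ≠ q.1 := by
    intro h
    by_cases h5 : p.2 = q.2
    · have h6 : p = q := Prod.ext h h5
      rw [h6, hq] at hp
      exact h01 hp.symm
    · have h6 : p = (q.1, !q.2) := by
        refine Prod.ext h ?_
        revert h5
        cases p.2 <;> cases q.2 <;> simp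
      rw [h6, Z_inv, hq] at hp
      exact h01' hp.symm
  have hfin := P_Z hcl hP hpq
  rw [hp, hq] at hfin
  obtain ⟨δ, hδ, hδ0, hδ1⟩ := hfin
  have hδ1' : δ = 1 := by
    have h5 : δ.toMonoidHom = MonoidHom.id (FreeGroup (Fin 2)) := by
      refine FreeGroup.ext_hom _ _ fun i => ?_
      fin_cases i
      · exact hδ0
      · exact hδ1
    ext z
    exact DFunLike.congr_fun h5 z
  rw [hδ1', mul_one] at hδ
  exact (E.inv_mem_iff).1 hδ

end Pool.Agent.Occ
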