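import Pool.Agent.Lib.Occ.Assemble
import Pool.Agent.Lib.Occ.Theta

/-!
Finals: the criterion for all `n`, and rank two.
-/

set_option autoImplicit false

namespace Pool.Agent.Occ

/-- Criterion: a fixed power of every element acts, up to an inner automorphism, trivially on a nonabelian free quotient of a finitely generated subgroup. -/
theorem criterion (n : ℕ) (hn : 2 ≤ n) (φ : FreeGroup (Fin n) →* MulAut (FreeGroup (Fin n)))
    (N1 : Subgroup (FreeGroup (Fin n))) (hfg : N1.FG) (θ : N1 →* FreeGroup (Fin 2))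
    (hθ : Function.Surjective θ) (k : ℕ) (hk : 1 ≤ k)
    (h : ∀ f : FreeGroup (Fin n), ∃ g : FreeGroup (Fin n),
      ∃ hN : (∀ x, g * (φ f ^ k) x * g⁻¹ ∈ N1 ↔ x ∈ N1),
        ∀ x : N1, θ ⟨g * (φ f ^ k) x * g⁻¹, (hN x).2 x.2⟩ = θ x) :
    ¬ ComputablePred (Occur n φ) := by
  choose g hN hg using h
  have key : ∀ j : ℕ, φ ((FreeGroup.of (⟨1, by omega⟩ : Fin n)) ^ j *
      (FreeGroup.of (⟨0, by omega⟩ : Fin n)) ^ k * ((FreeGroup.of (⟨1, by omega⟩ : Fin n)) ^ j)⁻¹) =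
      φ ((FreeGroup.of (⟨1, by omega⟩ : Fin n)) ^ j *
      (FreeGroup.of (⟨0, by omega⟩ : Fin n)) * ((FreeGroup.of (⟨1, by omega⟩ : Fin n)) ^ j)⁻¹) ^ k := by
    intro j
    rw [← map_pow, conj_pow]
  refine assemble n hn φ N1 hfg θ hθ k hk (fun j => g ((FreeGroup.of (⟨1, by omega⟩ : Fin n)) ^ j *
      (FreeGroup.of (⟨0, by omega⟩ : Fin n)) * ((FreeGroup.of (⟨1, by omega⟩ : Fin n)) ^ j)⁻¹))
    (fun j x => ?_) (fun j x => ?_)
  · rw [key]
    exact hN _ x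
  · have h1 := hg ((FreeGroup.of (⟨1, by omega⟩ : Fin n)) ^ j *
      (FreeGroup.of (⟨0, by omega⟩ : Fin n)) * ((FreeGroup.of (⟨1, by omega⟩ : Fin n)) ^ j)⁻¹) x
    rw [← h1]
    congr 1
    apply Subtype.ext
    simp only
    rw [key]

theorem rank_two (φ : FreeGroup (Fin 2) →* MulAut (FreeGroup (Fin 2))) :
    ¬ ComputablePred (Occur 2 φ) := by
  obtain ⟨N1, θ, k, h1, h2, h3, h4⟩ := theta_exists
  exact criterion 2 le_rfl φ N1 h1 θ h2 k h3 fun f => h4 (φ f)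

end Pool.Agent.Occ
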